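import Pool.Agent.Helper739.CGUnic

set_option autoImplicit false

namespace Pool.Agent.Helper739.CG

open Set Topology
open Pool.Agent.Helper739.CT (Ctm ctm_union log_unique circle_exp_eq_one const_of_int cutwire bump ctm_component clopen_nhd_component ctm_iInter_directed sub_of_split exists_open_closure_disjoint)

section

variable {M : Type*} [TopologicalSpace M] [CompactSpace M] [T2Space M]

omit [CompactSpace M] in
theorem exists_minimal_semi {Z : Set (M × M)} (hZ : Ctm Z) (h : Prod.snd '' Z ⊆ Prod.fst '' Z)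
    (hd : ∀ p ∈ Z, p.1 ≠ p.2) :
    ∃ Z0 : Set (M × M), Z0 ⊆ Z ∧ Ctm Z0 ∧ Prod.snd '' Z0 ⊆ Prod.fst '' Z0 ∧ (∀ p ∈ Z0, p.1 ≠ p.2) ∧
      ∀ K ⊆ Z0, Ctm K → Prod.snd '' K ⊆ Prod.fst '' K → K = Z0 := by
  obtain ⟨m, hm, hmin⟩ := zorn_superset_nonempty
    {Z : Set (M × M) | Ctm Z ∧ Prod.snd '' Z ⊆ Prod.fst '' Z ∧ ∀ p ∈ Z, p.1 ≠ p.2} (by
      intro c hc hchain hne
      have : Nonempty c := hne.to_subtype
      have hdir : Directed (· ⊇ ·) (fun i : c => (i : Set (M × M))) := by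
        intro i j
        rcases hchain.total i.2 j.2 with h | h
        · exact ⟨i, Subset.rfl, h⟩
        · exact ⟨j, h, Subset.rfl⟩
      refine ⟨⋂ i : c, (i : Set (M × M)), ⟨ctm_iInter_directed hdir (fun i => (hc i.2).1), ?_, ?_⟩, ?_⟩
      · rintro _ ⟨p, hp, rfl⟩
        -- compactness
        have hne' : (⋂ i : c, ((i : Set (M × M)) ∩ Prod.fst ⁻¹' {p.2})).Nonempty := by
          apply IsCompact.nonempty_iInter_of_directed_nonempty_isCompact_isClosed
          · intro i j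
            obtain ⟨k, hki, hkj⟩ := hdir i j
            exact ⟨k, inter_subset_inter_left _ hki, inter_subset_inter_left _ hkj⟩
          · intro i
            obtain ⟨q, hq, hq'⟩ := (hc i.2).2.1 ⟨p, mem_iInter.1 hp i, rfl⟩
            exact ⟨q, hq, hq'⟩
          · intro i
            exact (hc i.2).1.1.inter_right (isClosed_singleton.preimage continuous_fst)
          · intro i
            exact (hc i.2).1.1.isClosed.inter (isClosed_singleton.preimage continuous_fst)
        obtain ⟨q, hq⟩ := hne'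
        rw [mem_iInter] at hq
        refine ⟨q, mem_iInter.2 fun i => (hq i).1, ?_⟩
        obtain ⟨i⟩ : Nonempty c := inferInstance
        exact (hq i).2
      · intro p hp
        obtain ⟨i⟩ : Nonempty c := inferInstance
        exact (hc i.2).2.2 p (mem_iInter.1 hp i)
      · intro s hs
        exact iInter_subset (fun i : c => (i : Set (M × M))) ⟨s, hs⟩) Z ⟨hZ, h, hd⟩
  refine ⟨m, hm, hmin.prop.1, hmin.prop.2.1, hmin.prop.2.2, ?_⟩
  intro K hK hKc hKs
  exact Subset.antisymm hK (hmin.2 ⟨hKc, hKs, fun p hp => hmin.prop.2.2 p (hK hp)⟩ hK)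

theorem crossing (hM : Good M) {Z : Set (M × M)} (hZ : Ctm Z) {Op Oq : Set M}
    (hOp : IsOpen Op) (hOq : IsOpen Oq) (hlr : Disjoint (closure Op) (closure Oq)) {p0 : M}
    (hp0 : p0 ∈ Prod.fst '' Z \ (Op ∪ Oq)) {yl yr : M}
    (hyl : yl ∈ connectedComponentIn (Prod.fst '' Z \ (Op ∪ Oq)) p0) (hyl' : yl ∈ closure Op)
    (hyr : yr ∈ connectedComponentIn (Prod.fst '' Z \ (Op ∪ Oq)) p0) (hyr' : yr ∈ closure Oq) :
    ∃ K ⊆ Z, Ctm K ∧ Prod.fst '' K ⊆ connectedComponentIn (Prod.fst '' Z \ (Op ∪ Oq)) p0 ∧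
      (Prod.fst '' K ∩ closure Op).Nonempty ∧ (Prod.fst '' K ∩ closure Oq).Nonempty := by
  classical
  by_contra hno
  set N : Set M := Prod.fst '' Z with hN
  set U : Set M := N \ (Op ∪ Oq) with hU
  set C : Set M := connectedComponentIn U p0 with hC
  have hNc : Ctm N := hZ.image continuous_fst.continuousOn
  have hUc : IsCompact U := hNc.1.diff (hOp.union hOq)
  have hCc : Ctm C := ctm_component hUc hp0
  have hCU : C ⊆ U := connectedComponentIn_subset U p0
  have hΦ : IsCompact (Z ∩ Prod.fst ⁻¹' C) :=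
    hZ.1.inter_right (hCc.1.isClosed.preimage continuous_fst)
  obtain ⟨A0, B0, hA0, hB0, hAB0, hdis, hA0', hB0'⟩ := cutwire hΦ
    (isClosed_closure.preimage continuous_fst : IsClosed (Prod.fst ⁻¹' closure Op : Set (M × M)))
    (isClosed_closure.preimage continuous_fst : IsClosed (Prod.fst ⁻¹' closure Oq : Set (M × M))) (by
      intro K hK hKc hKA hKB
      apply hno
      refine ⟨K, hK.trans inter_subset_left, hKc, ?_, ?_, ?_⟩
      · rintro _ ⟨q, hq, rfl⟩
        exact (hK hq).2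
      · obtain ⟨q, hq, hq'⟩ := hKA
        exact ⟨q.1, ⟨q, hq, rfl⟩, hq'⟩
      · obtain ⟨q, hq, hq'⟩ := hKB
        exact ⟨q.1, ⟨q, hq, rfl⟩, hq'⟩)
  have hA0s : A0 ⊆ Z ∩ Prod.fst ⁻¹' C := by rw [← hAB0]; exact subset_union_left
  have hB0s : B0 ⊆ Z ∩ Prod.fst ⁻¹' C := by rw [← hAB0]; exact subset_union_right
  have hclL : IsCompact (Z ∩ Prod.fst ⁻¹' closure Op) :=
    hZ.1.inter_right (isClosed_closure.preimage continuous_fst)
  have hclR : IsCompact (Z ∩ Prod.fst ⁻¹' closure Oq) :=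
    hZ.1.inter_right (isClosed_closure.preimage continuous_fst)
  have hdis2 : Disjoint (A0 ∪ (Z ∩ Prod.fst ⁻¹' closure Op)) (B0 ∪ (Z ∩ Prod.fst ⁻¹' closure Oq)) := by
    rw [disjoint_left]
    rintro q (hq | hq) (hq' | hq')
    · exact disjoint_left.1 hdis hq hq'
    · exact disjoint_left.1 hdis hq (hB0' ⟨hA0s hq, hq'.2⟩)
    · exact disjoint_left.1 hdis (hA0' ⟨hB0s hq', hq.2⟩) hq'
    · exact disjoint_left.1 hlr hq.2 hq'.2
  obtain ⟨OA, OB, hOA, hOB, hAOA, hBOB, hOAB⟩ :=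
    SeparatedNhds.of_isCompact_isCompact (hA0.union hclL) (hB0.union hclR) hdis2
  -- V
  have hVc : IsCompact (Prod.fst '' (Z \ (OA ∪ OB))) :=
    (hZ.1.diff (hOA.union hOB)).image continuous_fst
  have hCV : C ∩ Prod.fst '' (Z \ (OA ∪ OB)) = ∅ := by
    rw [eq_empty_iff_forall_notMem]
    rintro _ ⟨hy, ⟨q, ⟨hqZ, hq⟩, rfl⟩⟩
    have : q ∈ A0 ∪ B0 := by rw [hAB0]; exact ⟨hqZ, hy⟩
    apply hq
    rcases this with h | h
    · exact Or.inl (hAOA (Or.inl h))
    · exact Or.inr (hBOB (Or.inl h))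
  obtain ⟨U1, U2, hU1, hU2, hU12, hU12d, hCU1, hVU2⟩ :=
    clopen_nhd_component hUc hp0 hVc.isClosed hCV
  have hU1U : U1 ⊆ U := by rw [← hU12]; exact subset_union_left
  have hU2U : U2 ⊆ U := by rw [← hU12]; exact subset_union_right
  have hin : ∀ q ∈ Z, q.1 ∈ U1 → q ∈ OA ∪ OB := by
    intro q hq hq1
    by_contra h
    exact disjoint_left.1 hU12d hq1 (hVU2 ⟨hU1U hq1, q, ⟨hq, h⟩, rfl⟩)
  -- the function g
  obtain ⟨ρ, hρ0, hρ1, hρ⟩ := exists_continuous_zero_one_of_isClosed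
    (isClosed_closure (s := Op)) (isClosed_closure (s := Oq)) hlr
  have hρc : Continuous ρ := ρ.continuous
  set g : M → Circle := fun x => if x ∈ U1 then Circle.exp (2 * Real.pi * ρ x) else 1 with hg
  have g1 : ∀ x ∈ U1, g x = Circle.exp (2 * Real.pi * ρ x) := by intro x hx; simp [hg, hx]
  have g2 : ∀ x ∈ U2 ∪ (closure Op ∪ closure Oq), g x = 1 := by
    intro x hx
    by_cases hx1 : x ∈ U1
    · rw [g1 x hx1]
      rcases hx with hx | hx | hx
      · exact absurd hx (disjoint_left.1 hU12d hx1)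
      · have : ρ x = 0 := hρ0 hx
        rw [this]; simp
      · have : ρ x = 1 := hρ1 hx
        rw [this, mul_one]
        exact Circle.exp_two_pi
    · simp [hg, hx1]
  have hNcov : N ⊆ U1 ∪ (U2 ∪ (closure Op ∪ closure Oq)) := by
    intro x hx
    by_cases hxO : x ∈ Op ∪ Oq
    · right; right
      rcases hxO with h | h
      · exact Or.inl (subset_closure h)
      · exact Or.inr (subset_closure h)
    · have : x ∈ U1 ∪ U2 := by rw [hU12]; exact ⟨hx, hxO⟩
      rcases this with h | h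
      · exact Or.inl h
      · exact Or.inr (Or.inl h)
  have hD : IsClosed (U2 ∪ (closure Op ∪ closure Oq)) :=
    hU2.isClosed.union (isClosed_closure.union isClosed_closure)
  have hgc : ContinuousOn g (U1 ∪ (U2 ∪ (closure Op ∪ closure Oq))) := by
    apply ContinuousOn.union_of_isClosed _ _ hU1.isClosed hD
    · have : ContinuousOn (fun x => Circle.exp (2 * Real.pi * ρ x)) U1 :=
        (Circle.exp.continuous.comp (continuous_const.mul hρc)).continuousOn
      exact this.congr g1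
    · have : ContinuousOn (fun _ : M => (1 : Circle)) (U2 ∪ (closure Op ∪ closure Oq)) :=
        continuousOn_const
      exact this.congr g2
  obtain ⟨l, hl, hl'⟩ := hM.logOn hNc.1.isClosed hNc.2 (hgc.mono hNcov)
  -- μ on Z
  set ZA : Set (M × M) := (Z ∩ Prod.fst ⁻¹' U1) \ OB with hZA
  set ZB : Set (M × M) := (Z ∩ Prod.fst ⁻¹' U1) \ OA with hZB
  set Z0 : Set (M × M) := Z ∩ Prod.fst ⁻¹' (U2 ∪ (closure Op ∪ closure Oq)) with hZ0
  have hZU1 : IsCompact (Z ∩ Prod.fst ⁻¹' U1) := hZ.1.inter_right (hU1.isClosed.preimage continuous_fst)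
  have hZAc : IsClosed ZA := (hZU1.diff hOB).isClosed
  have hZBc : IsClosed ZB := (hZU1.diff hOA).isClosed
  have hZ0c : IsClosed Z0 := hZ.1.isClosed.inter (hD.preimage continuous_fst)
  have hZcov : Z ⊆ ZA ∪ ZB ∪ Z0 := by
    intro q hq
    rcases hNcov ⟨q, hq, rfl⟩ with h | h
    · left
      rcases hin q hq h with h' | h'
      · left; exact ⟨⟨hq, h⟩, fun h'' => disjoint_left.1 hOAB h' h''⟩
      · right; exact ⟨⟨hq, h⟩, fun h'' => disjoint_left.1 hOAB h'' h'⟩
    · right; exact ⟨hq, h⟩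
  set μ : M × M → ℝ := fun q => if q ∈ ZA then l q.1 - 2 * Real.pi * ρ q.1 else
    if q ∈ ZB then l q.1 - 2 * Real.pi * ρ q.1 + 2 * Real.pi else l q.1 with hμ
  have μA : ∀ q ∈ ZA, μ q = l q.1 - 2 * Real.pi * ρ q.1 := by intro q hq; simp [hμ, hq]
  have μB : ∀ q ∈ ZB, μ q = l q.1 - 2 * Real.pi * ρ q.1 + 2 * Real.pi := by
    intro q hq
    have : q ∉ ZA := by
      intro hqA
      rcases hin q hq.1.1 hq.1.2 with h | h
      · exact hq.2 h
      · exact hqA.2 h
    simp [hμ, hq, this]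
  have μ0 : ∀ q ∈ Z0, μ q = l q.1 := by
    intro q hq
    by_cases hqA : q ∈ ZA
    · rw [μA q hqA]
      rcases hq.2 with h | h | h
      · exact absurd h (disjoint_left.1 hU12d hqA.1.2)
      · have : ρ q.1 = 0 := hρ0 h
        rw [this]; simp
      · exact absurd (hBOB (Or.inr ⟨hq.1, h⟩)) hqA.2
    · by_cases hqB : q ∈ ZB
      · rw [μB q hqB]
        rcases hq.2 with h | h | h
        · exact absurd h (disjoint_left.1 hU12d hqB.1.2)
        · exact absurd (hAOA (Or.inr ⟨hq.1, h⟩)) hqB.2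
        · have : ρ q.1 = 1 := hρ1 h
          rw [this]; ring
      · simp [hμ, hqA, hqB]
  have hlφ : ContinuousOn (fun q : M × M => l q.1) Z :=
    hl.comp continuous_fst.continuousOn (fun q hq => ⟨q, hq, rfl⟩)
  have hρφ : Continuous (fun q : M × M => 2 * Real.pi * ρ q.1) :=
    continuous_const.mul (hρc.comp continuous_fst)
  have hμc : ContinuousOn μ Z := by
    apply ContinuousOn.mono _ hZcov
    apply ContinuousOn.union_of_isClosed _ _ (hZAc.union hZBc) hZ0c
    · apply ContinuousOn.union_of_isClosed _ _ hZAc hZBc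
      · have : ContinuousOn (fun q : M × M => l q.1 - 2 * Real.pi * ρ q.1) ZA :=
          (hlφ.mono (fun q hq => hq.1.1)).sub hρφ.continuousOn
        exact this.congr μA
      · have : ContinuousOn (fun q : M × M => l q.1 - 2 * Real.pi * ρ q.1 + 2 * Real.pi) ZB :=
          ((hlφ.mono (fun q hq => hq.1.1)).sub hρφ.continuousOn).add continuousOn_const
        exact this.congr μB
    · exact (hlφ.mono (fun q hq => hq.1)).congr μ0
  have hμint : ∀ q ∈ Z, ∃ n : ℤ, μ q = n * (2 * Real.pi) := by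
    intro q hq
    have hqN : q.1 ∈ N := ⟨q, hq, rfl⟩
    apply circle_exp_eq_one
    rcases hZcov hq with (h | h) | h
    · rw [μA q h, Circle.exp_sub, hl' q.1 hqN, g1 q.1 h.1.2]
      simp
    · rw [μB q h, Circle.exp_add, Circle.exp_sub, hl' q.1 hqN, g1 q.1 h.1.2, Circle.exp_two_pi]
      simp
    · rw [μ0 q h, hl' q.1 hqN, g2 q.1 h.2]
  obtain ⟨zl, hzl, hzl'⟩ := (hCU hyl).1
  obtain ⟨zr, hzr, hzr'⟩ := (hCU hyr).1
  have e1 := const_of_int hZ.2.isPreconnected hμc Real.two_pi_pos hμint hzl hzr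
  rw [μ0 zl ⟨hzl, by rw [mem_preimage, hzl']; exact Or.inr (Or.inl hyl')⟩,
    μ0 zr ⟨hzr, by rw [mem_preimage, hzr']; exact Or.inr (Or.inr hyr')⟩, hzl', hzr'] at e1
  have e2 := log_unique hCc.2.isPreconnected (hl.mono (fun x hx => (hCU hx).1))
    (g := fun x => 2 * Real.pi * ρ x) (continuous_const.mul hρc).continuousOn
    (fun x hx => by rw [hl' x (hCU hx).1, g1 x (hCU1 hx)]) hyl hyr
  have e3 : ρ yl = 0 := hρ0 hyl'
  have e4 : ρ yr = 1 := hρ1 hyr'
  simp only [e3, e4] at e2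
  have := Real.pi_pos
  linarith

end

end Pool.Agent.Helper739.CG
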