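import Pool.Agent.Helper739.CTSemi

set_option autoImplicit false
set_option linter.unusedSectionVars false

namespace Pool.Agent.Helper739.CG

open Set Topology Filter
open Pool.Agent.Helper739.CT (Ctm)

section

variable {X ι : Type*} [TopologicalSpace X] [CompactSpace X] [T2Space X]

/-- limit of sets along an ultrafilter -/
def ulim (u : Ultrafilter ι) (Z : ι → Set X) : Set X :=
  {x | ∀ V ∈ 𝓝 x, ∀ᶠ i in (u : Filter ι), (Z i ∩ V).Nonempty}

theorem exists_lim (u : Ultrafilter ι) (w : ι → X) : ∃ x, Tendsto w u (𝓝 x) := by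
  obtain ⟨x, -, hx⟩ := isCompact_univ.ultrafilter_le_nhds (u.map w) (by simp)
  exact ⟨x, hx⟩

theorem mem_ulim {u : Ultrafilter ι} {Z : ι → Set X} {w : ι → X} {x : X}
    (hw : ∀ᶠ i in (u : Filter ι), w i ∈ Z i) (h : Tendsto w u (𝓝 x)) : x ∈ ulim u Z := by
  intro V hV
  filter_upwards [hw, h hV] with i hi hi'
  exact ⟨w i, hi, hi'⟩

theorem isClosed_ulim (u : Ultrafilter ι) (Z : ι → Set X) : IsClosed (ulim u Z) := by
  rw [← closure_subset_iff_isClosed]
  intro z hz V hV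
  obtain ⟨V', hV', hV'o, hzV'⟩ := _root_.mem_nhds_iff.1 hV
  obtain ⟨z', hz', hz'L⟩ := mem_closure_iff.1 hz V' hV'o hzV'
  filter_upwards [hz'L V' (hV'o.mem_nhds hz')] with n hn
  exact hn.mono (inter_subset_inter_right _ hV')

/-- choose points of Z i in F when possible -/
theorem ulim_disjoint {u : Ultrafilter ι} {Z : ι → Set X} {F : Set X} (hF : IsClosed F)
    (h : ulim u Z ∩ F = ∅) : ∀ᶠ i in (u : Filter ι), Z i ∩ F = ∅ := by
  by_contra hnot
  rw [← Ultrafilter.eventually_not] at hnot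
  obtain ⟨x0⟩ : Nonempty X := by
    by_contra hX
    rw [not_nonempty_iff] at hX
    obtain ⟨i, hi⟩ := hnot.exists
    exact hi (eq_empty_of_isEmpty _)
  have : ∀ i, ∃ w : X, ¬ Z i ∩ F = ∅ → w ∈ Z i ∩ F := by
    intro i
    by_cases h : Z i ∩ F = ∅
    · exact ⟨x0, fun h' => absurd h h'⟩
    · obtain ⟨w, hw⟩ := nonempty_iff_ne_empty.2 h
      exact ⟨w, fun _ => hw⟩
  choose w hw using this
  obtain ⟨x, hx⟩ := exists_lim u w
  have hxL : x ∈ ulim u Z := by
    apply mem_ulim _ hx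
    filter_upwards [hnot] with i hi
    exact (hw i hi).1
  have hxF : x ∈ F := by
    apply hF.mem_of_tendsto hx
    filter_upwards [hnot] with i hi
    exact (hw i hi).2
  have : x ∈ ulim u Z ∩ F := ⟨hxL, hxF⟩
  rw [h] at this
  exact this

theorem ulim_subset {u : Ultrafilter ι} {Z : ι → Set X} {F : Set X} (hF : IsClosed F)
    (h : ∀ᶠ i in (u : Filter ι), Z i ⊆ F) : ulim u Z ⊆ F := by
  intro x hx
  by_contra hxF
  obtain ⟨i, ⟨w, hw, hw'⟩, hi⟩ := ((hx Fᶜ (hF.isOpen_compl.mem_nhds hxF)).and h).exists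
  exact hw' (hi hw)

theorem ulim_image {Y : Type*} [TopologicalSpace Y] [T2Space Y] {u : Ultrafilter ι}
    {Z : ι → Set X} {f : X → Y} (hf : Continuous f) {y : Y}
    (h : ∀ᶠ i in (u : Filter ι), y ∈ f '' Z i) : y ∈ f '' ulim u Z := by
  by_contra hy
  have hdis : ulim u Z ∩ f ⁻¹' {y} = ∅ := by
    rw [eq_empty_iff_forall_notMem]
    rintro x ⟨hx, hx'⟩
    exact hy ⟨x, hx, hx'⟩
  obtain ⟨i, hi, w, hw, hwy⟩ := ((ulim_disjoint (isClosed_singleton.preimage hf) hdis).and h).exists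
  rw [eq_empty_iff_forall_notMem] at hi
  exact hi w ⟨hw, hwy⟩

theorem ctm_ulim {u : Ultrafilter ι} {Z : ι → Set X} (hZ : ∀ i, Ctm (Z i)) : Ctm (ulim u Z) := by
  have hLc := isClosed_ulim u Z
  refine ⟨hLc.isCompact, ?_, ?_⟩
  · choose w hw using fun i => (hZ i).2.nonempty
    obtain ⟨x, hx⟩ := exists_lim u w
    exact ⟨x, mem_ulim (Eventually.of_forall hw) hx⟩
  · rw [isPreconnected_closed_iff]
    intro t t' ht ht' hcov hn hn'
    by_contra hcon
    rw [not_nonempty_iff_eq_empty] at hcon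
    have hA : IsCompact (ulim u Z ∩ t) := (hLc.inter ht).isCompact
    have hB : IsCompact (ulim u Z ∩ t') := (hLc.inter ht').isCompact
    have hAB : Disjoint (ulim u Z ∩ t) (ulim u Z ∩ t') := by
      rw [disjoint_left]
      rintro x ⟨hx, hxt⟩ ⟨-, hxt'⟩
      have : x ∈ ulim u Z ∩ (t ∩ t') := ⟨hx, hxt, hxt'⟩
      rw [hcon] at this
      exact this
    obtain ⟨U, V, hU, hV, hAU, hBV, hUV⟩ := SeparatedNhds.of_isCompact_isCompact hA hB hAB
    have hdis : ulim u Z ∩ (U ∪ V)ᶜ = ∅ := by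
      rw [eq_empty_iff_forall_notMem]
      rintro x ⟨hx, hx'⟩
      apply hx'
      rcases hcov hx with h | h
      · exact Or.inl (hAU ⟨hx, h⟩)
      · exact Or.inr (hBV ⟨hx, h⟩)
    have hev := ulim_disjoint (hU.union hV).isClosed_compl hdis
    obtain ⟨x, hxL, hxt⟩ := hn
    obtain ⟨y, hyL, hyt⟩ := hn'
    have e1 := hxL U (hU.mem_nhds (hAU ⟨hxL, hxt⟩))
    have e2 := hyL V (hV.mem_nhds (hBV ⟨hyL, hyt⟩))
    obtain ⟨i, ⟨hi1, hi2⟩, hi3⟩ := ((hev.and e1).and e2).exists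
    have hsub : Z i ⊆ U ∪ V := by
      intro w hw
      by_contra hw'
      rw [eq_empty_iff_forall_notMem] at hi1
      exact hi1 w ⟨hw, hw'⟩
    obtain ⟨c, -, hcu, hcv⟩ := (hZ i).2.isPreconnected U V hU hV hsub hi2 hi3
    exact disjoint_left.1 hUV hcu hcv

end

end Pool.Agent.Helper739.CG
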