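import Pool.Agent.Helper739.CTSemispan

set_option autoImplicit false

namespace Pool.Agent.Helper739.CG

open Set Topology
open Pool.Agent.Helper739.CT (Ctm ctm_union log_unique circle_exp_eq_one const_of_int cutwire bump ctm_component clopen_nhd_component ctm_iInter_directed sub_of_split exists_open_closure_disjoint)

/-- hereditary triviality of circle maps and atriodicity (three continua form) -/
structure Good (M : Type*) [TopologicalSpace M] : Prop where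
  logOn : ∀ {S : Set M}, IsClosed S → IsConnected S → ∀ {g : M → Circle}, ContinuousOn g S →
    ∃ l : M → ℝ, ContinuousOn l S ∧ ∀ x ∈ S, Circle.exp (l x) = g x
  atri : ∀ {A B C : Set M}, Ctm A → Ctm B → Ctm C → (A ∩ B ∩ C).Nonempty →
    A ⊆ B ∪ C ∨ B ⊆ A ∪ C ∨ C ⊆ A ∪ B

section

variable {M : Type*} [TopologicalSpace M] [CompactSpace M] [T2Space M]

/-- hereditary unicoherence -/
theorem unicoherent (hM : Good M) {P Q : Set M} (hP : Ctm P) (hQ : Ctm Q) :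
    IsPreconnected (P ∩ Q) := by
  classical
  rw [isPreconnected_closed_iff]
  intro t t' ht ht' hcov hn hn'
  by_contra hcon
  rw [not_nonempty_iff_eq_empty] at hcon
  have hPc := hP.1.isClosed
  have hQc := hQ.1.isClosed
  obtain ⟨a, ⟨haP, haQ⟩, hat⟩ := hn
  obtain ⟨b, ⟨hbP, hbQ⟩, hbt⟩ := hn'
  have hA : IsClosed (P ∩ Q ∩ t) := (hPc.inter hQc).inter ht
  have hB : IsClosed (P ∩ Q ∩ t') := (hPc.inter hQc).inter ht'
  have hAB : Disjoint (P ∩ Q ∩ t) (P ∩ Q ∩ t') := by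
    rw [disjoint_left]
    rintro x ⟨hx, hxt⟩ ⟨-, hxt'⟩
    have : x ∈ P ∩ Q ∩ (t ∩ t') := ⟨hx, hxt, hxt'⟩
    rw [hcon] at this
    exact this
  obtain ⟨u, hu0, hu1, hu⟩ := exists_continuous_zero_one_of_isClosed hA hB hAB
  set g : M → Circle := fun x => if x ∈ P then Circle.exp (Real.pi * u x)
    else Circle.exp (-(Real.pi * u x)) with hg
  have huc : Continuous u := u.continuous
  have gP : ∀ x ∈ P, g x = Circle.exp (Real.pi * u x) := by
    intro x hx; simp [hg, hx]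
  have gQ : ∀ x ∈ Q, g x = Circle.exp (-(Real.pi * u x)) := by
    intro x hx
    by_cases hxP : x ∈ P
    · rw [gP x hxP]
      have : x ∈ t ∪ t' := hcov ⟨hxP, hx⟩
      rcases this with h | h
      · have : u x = 0 := hu0 ⟨⟨hxP, hx⟩, h⟩
        rw [this]; simp
      · have : u x = 1 := hu1 ⟨⟨hxP, hx⟩, h⟩
        rw [this, mul_one]
        ext
        rw [Circle.coe_exp, Circle.coe_exp]
        push_cast
        rw [neg_mul, Complex.exp_neg, Complex.exp_pi_mul_I]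
        norm_num
    · simp [hg, hxP]
  have hgc : ContinuousOn g (P ∪ Q) := by
    apply ContinuousOn.union_of_isClosed _ _ hPc hQc
    · have : ContinuousOn (fun x => Circle.exp (Real.pi * u x)) P :=
        (Circle.exp.continuous.comp (continuous_const.mul huc)).continuousOn
      exact this.congr gP
    · have : ContinuousOn (fun x => Circle.exp (-(Real.pi * u x))) Q :=
        (Circle.exp.continuous.comp (continuous_const.mul huc).neg).continuousOn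
      exact this.congr gQ
  obtain ⟨l, hl, hl'⟩ := hM.logOn (hPc.union hQc)
    (IsConnected.union ⟨a, haP, haQ⟩ hP.2 hQ.2) hgc
  have e1 := log_unique hP.2.isPreconnected (hl.mono subset_union_left)
    (g := fun x => Real.pi * u x) (continuous_const.mul huc).continuousOn
    (fun x hx => by rw [hl' x (Or.inl hx), gP x hx]) haP hbP
  have e2 := log_unique hQ.2.isPreconnected (hl.mono subset_union_right)
    (g := fun x => -(Real.pi * u x)) (continuous_const.mul huc).neg.continuousOn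
    (fun x hx => by rw [hl' x (Or.inr hx), gQ x hx]) haQ hbQ
  have ua : u a = 0 := hu0 ⟨⟨haP, haQ⟩, hat⟩
  have ub : u b = 1 := hu1 ⟨⟨hbP, hbQ⟩, hbt⟩
  simp only [ua, ub] at e1 e2
  have := Real.pi_pos
  linarith

theorem ctm_inter (hM : Good M) {P Q : Set M} (hP : Ctm P) (hQ : Ctm Q)
    (h : (P ∩ Q).Nonempty) : Ctm (P ∩ Q) :=
  ⟨hP.1.inter hQ.1, h, unicoherent hM hP hQ⟩

theorem nested (hM : Good M) {P Q Q' : Set M} (hP : Ctm P) (hQ : Ctm Q) (hQ' : Ctm Q')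
    (h1 : ¬ Q ⊆ P) (h2 : ¬ Q' ⊆ P) (h3 : ¬ P ⊆ Q ∪ Q') (h : (Q ∩ P ∩ (Q' ∩ P)).Nonempty) :
    Q ∩ P ⊆ Q' ∩ P ∨ Q' ∩ P ⊆ Q ∩ P := by
  obtain ⟨x, ⟨hxQ, hxP⟩, hxQ', -⟩ := h
  have he : Ctm (Q ∩ P) := ctm_inter hM hQ hP ⟨x, hxQ, hxP⟩
  have he' : Ctm (Q' ∩ P) := ctm_inter hM hQ' hP ⟨x, hxQ', hxP⟩
  have hqq : Ctm (Q ∩ Q') := ctm_inter hM hQ hQ' ⟨x, hxQ, hxQ'⟩
  rcases hM.atri he he' hqq ⟨x, ⟨⟨hxQ, hxP⟩, hxQ', hxP⟩, hxQ, hxQ'⟩ with h | h | h
  · left
    intro y hy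
    rcases h hy with h | h
    · exact h
    · exact ⟨h.2, hy.2⟩
  · right
    intro y hy
    rcases h hy with h | h
    · exact h
    · exact ⟨h.1, hy.2⟩
  · exfalso
    have hsub : Q ∩ Q' ⊆ P := by
      intro y hy
      rcases h hy with h | h
      · exact h.2
      · exact h.2
    rcases hM.atri hP hQ hQ' ⟨x, ⟨hxP, hxQ⟩, hxQ'⟩ with h | h | h
    · exact h3 h
    · apply h1
      intro y hy
      rcases h hy with h | h
      · exact h
      · exact hsub ⟨hy, h⟩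
    · apply h2
      intro y hy
      rcases h hy with h | h
      · exact h
      · exact hsub ⟨h, hy⟩

theorem disjoint_of_disjoint_inter (hM : Good M) {P Q Q' : Set M} (hP : Ctm P) (hQ : Ctm Q)
    (hQ' : Ctm Q') (h1 : (Q ∩ P).Nonempty) (h2 : (Q' ∩ P).Nonempty)
    (h : Q ∩ P ∩ (Q' ∩ P) = ∅) : Q ∩ Q' = ∅ := by
  by_contra hcon
  rw [← ne_eq, ← nonempty_iff_ne_empty] at hcon
  have h3 : Ctm (P ∪ Q) := ctm_union hP hQ (by rw [inter_comm]; exact h1)
  have h4 := unicoherent hM h3 hQ'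
  rw [isPreconnected_closed_iff] at h4
  obtain ⟨y, hy, hy1, hy2⟩ := h4 P Q hP.1.isClosed hQ.1.isClosed inter_subset_left
    (by obtain ⟨z, hz, hz'⟩ := h2; exact ⟨z, ⟨Or.inl hz', hz⟩, hz'⟩)
    (by obtain ⟨z, hz, hz'⟩ := hcon; exact ⟨z, ⟨Or.inr hz, hz'⟩, hz⟩)
  have : y ∈ Q ∩ P ∩ (Q' ∩ P) := ⟨⟨hy2, hy1⟩, hy.2, hy1⟩
  rw [h] at this
  exact this

theorem no_three (hM : Good M) {P Q1 Q2 Q3 : Set M} (hP : Ctm P) (hQ1 : Ctm Q1)
    (hQ2 : Ctm Q2) (hQ3 : Ctm Q3) (h1 : ¬ Q1 ⊆ P) (h2 : ¬ Q2 ⊆ P) (h3 : ¬ Q3 ⊆ P)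
    (e1 : (Q1 ∩ P).Nonempty) (e2 : (Q2 ∩ P).Nonempty) (e3 : (Q3 ∩ P).Nonempty)
    (e12 : Q1 ∩ P ∩ (Q2 ∩ P) = ∅) (e13 : Q1 ∩ P ∩ (Q3 ∩ P) = ∅)
    (e23 : Q2 ∩ P ∩ (Q3 ∩ P) = ∅) : False := by
  have d12 := disjoint_of_disjoint_inter hM hP hQ1 hQ2 e1 e2 e12
  have d13 := disjoint_of_disjoint_inter hM hP hQ1 hQ3 e1 e3 e13
  have d23 := disjoint_of_disjoint_inter hM hP hQ2 hQ3 e2 e3 e23
  have u1 : Ctm (P ∪ Q1) := ctm_union hP hQ1 (by rw [inter_comm]; exact e1)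
  have u2 : Ctm (P ∪ Q2) := ctm_union hP hQ2 (by rw [inter_comm]; exact e2)
  have u3 : Ctm (P ∪ Q3) := ctm_union hP hQ3 (by rw [inter_comm]; exact e3)
  obtain ⟨x, hx⟩ := hP.2.nonempty
  rw [eq_empty_iff_forall_notMem] at d12 d13 d23
  rcases hM.atri u1 u2 u3 ⟨x, ⟨Or.inl hx, Or.inl hx⟩, Or.inl hx⟩ with h | h | h
  · apply h1
    intro y hy
    rcases h (Or.inr hy) with (h | h) | (h | h)
    · exact h
    · exact absurd ⟨hy, h⟩ (d12 y)
    · exact h
    · exact absurd ⟨hy, h⟩ (d13 y)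
  · apply h2
    intro y hy
    rcases h (Or.inr hy) with (h | h) | (h | h)
    · exact h
    · exact absurd ⟨h, hy⟩ (d12 y)
    · exact h
    · exact absurd ⟨hy, h⟩ (d23 y)
  · apply h3
    intro y hy
    rcases h (Or.inr hy) with (h | h) | (h | h)
    · exact h
    · exact absurd ⟨h, hy⟩ (d13 y)
    · exact h
    · exact absurd ⟨h, hy⟩ (d23 y)

end

end Pool.Agent.Helper739.CG
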