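import Mathlib

set_option autoImplicit false

namespace Pool.Agent.Helper739.CT

open Set Topology

variable {α : Type*} [TopologicalSpace α]

/-- A compact connected (nonempty) set. -/
def Ctm (K : Set α) : Prop := IsCompact K ∧ IsConnected K

theorem Ctm.image {β : Type*} [TopologicalSpace β] {K : Set α} (hK : Ctm K) {f : α → β}
    (hf : ContinuousOn f K) : Ctm (f '' K) :=
  ⟨hK.1.image_of_continuousOn hf, hK.2.image f hf⟩

theorem ctm_union {P Q : Set α} (hP : Ctm P) (hQ : Ctm Q) (h : (P ∩ Q).Nonempty) : Ctm (P ∪ Q) :=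
  ⟨hP.1.union hQ.1, IsConnected.union h hP.2 hQ.2⟩

theorem ctm_component [T2Space α] {Φ : Set α} (hΦ : IsCompact Φ) {z : α} (hz : z ∈ Φ) :
    Ctm (connectedComponentIn Φ z) := by
  refine ⟨?_, isConnected_connectedComponentIn_iff.2 hz⟩
  rw [connectedComponentIn_eq_image hz]
  have : CompactSpace Φ := isCompact_iff_compactSpace.1 hΦ
  exact (isClosed_connectedComponent.isCompact).image continuous_subtype_val

/-- small clopen neighbourhoods of a component -/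
theorem clopen_nhd_component [T2Space α] {Φ : Set α} (hΦ : IsCompact Φ) {z : α} (hz : z ∈ Φ)
    {B : Set α} (hB : IsClosed B) (hdisj : connectedComponentIn Φ z ∩ B = ∅) :
    ∃ P Q : Set α, IsCompact P ∧ IsCompact Q ∧ P ∪ Q = Φ ∧ Disjoint P Q ∧
      connectedComponentIn Φ z ⊆ P ∧ Φ ∩ B ⊆ Q := by
  have : CompactSpace Φ := isCompact_iff_compactSpace.1 hΦ
  set z' : Φ := ⟨z, hz⟩
  have hBc : IsClosed ((↑) ⁻¹' B : Set Φ) := hB.preimage continuous_subtype_val
  have hcomp := connectedComponent_eq_iInter_isClopen z'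
  have hU : IsOpen ((↑) ⁻¹' B : Set Φ)ᶜ := hBc.isOpen_compl
  have hsub : (⋂ s : { s : Set Φ // IsClopen s ∧ z' ∈ s }, (s : Set Φ)) ⊆ ((↑) ⁻¹' B : Set Φ)ᶜ := by
    rw [← hcomp]
    intro x hx hxB
    have : (x : α) ∈ connectedComponentIn Φ z ∩ B := by
      refine ⟨?_, hxB⟩
      rw [connectedComponentIn_eq_image hz]
      exact ⟨x, hx, rfl⟩
    rw [hdisj] at this
    exact this
  have : Nonempty { s : Set Φ // IsClopen s ∧ z' ∈ s } := ⟨⟨univ, isClopen_univ, mem_univ _⟩⟩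
  obtain ⟨s, hs⟩ := exists_subset_nhds_of_isCompact' (ι := { s : Set Φ // IsClopen s ∧ z' ∈ s })
    (V := fun s => (s : Set Φ)) (by
      intro s t
      refine ⟨⟨s.1 ∩ t.1, s.2.1.inter t.2.1, s.2.2, t.2.2⟩, inter_subset_left, inter_subset_right⟩)
    (fun s => s.2.1.1.isCompact) (fun s => s.2.1.1) (U := ((↑) ⁻¹' B : Set Φ)ᶜ)
    (fun x hx => hU.mem_nhds (hsub hx))
  refine ⟨(↑) '' (s : Set Φ), (↑) '' (s : Set Φ)ᶜ, s.2.1.1.isCompact.image continuous_subtype_val,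
    s.2.1.compl.1.isCompact.image continuous_subtype_val, ?_, ?_, ?_, ?_⟩
  · rw [← image_union, union_compl_self, image_univ, Subtype.range_coe]
  · exact (disjoint_image_iff Subtype.val_injective).2 disjoint_compl_right
  · rw [connectedComponentIn_eq_image hz]
    apply image_mono
    exact s.2.1.connectedComponent_subset s.2.2
  · rintro x ⟨hx, hxB⟩
    refine ⟨⟨x, hx⟩, ?_, rfl⟩
    intro hxs
    exact hs hxs hxB

/-- cut-wire theorem -/
theorem cutwire [T2Space α] {Φ A B : Set α} (hΦ : IsCompact Φ) (hA : IsClosed A) (hB : IsClosed B)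
    (h : ∀ K ⊆ Φ, Ctm K → (K ∩ A).Nonempty → (K ∩ B).Nonempty → False) :
    ∃ P Q : Set α, IsCompact P ∧ IsCompact Q ∧ P ∪ Q = Φ ∧ Disjoint P Q ∧ Φ ∩ A ⊆ P ∧
      Φ ∩ B ⊆ Q := by
  classical
  have key : ∃ P Q : Set α, IsCompact P ∧ IsCompact Q ∧ P ∪ Q = Φ ∧ Disjoint P Q ∧ Φ ∩ A ⊆ P ∧
      Φ ∩ B ⊆ Q := by
    refine IsCompact.induction_on (s := Φ ∩ A) (p := fun S => ∃ P Q : Set α, IsCompact P ∧ IsCompact Q ∧
      P ∪ Q = Φ ∧ Disjoint P Q ∧ S ⊆ P ∧ Φ ∩ B ⊆ Q) (hΦ.inter_right hA) ?_ ?_ ?_ ?_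
    · exact ⟨∅, Φ, isCompact_empty, hΦ, by simp, by simp, by simp, inter_subset_left⟩
    · rintro s t hst ⟨P, Q, h1, h2, h3, h4, h5, h6⟩
      exact ⟨P, Q, h1, h2, h3, h4, hst.trans h5, h6⟩
    · rintro s t ⟨P, Q, h1, h2, h3, h4, h5, h6⟩ ⟨P', Q', h1', h2', h3', h4', h5', h6'⟩
      refine ⟨P ∪ P', Q ∩ Q', h1.union h1', h2.inter h2', ?_, ?_, union_subset_union h5 h5',
        subset_inter h6 h6'⟩
      · apply Subset.antisymm
        · rw [union_subset_iff, union_subset_iff]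
          refine ⟨⟨?_, ?_⟩, ?_⟩
          · rw [← h3]; exact subset_union_left
          · rw [← h3']; exact subset_union_left
          · rw [← h3]; exact inter_subset_left.trans subset_union_right
        · intro x hx
          by_cases hP : x ∈ P
          · exact Or.inl (Or.inl hP)
          · by_cases hP' : x ∈ P'
            · exact Or.inl (Or.inr hP')
            · right
              refine ⟨?_, ?_⟩
              · rw [← h3] at hx; exact hx.resolve_left hP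
              · rw [← h3'] at hx; exact hx.resolve_left hP'
      · rw [disjoint_union_left]
        exact ⟨h4.mono_right inter_subset_left, h4'.mono_right inter_subset_right⟩
    · rintro z ⟨hz, hzA⟩
      have hdisj : connectedComponentIn Φ z ∩ B = ∅ := by
        by_contra hne
        rw [← ne_eq, ← nonempty_iff_ne_empty] at hne
        exact h _ (connectedComponentIn_subset Φ z) (ctm_component hΦ hz)
          ⟨z, mem_connectedComponentIn hz, hzA⟩ hne
      obtain ⟨P, Q, h1, h2, h3, h4, h5, h6⟩ := clopen_nhd_component hΦ hz hB hdisj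
      refine ⟨P, ?_, P, Q, h1, h2, h3, h4, Subset.rfl, h6⟩
      have hQ : Qᶜ ∈ 𝓝 z := by
        apply h2.isClosed.isOpen_compl.mem_nhds
        intro hzQ
        exact disjoint_left.1 h4 (h5 (mem_connectedComponentIn hz)) hzQ
      have : Φ ∩ A ⊆ Φ := inter_subset_left
      rw [mem_nhdsWithin_iff_exists_mem_nhds_inter]
      refine ⟨Qᶜ, hQ, ?_⟩
      rintro x ⟨hxQ, hx, -⟩
      rw [← h3] at hx
      exact hx.resolve_right hxQ
  exact key

/-- boundary bumping -/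
theorem bump [T2Space α] {Z O : Set α} (hZ : Ctm Z) (hO : IsOpen O) (hZO : (Z ∩ O).Nonempty)
    {z : α} (hz : z ∈ Z) (hzO : z ∉ O) :
    (connectedComponentIn (Z \ O) z ∩ closure O).Nonempty := by
  by_contra hne
  rw [not_nonempty_iff_eq_empty] at hne
  have hΦ : IsCompact (Z \ O) := hZ.1.diff hO
  have hzΦ : z ∈ Z \ O := ⟨hz, hzO⟩
  obtain ⟨P, Q, h1, h2, h3, h4, h5, h6⟩ := clopen_nhd_component hΦ hzΦ isClosed_closure hne
  -- Z = P ∪ (Q ∪ (Z ∩ closure O))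
  have hcl : IsClosed (Q ∪ (Z ∩ closure O)) :=
    h2.isClosed.union (hZ.1.isClosed.inter isClosed_closure)
  have hcov : Z ⊆ P ∪ (Q ∪ (Z ∩ closure O)) := by
    intro x hx
    by_cases hxO : x ∈ O
    · right; right; exact ⟨hx, subset_closure hxO⟩
    · have : x ∈ P ∪ Q := by rw [h3]; exact ⟨hx, hxO⟩
      rcases this with h | h
      · left; exact h
      · right; left; exact h
  have hpc := hZ.2.isPreconnected
  rw [isPreconnected_closed_iff] at hpc
  obtain ⟨x, hxZ, hxP, hxQ⟩ := hpc P (Q ∪ (Z ∩ closure O)) h1.isClosed hcl hcov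
    ⟨z, hz, h5 (mem_connectedComponentIn hzΦ)⟩
    (by
      obtain ⟨y, hy, hyO⟩ := hZO
      exact ⟨y, hy, Or.inr ⟨hy, subset_closure hyO⟩⟩)
  rcases hxQ with hxQ | hxQ
  · exact disjoint_left.1 h4 hxP hxQ
  · have hxΦ : x ∈ Z \ O := by rw [← h3]; exact Or.inl hxP
    exact disjoint_left.1 h4 hxP (h6 ⟨hxΦ, hxQ.2⟩)

/-- crossing continua: version for closed sets. If Z is a continuum meeting both A and B closed disjoint,
then there's a continuum in Z minus the interiors... -/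
theorem crossing_real [T2Space α] {Z : Set α} (hZ : Ctm Z) {σ : α → ℝ} (hσ : ContinuousOn σ Z)
    {a c : ℝ} (hac : a ≤ c) {z w : α} (hz : z ∈ Z) (hw : w ∈ Z) (hza : σ z ≤ a) (hwc : c ≤ σ w) :
    ∃ K ⊆ Z, Ctm K ∧ (∀ x ∈ K, a ≤ σ x ∧ σ x ≤ c) ∧ (∃ x ∈ K, σ x = a) ∧ (∃ x ∈ K, σ x = c) := by
  by_contra hno
  have hZa : IsClosed (Z ∩ σ ⁻¹' Iic a) :=
    hσ.preimage_isClosed_of_isClosed hZ.1.isClosed isClosed_Iic
  have hZc : IsClosed (Z ∩ σ ⁻¹' Ici c) :=
    hσ.preimage_isClosed_of_isClosed hZ.1.isClosed isClosed_Ici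
  have hΦcl : IsClosed (Z ∩ σ ⁻¹' Icc a c) :=
    hσ.preimage_isClosed_of_isClosed hZ.1.isClosed isClosed_Icc
  have hΦ : IsCompact (Z ∩ σ ⁻¹' Icc a c) := hZ.1.of_isClosed_subset hΦcl inter_subset_left
  obtain ⟨P, Q, h1, h2, h3, h4, h5, h6⟩ := cutwire hΦ hZa hZc (by
    intro K hK hKc hKa hKc'
    apply hno
    refine ⟨K, hK.trans inter_subset_left, hKc, fun x hx => (hK hx).2, ?_, ?_⟩
    · obtain ⟨x, hx, hx'⟩ := hKa
      exact ⟨x, hx, le_antisymm hx'.2 (hK hx).2.1⟩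
    · obtain ⟨x, hx, hx'⟩ := hKc'
      exact ⟨x, hx, le_antisymm (hK hx).2.2 hx'.2⟩)
  have hpc := hZ.2.isPreconnected
  rw [isPreconnected_closed_iff] at hpc
  obtain ⟨x, hxZ, hxP, hxQ⟩ := hpc (P ∪ (Z ∩ σ ⁻¹' Iic a)) (Q ∪ (Z ∩ σ ⁻¹' Ici c))
    (h1.isClosed.union hZa) (h2.isClosed.union hZc) (by
      intro x hx
      by_cases h : σ x ≤ a
      · left; right; exact ⟨hx, h⟩
      · by_cases h' : c ≤ σ x
        · right; right; exact ⟨hx, h'⟩
        · have : x ∈ P ∪ Q := by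
            rw [h3]; exact ⟨hx, le_of_not_ge h, le_of_not_ge h'⟩
          rcases this with h | h
          · left; left; exact h
          · right; left; exact h)
    ⟨z, hz, Or.inr ⟨hz, hza⟩⟩ ⟨w, hw, Or.inr ⟨hw, hwc⟩⟩
  have hPΦ : P ⊆ Z ∩ σ ⁻¹' Icc a c := by rw [← h3]; exact subset_union_left
  have hQΦ : Q ⊆ Z ∩ σ ⁻¹' Icc a c := by rw [← h3]; exact subset_union_right
  rcases hxP with hxP | hxP <;> rcases hxQ with hxQ | hxQ
  · exact disjoint_left.1 h4 hxP hxQ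
  · exact disjoint_left.1 h4 hxP (h6 ⟨hPΦ hxP, hxQ⟩)
  · exact disjoint_left.1 h4 (h5 ⟨hQΦ hxQ, hxP⟩) hxQ
  · -- σ x ≤ a ≤ c ≤ σ x
    have e1 : σ x ≤ a := hxP.2
    have e2 : c ≤ σ x := hxQ.2
    have e3 : a = c := le_antisymm hac (e2.trans e1)
    have hx' : x ∈ Z ∩ σ ⁻¹' Icc a c := ⟨hxZ, e3 ▸ e2, e3 ▸ e1⟩
    exact disjoint_left.1 h4 (h5 ⟨hx', hxP⟩) (h6 ⟨hx', hxQ⟩)

end Pool.Agent.Helper739.CT
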