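import Pool.Agent.Helper739.CTLim

set_option autoImplicit false

namespace Pool.Agent.Helper739.CT

open Set Topology Filter Metric

section Chain

variable {M Y X : Type*} [MetricSpace M] [CompactSpace M] [Nonempty M] [MetricSpace Y]
  [CompactSpace Y] [MetricSpace X] [CompactSpace X] [ConnectedSpace X]

/-- the sublevel set in a slab -/
def Esub (p : X → Y) (hh : ℝ → Y) (ε a c : ℝ) : Set (X × ℝ) :=
  {z | dist (p z.1) (hh z.2) ≤ ε ∧ a ≤ z.2 ∧ z.2 ≤ c}

omit [CompactSpace Y] [CompactSpace X] [ConnectedSpace X] in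
theorem continuous_q {p : X → Y} {hh : ℝ → Y} (hp : Continuous p) (hh' : Continuous hh) :
    Continuous (fun z : X × ℝ => dist (p z.1) (hh z.2)) :=
  (hp.comp continuous_fst).dist (hh'.comp continuous_snd)

omit [CompactSpace Y] [ConnectedSpace X] in
theorem isCompact_Esub {p : X → Y} {hh : ℝ → Y} (hp : Continuous p) (hh' : Continuous hh)
    (ε a c : ℝ) : IsCompact (Esub p hh ε a c) := by
  have h1 : IsCompact ((univ : Set X) ×ˢ Icc a c) := isCompact_univ.prod isCompact_Icc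
  refine h1.of_isClosed_subset ?_ ?_
  · exact (isClosed_le (continuous_q hp hh') continuous_const).inter
      ((isClosed_le continuous_const continuous_snd).inter
        (isClosed_le continuous_snd continuous_const))
  · rintro ⟨x, s⟩ ⟨-, h2, h3⟩
    exact ⟨mem_univ _, h2, h3⟩

omit [CompactSpace X] [ConnectedSpace X] in
theorem cross_fiber (x0 : X) {a c : ℝ} (hac : a ≤ c) :
    Cross a c ((fun s : ℝ => (x0, s)) '' Icc a c) := by
  have h1 : Ctm (Icc a c) := ⟨isCompact_Icc, nonempty_Icc.2 hac, isPreconnected_Icc⟩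
  refine ⟨h1.image (continuous_const.prodMk continuous_id).continuousOn, ?_, ?_, ?_⟩
  · rintro _ ⟨s, hs, rfl⟩; exact hs
  · exact ⟨_, ⟨a, left_mem_Icc.2 hac, rfl⟩, rfl⟩
  · exact ⟨_, ⟨c, right_mem_Icc.2 hac, rfl⟩, rfl⟩

omit [CompactSpace Y] in
theorem comp_full {p : X → Y} {hh : ℝ → Y} (hp : Continuous p) (hh' : Continuous hh)
    {ε a c : ℝ} (hac : a < c) (hno : ∀ K ⊆ {z : X × ℝ | ε ≤ dist (p z.1) (hh z.2)}, ¬ Cross a c K)
    {K : Set (X × ℝ)} (hK : Cross a c K) (hKE : K ⊆ Esub p hh ε a c) {z0 : X × ℝ} (hz0 : z0 ∈ K) :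
    Prod.fst '' (connectedComponentIn (Esub p hh ε a c) z0) = univ := by
  by_contra hne
  rw [← ne_eq, ne_univ_iff_exists_notMem] at hne
  obtain ⟨x0, hx0⟩ := hne
  have hE := isCompact_Esub hp hh' ε a c
  have hdis : connectedComponentIn (Esub p hh ε a c) z0 ∩ {z | z.1 = x0} = ∅ := by
    rw [eq_empty_iff_forall_notMem]
    rintro z ⟨hz, hz'⟩
    exact hx0 ⟨z, hz, hz'⟩
  have hcl : IsClosed {z : X × ℝ | z.1 = x0} := isClosed_eq continuous_fst continuous_const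
  obtain ⟨A, B, h1, h2, h3, h4, h5, h6⟩ := clopen_nhd_component hE (hKE hz0) hcl hdis
  have hBad : IsClosed {z : X × ℝ | ε ≤ dist (p z.1) (hh z.2)} :=
    isClosed_le continuous_const (continuous_q hp hh')
  have hAE : A ⊆ Esub p hh ε a c := by rw [← h3]; exact subset_union_left
  have hKcomp : K ⊆ connectedComponentIn (Esub p hh ε a c) z0 :=
    hK.1.2.isPreconnected.subset_connectedComponentIn hz0 hKE
  refine ustar hac hBad hno h1.isClosed h2.isClosed h4 ?_ (cross_fiber x0 hac.le) ?_ hK ?_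
  · intro z hz1 hz2 hz3
    rw [h3]
    exact ⟨(not_le.1 hz3).le, hz1, hz2⟩
  · rintro _ ⟨s, hs, rfl⟩ hA
    exact disjoint_left.1 h4 hA (h6 ⟨hAE hA, rfl⟩)
  · intro z hz hB
    exact disjoint_left.1 h4 (h5 (hKcomp hz)) hB

theorem chain (hM : SpanZero M) {j : M → Y} {hh : ℝ → Y} (hR : RayData j hh) {p : X → Y}
    (hp : Continuous p) (hpr : range p = range j) :
    ∃ H : ℕ → Set (X × ℝ), (∀ n, Ctm (H n)) ∧
      (∀ n : ℕ, ∀ z ∈ H n, dist (p z.1) (hh z.2) ≤ 1 / ((n : ℝ) + 1) ∧ (n : ℝ) ≤ z.2) ∧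
      (∀ n, Prod.fst '' (H n) = univ) ∧ ∀ n, (H n ∩ H (n + 1)).Nonempty := by
  have hpos : ∀ n : ℕ, (0 : ℝ) < 1 / ((n : ℝ) + 1) := fun n => by positivity
  choose aα hα using fun n : ℕ => alpha hM hR hp hpr (hpos n)
  choose aβ hβ using fun n : ℕ => beta hM hR hp hpr (hpos n)
  choose! b0 hb0 using hβ
  set a0 : ℕ → ℝ := fun n => max (max (aα n) (aβ n)) n with ha0
  set a : ℕ → ℝ := fun n => Nat.rec (a0 0) (fun n an => max (max (an + 1) (a0 (n + 1))) (b0 n an)) n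
    with ha
  have ha_succ : ∀ n, a (n + 1) = max (max (a n + 1) (a0 (n + 1))) (b0 n (a n)) := fun n => rfl
  have ha_zero : a 0 = a0 0 := rfl
  have ha_ge : ∀ n, a0 n ≤ a n := by
    intro n
    cases n with
    | zero => exact le_of_eq ha_zero.symm
    | succ n =>
      rw [ha_succ]
      exact (le_max_right _ _).trans (le_max_left _ _)
  have ha_lt : ∀ n, a n < a (n + 1) := by
    intro n
    rw [ha_succ]
    have : a n + 1 ≤ max (max (a n + 1) (a0 (n + 1))) (b0 n (a n)) :=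
      (le_max_left _ _).trans (le_max_left _ _)
    linarith
  have hα' : ∀ n, aα n ≤ a n := fun n =>
    ((le_max_left _ _).trans (le_max_left _ _)).trans (ha_ge n)
  have hβ' : ∀ n, aβ n ≤ a n := fun n =>
    ((le_max_right _ _).trans (le_max_left _ _)).trans (ha_ge n)
  have hn' : ∀ n : ℕ, (n : ℝ) ≤ a n := fun n => (le_max_right _ _).trans (ha_ge n)
  have hno1 : ∀ n : ℕ, ∀ K ⊆ {z : X × ℝ | 1 / ((n : ℝ) + 1) ≤ dist (p z.1) (hh z.2)},
      ¬ Cross (a n) (a (n + 1)) K := by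
    intro n
    apply hb0 n (a n) (hβ' n)
    rw [ha_succ]
    exact le_max_right _ _
  have hmono : ∀ n : ℕ, 1 / (((n + 1 : ℕ) : ℝ) + 1) ≤ 1 / ((n : ℝ) + 1) := by
    intro n
    apply one_div_le_one_div_of_le (by positivity)
    push_cast; linarith
  have hno2 : ∀ n : ℕ, ∀ K ⊆ {z : X × ℝ | 1 / ((n : ℝ) + 1) ≤ dist (p z.1) (hh z.2)},
      ¬ Cross (a (n + 1)) (a (n + 2)) K := by
    intro n K hK
    apply hno1 (n + 1)
    intro z hz
    exact (hmono n).trans (hK hz)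
  have hno3 : ∀ n : ℕ, ∀ K ⊆ {z : X × ℝ | 1 / ((n : ℝ) + 1) ≤ dist (p z.1) (hh z.2)},
      ¬ Cross (a n) (a (n + 2)) K := by
    intro n K hK hKc
    obtain ⟨K', hK', hKc'⟩ := hKc.mono_level (ha_lt n).le (ha_lt (n + 1)).le le_rfl
    exact hno2 n K' (hK'.trans hK) hKc'
  have hlt2 : ∀ n, a n < a (n + 2) := fun n => (ha_lt n).trans (ha_lt (n + 1))
  choose K hKs hKc using fun n : ℕ => hα n (a n) (hα' n) (a (n + 2)) (hlt2 n)
  have hKE : ∀ n : ℕ, K n ⊆ Esub p hh (1 / ((n : ℝ) + 1)) (a n) (a (n + 2)) := by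
    intro n z hz
    exact ⟨hKs n hz, (hKc n).2.1 z hz⟩
  choose z0 hz0 using fun n => (hKc n).1.2.nonempty
  set H : ℕ → Set (X × ℝ) := fun n =>
    connectedComponentIn (Esub p hh (1 / ((n : ℝ) + 1)) (a n) (a (n + 2))) (z0 n) with hH
  have hKH : ∀ n, K n ⊆ H n := fun n =>
    (hKc n).1.2.isPreconnected.subset_connectedComponentIn (hz0 n) (hKE n)
  have hHE : ∀ n : ℕ, H n ⊆ Esub p hh (1 / ((n : ℝ) + 1)) (a n) (a (n + 2)) := fun n =>
    connectedComponentIn_subset _ _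
  have hHc : ∀ n, Ctm (H n) := fun n =>
    ctm_component (isCompact_Esub hp hR.cont _ _ _) (hKE n (hz0 n))
  refine ⟨H, hHc, ?_, ?_, ?_⟩
  · intro n z hz
    exact ⟨(hHE n hz).1, (hn' n).trans (hHE n hz).2.1⟩
  · intro n
    exact comp_full hp hR.cont (hlt2 n) (hno3 n) (hKc n) (hKE n) (hz0 n)
  · intro n
    by_contra hempty
    rw [not_nonempty_iff_eq_empty] at hempty
    obtain ⟨A, B, h1, h2, h3, h4, h5, h6⟩ := clopen_nhd_component
      (isCompact_Esub hp hR.cont (1 / ((n : ℝ) + 1)) (a n) (a (n + 2))) (hKE n (hz0 n))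
      (hHc (n + 1)).1.isClosed hempty
    obtain ⟨K1, hK1, hK1c⟩ := (hKc n).mono_level (ha_lt n).le (ha_lt (n + 1)).le le_rfl
    obtain ⟨K2, hK2, hK2c⟩ := (hKc (n + 1)).mono_level le_rfl (ha_lt (n + 1)).le
      (ha_lt (n + 2)).le
    have hBad : IsClosed {z : X × ℝ | 1 / ((n : ℝ) + 1) ≤ dist (p z.1) (hh z.2)} :=
      isClosed_le continuous_const (continuous_q hp hR.cont)
    refine ustar (ha_lt (n + 1)) hBad (hno2 n) h1.isClosed h2.isClosed h4 ?_ hK2c ?_ hK1c ?_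
    · intro z hz1 hz2 hz3
      rw [h3]
      exact ⟨(not_le.1 hz3).le, (ha_lt n).le.trans hz1, hz2⟩
    · intro z hz hA
      have hzH : z ∈ H (n + 1) := hKH (n + 1) (hK2 hz)
      have hzE : z ∈ Esub p hh (1 / ((n : ℝ) + 1)) (a n) (a (n + 2)) := by
        refine ⟨(hHE (n + 1) hzH).1.trans (hmono n), ?_, ?_⟩
        · exact (ha_lt n).le.trans (hK2c.2.1 z hz).1
        · exact (hK2c.2.1 z hz).2
      exact disjoint_left.1 h4 hA (h6 ⟨hzE, hzH⟩)
    · intro z hz hB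
      exact disjoint_left.1 h4 (h5 (hKH n (hK1 hz))) hB

end Chain

end Pool.Agent.Helper739.CT
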