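import Pool.Agent.Helper739.CTSemispan

set_option autoImplicit false

namespace Pool.Agent.Helper739.CT

open Set Topology

section Deg

variable {X : Type*} [TopologicalSpace X] {a b : ℝ}

/-- bottom point of the interval -/
def lo (hab : a ≤ b) : Icc a b := ⟨a, left_mem_Icc.2 hab⟩

/-- top point of the interval -/
def hi (hab : a ≤ b) : Icc a b := ⟨b, right_mem_Icc.2 hab⟩

/-- the piece of G on A has degree zero across the slab -/
def Deg0 (hab : a ≤ b) (G : X × Icc a b → Circle) (A : Set (X × Icc a b)) : Prop :=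
  ∃ L : X × Icc a b → ℝ, Continuous L ∧ (∀ p, Circle.exp (L p) = piece G A p) ∧
    (∀ x, L (x, lo hab) = 0) ∧ ∀ x, L (x, hi hab) = 0

theorem deg0_union {hab : a ≤ b} {G : X × Icc a b → Circle} {A B : Set (X × Icc a b)}
    (hA : Deg0 hab G A) (hB : Deg0 hab G B) (hd : Disjoint A B) : Deg0 hab G (A ∪ B) := by
  obtain ⟨L, h1, h2, h3, h4⟩ := hA
  obtain ⟨L', h1', h2', h3', h4'⟩ := hB
  refine ⟨fun p => L p + L' p, h1.add h1', ?_, ?_, ?_⟩
  · intro p
    rw [Circle.exp_add, h2, h2', piece_union hd]
  · intro x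
    simp only [h3, h3', add_zero]
  · intro x
    simp only [h4, h4', add_zero]

theorem notMem_bad_of_eq_one {Y : Type*} {G : Y → Circle} {p : Y} (h : G p = 1) : p ∉ bad G := by
  intro hp
  have h1 : ((G p : Circle) : ℂ).re ≤ 0 := hp
  rw [h] at h1
  simp at h1
  linarith

theorem deg0_of_avoid [PreconnectedSpace X] {hab : a ≤ b} {G : X × Icc a b → Circle}
    (hG : Continuous G) (hlo : ∀ x, G (x, lo hab) = 1) (hhi : ∀ x, G (x, hi hab) = 1)
    {A B : Set (X × Icc a b)} (hAB : Split (bad G) A B) {K : Set (X × Icc a b)}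
    (hK : IsPreconnected K) (hKA : ∀ p ∈ K, p ∉ A) {x0 x1 : X} (h0 : (x0, lo hab) ∈ K)
    (h1 : (x1, hi hab) ∈ K) : Deg0 hab G A := by
  have hpc : Continuous (piece G A) := continuous_piece hG hAB.1 hAB.2.1 hAB.2.2.2 hAB.2.2.1
  have : PreconnectedSpace (Icc a b) := Subtype.preconnectedSpace isPreconnected_Icc
  obtain ⟨L, hL, hL', hL0⟩ := fam_log hpc
    (fun x => hasLog_Icc hab (hpc.comp (continuous_const.prodMk continuous_id)))
    (t0 := fun _ => lo hab) continuous_const
    (fun x => piece_of_notMem_bad (notMem_bad_of_eq_one (hlo x)))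
  refine ⟨L, hL, hL', hL0, ?_⟩
  have e1 : L (x1, hi hab) = 0 := by
    rw [← hL0 x0]
    refine const_of_int hK hL.continuousOn Real.two_pi_pos ?_ h1 h0
    intro p hp
    apply circle_exp_eq_one
    rw [hL', piece_of_notMem (hKA p hp)]
  intro x
  rw [← e1]
  have hc : Continuous (fun x : X => L (x, hi hab)) := hL.comp (continuous_id.prodMk continuous_const)
  refine const_of_int (isPreconnected_univ (α := X)) (f := fun x : X => L (x, hi hab))
    hc.continuousOn Real.two_pi_pos ?_ (mem_univ x) (mem_univ x1)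
  intro x _
  apply circle_exp_eq_one
  rw [hL', piece_of_notMem_bad (notMem_bad_of_eq_one (hhi x))]

theorem not_deg0_bad [Nonempty X] {hab : a ≤ b} {u : X × Icc a b → ℝ} (hu : Continuous u)
    (hlo : ∀ x, u (x, lo hab) = 0) (hhi : ∀ x, u (x, hi hab) = 1)
    (h : Deg0 hab (fun p => Circle.exp (2 * Real.pi * u p))
      (bad (fun p => Circle.exp (2 * Real.pi * u p)))) : False := by
  obtain ⟨L, hL, hL', hL0, hL1⟩ := h
  set G : X × Icc a b → Circle := fun p => Circle.exp (2 * Real.pi * u p) with hGdef
  have hG : Continuous G := Circle.exp.continuous.comp (continuous_const.mul hu)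
  obtain ⟨x0⟩ : Nonempty X := inferInstance
  have : PreconnectedSpace (Icc a b) := Subtype.preconnectedSpace isPreconnected_Icc
  have hs : Continuous (fun t : Icc a b => (x0, t)) := continuous_const.prodMk continuous_id
  have hf : Continuous (fun t : Icc a b => L (x0, t) + al (G (x0, t))) :=
    (hL.comp hs).add ((continuous_al.comp hG).comp hs)
  have hg : Continuous (fun t : Icc a b => 2 * Real.pi * u (x0, t)) :=
    continuous_const.mul (hu.comp hs)
  have := log_unique (isPreconnected_univ (α := Icc a b)) hf.continuousOn hg.continuousOn (by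
    intro t _
    rw [Circle.exp_add, hL', piece_bad_mul]) (mem_univ (lo hab)) (mem_univ (hi hab))
  have g0 : G (x0, lo hab) = 1 := by simp [hGdef, hlo]
  have g1 : G (x0, hi hab) = 1 := by simp [hGdef, hhi, Circle.exp_two_pi]
  rw [hL0, hL1, g0, g1, al_one, hlo, hhi] at this
  have := Real.pi_pos
  linarith

theorem exists_full_component [CompactSpace X] [T2Space X] [ConnectedSpace X] {hab : a ≤ b}
    {u : X × Icc a b → ℝ} (hu : Continuous u)
    (hlo : ∀ x, u (x, lo hab) = 0) (hhi : ∀ x, u (x, hi hab) = 1) :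
    ∃ D ⊆ bad (fun p => Circle.exp (2 * Real.pi * u p)), Ctm D ∧ Prod.fst '' D = univ := by
  by_contra hcon
  push Not at hcon
  apply not_deg0_bad hu hlo hhi
  set G : X × Icc a b → Circle := fun p => Circle.exp (2 * Real.pi * u p) with hGdef
  have hG : Continuous G := Circle.exp.continuous.comp (continuous_const.mul hu)
  have g0 : ∀ x, G (x, lo hab) = 1 := by intro x; simp [hGdef, hlo]
  have g1 : ∀ x, G (x, hi hab) = 1 := by intro x; simp [hGdef, hhi, Circle.exp_two_pi]
  have hW : IsClosed (bad G) := isClosed_bad hG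
  have key : ∃ P Q, Split (bad G) P Q ∧ bad G ⊆ P ∧
      ∀ B C, Split (bad G) B C → B ⊆ P → Deg0 hab G B := by
    refine IsCompact.induction_on (s := bad G) (p := fun S => ∃ P Q, Split (bad G) P Q ∧ S ⊆ P ∧
      ∀ B C, Split (bad G) B C → B ⊆ P → Deg0 hab G B) hW.isCompact ?_ ?_ ?_ ?_
    · refine ⟨∅, bad G, ⟨isClosed_empty, hW, by simp, by simp⟩, Subset.rfl, ?_⟩
      intro B C hBC hB
      have : B = ∅ := subset_empty_iff.1 hB
      subst this
      refine ⟨fun _ => 0, continuous_const, ?_, fun _ => rfl, fun _ => rfl⟩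
      intro p
      rw [piece_of_notMem (notMem_empty p)]; simp
    · rintro s t hst ⟨P, Q, h1, h2, h3⟩
      exact ⟨P, Q, h1, hst.trans h2, h3⟩
    · rintro s t ⟨P, Q, h1, h2, h3⟩ ⟨P', Q', h1', h2', h3'⟩
      refine ⟨P ∪ P', Q ∩ Q', ⟨h1.1.union h1'.1, h1.2.1.inter h1'.2.1, ?_, ?_⟩,
        union_subset_union h2 h2', ?_⟩
      · apply Subset.antisymm
        · rintro x ((hx | hx) | ⟨hx, -⟩)
          · exact h1.left_subset hx
          · exact h1'.left_subset hx
          · exact h1.right_subset hx
        · intro x hx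
          have e1 : x ∈ P ∪ Q := by rw [h1.2.2.1]; exact hx
          have e2 : x ∈ P' ∪ Q' := by rw [h1'.2.2.1]; exact hx
          rcases e1 with e1 | e1
          · left; left; exact e1
          · rcases e2 with e2 | e2
            · left; right; exact e2
            · right; exact ⟨e1, e2⟩
      · rw [disjoint_left]
        rintro x (hx | hx) ⟨hq, hq'⟩
        · exact disjoint_left.1 h1.2.2.2 hx hq
        · exact disjoint_left.1 h1'.2.2.2 hx hq'
      · intro B C hBC hB
        have s1 := h1.inter hBC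
        have s2 := h1.symm.inter hBC
        have l1 := h3 _ _ s1 inter_subset_right
        have l2 := h3' _ _ s2 (by
          rintro x ⟨hx, hxQ⟩
          rcases hB hx with h | h
          · exact absurd hxQ (disjoint_left.1 h1.2.2.2 h)
          · exact h)
        have := deg0_union l1 l2 (h1.2.2.2.mono inter_subset_right inter_subset_right)
        rwa [← inter_union_distrib_left, h1.2.2.1, inter_eq_left.2 hBC.left_subset] at this
    · intro p hp
      have hC := ctm_component hW.isCompact hp
      have hCW := connectedComponentIn_subset (bad G) p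
      have hmiss : ∃ x0 : X, connectedComponentIn (bad G) p ∩ {q | q.1 = x0} = ∅ := by
        by_contra hc
        push Not at hc
        apply hcon _ hCW hC
        rw [eq_univ_iff_forall]
        intro x
        obtain ⟨q, hq, hq'⟩ := hc x
        exact ⟨q, hq, hq'⟩
      obtain ⟨x0, hx0⟩ := hmiss
      have hcl : IsClosed {q : X × Icc a b | q.1 = x0} := isClosed_eq continuous_fst continuous_const
      obtain ⟨P, Q, h1, h2, h3, h4, h5, h6⟩ := clopen_nhd_component hW.isCompact hp hcl hx0
      refine ⟨P, ?_, P, Q, ⟨h1.isClosed, h2.isClosed, h3, h4⟩, Subset.rfl, ?_⟩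
      · have hQ : Qᶜ ∈ 𝓝 p := by
          apply h2.isClosed.isOpen_compl.mem_nhds
          intro hpQ
          exact disjoint_left.1 h4 (h5 (mem_connectedComponentIn hp)) hpQ
        rw [mem_nhdsWithin_iff_exists_mem_nhds_inter]
        refine ⟨Qᶜ, hQ, ?_⟩
        rintro x ⟨hxQ, hx⟩
        rw [← h3] at hx
        exact hx.resolve_right hxQ
      · intro B C hBC hB
        have hKp : IsPreconnected (range (fun t : Icc a b => (x0, t))) := by
          have : PreconnectedSpace (Icc a b) := Subtype.preconnectedSpace isPreconnected_Icc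
          exact isPreconnected_range (continuous_const.prodMk continuous_id)
        apply deg0_of_avoid hG g0 g1 hBC hKp _ ⟨lo hab, rfl⟩ ⟨hi hab, rfl⟩
        rintro _ ⟨t, rfl⟩ ht
        exact disjoint_left.1 h4 (hB ht) (h6 ⟨hBC.left_subset ht, rfl⟩)
  obtain ⟨P, Q, hPQ, hP, hdeg⟩ := key
  exact hdeg (bad G) ∅ ⟨hW, isClosed_empty, by simp, by simp⟩ hP

end Deg

end Pool.Agent.Helper739.CT
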