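import Pool.Agent.Helper739.CTSlab

set_option autoImplicit false

namespace Pool.Agent.Helper739.CT

open Set Topology Filter Metric

section Lim

variable {M Y : Type*} [MetricSpace M] [CompactSpace M] [MetricSpace Y] [CompactSpace Y]

theorem lim_contra [Nonempty M] (hM : SpanZero M) {j : M → Y} (hj : IsEmbedding j) {ε : ℝ} (hε : 0 < ε)
    (Z : ℕ → Set (Y × Y)) (hZ : ∀ n, Ctm (Z n)) (hd : ∀ n, ∀ z ∈ Z n, ε ≤ dist z.1 z.2)
    (h1 : ∀ n : ℕ, ∀ z ∈ Z n, infDist z.1 (range j) ≤ 1 / ((n : ℝ) + 1))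
    (h2 : ∀ n : ℕ, ∀ z ∈ Z n, infDist z.2 (range j) ≤ 1 / ((n : ℝ) + 1))
    (h3 : ∀ n : ℕ, ∀ m : M, ∃ z ∈ Z n, dist z.1 (j m) ≤ 1 / ((n : ℝ) + 1)) : False := by
  set 𝒰 : Ultrafilter ℕ := hyperfilter ℕ with h𝒰
  have h𝒰top : (𝒰 : Filter ℕ) ≤ atTop := by
    rw [← Nat.cofinite_eq_atTop]; exact hyperfilter_le_cofinite
  have htend : Tendsto (fun n : ℕ => 1 / ((n : ℝ) + 1)) 𝒰 (𝓝 0) :=
    tendsto_one_div_add_atTop_nhds_zero_nat.mono_left h𝒰top
  have hlim : ∀ w : ℕ → Y × Y, ∃ z, Tendsto w 𝒰 (𝓝 z) := by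
    intro w
    obtain ⟨z, -, hz⟩ := isCompact_univ.ultrafilter_le_nhds (𝒰.map w) (by simp)
    exact ⟨z, hz⟩
  set L : Set (Y × Y) := {z | ∀ V ∈ 𝓝 z, ∀ᶠ n in (𝒰 : Filter ℕ), (Z n ∩ V).Nonempty} with hL
  have hmem : ∀ (w : ℕ → Y × Y) (z : Y × Y), (∀ᶠ n in (𝒰 : Filter ℕ), w n ∈ Z n) →
      Tendsto w 𝒰 (𝓝 z) → z ∈ L := by
    intro w z hw hz V hV
    filter_upwards [hw, hz hV] with n hn hn'
    exact ⟨w n, hn, hn'⟩
  have hLc : IsClosed L := by
    rw [← closure_subset_iff_isClosed]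
    intro z hz V hV
    obtain ⟨V', hV', hV'o, hzV'⟩ := _root_.mem_nhds_iff.1 hV
    obtain ⟨z', hz', hz'L⟩ := mem_closure_iff.1 hz V' hV'o hzV'
    filter_upwards [hz'L V' (hV'o.mem_nhds hz')] with n hn
    exact hn.mono (inter_subset_inter_right _ hV')
  -- distance
  have hLd : ∀ z ∈ L, ε ≤ dist z.1 z.2 := by
    intro z hz
    by_contra hlt
    rw [not_le] at hlt
    have hV : {w : Y × Y | dist w.1 w.2 < ε} ∈ 𝓝 z :=
      (isOpen_lt (continuous_fst.dist continuous_snd) continuous_const).mem_nhds hlt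
    obtain ⟨n, w, hw, hw'⟩ := (hz _ hV).exists
    exact absurd (hd n w hw) (not_le.2 hw')
  have hcl : IsClosed (range j) := (isCompact_range hj.continuous).isClosed
  have hne : (range j).Nonempty := range_nonempty j
  have hL1 : ∀ z ∈ L, z.1 ∈ range j := by
    intro z hz
    rw [hcl.mem_iff_infDist_zero hne]
    by_contra hne0
    have hpos : 0 < infDist z.1 (range j) := lt_of_le_of_ne infDist_nonneg (Ne.symm hne0)
    have hV : {w : Y × Y | infDist z.1 (range j) / 2 < infDist w.1 (range j)} ∈ 𝓝 z :=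
      (isOpen_lt continuous_const ((continuous_infDist_pt _).comp continuous_fst)).mem_nhds
        (by show infDist z.1 (range j) / 2 < infDist z.1 (range j); linarith)
    have hsm : ∀ᶠ n : ℕ in (𝒰 : Filter ℕ), 1 / ((n : ℝ) + 1) < infDist z.1 (range j) / 2 :=
      htend.eventually (gt_mem_nhds (by linarith))
    obtain ⟨n, ⟨w, hw, hw'⟩, hn⟩ := ((hz _ hV).and hsm).exists
    have := h1 n w hw
    have hw'' : infDist z.1 (range j) / 2 < infDist w.1 (range j) := hw'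
    linarith
  have hL2 : ∀ z ∈ L, z.2 ∈ range j := by
    intro z hz
    rw [hcl.mem_iff_infDist_zero hne]
    by_contra hne0
    have hpos : 0 < infDist z.2 (range j) := lt_of_le_of_ne infDist_nonneg (Ne.symm hne0)
    have hV : {w : Y × Y | infDist z.2 (range j) / 2 < infDist w.2 (range j)} ∈ 𝓝 z :=
      (isOpen_lt continuous_const ((continuous_infDist_pt _).comp continuous_snd)).mem_nhds
        (by show infDist z.2 (range j) / 2 < infDist z.2 (range j); linarith)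
    have hsm : ∀ᶠ n : ℕ in (𝒰 : Filter ℕ), 1 / ((n : ℝ) + 1) < infDist z.2 (range j) / 2 :=
      htend.eventually (gt_mem_nhds (by linarith))
    obtain ⟨n, ⟨w, hw, hw'⟩, hn⟩ := ((hz _ hV).and hsm).exists
    have := h2 n w hw
    have hw'' : infDist z.2 (range j) / 2 < infDist w.2 (range j) := hw'
    linarith
  have hL3 : ∀ m : M, ∃ z ∈ L, z.1 = j m := by
    intro m
    choose w hw hw' using fun n => h3 n m
    obtain ⟨z, hz⟩ := hlim w
    refine ⟨z, hmem w z (Eventually.of_forall hw) hz, ?_⟩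
    have h4 : Tendsto (fun n => dist (w n).1 (j m)) 𝒰 (𝓝 (dist z.1 (j m))) :=
      ((continuous_fst.dist continuous_const).tendsto z).comp hz
    have h5 : dist z.1 (j m) ≤ 0 := le_of_tendsto_of_tendsto h4 htend
      (Eventually.of_forall hw')
    exact dist_le_zero.1 h5
  -- connectedness
  have hLconn : IsPreconnected L := by
    rw [isPreconnected_closed_iff]
    intro t t' ht ht' hcov hn hn'
    by_contra hcon
    rw [not_nonempty_iff_eq_empty] at hcon
    have hA : IsCompact (L ∩ t) := (hLc.inter ht).isCompact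
    have hB : IsCompact (L ∩ t') := (hLc.inter ht').isCompact
    have hAB : Disjoint (L ∩ t) (L ∩ t') := by
      rw [disjoint_left]
      rintro x ⟨hx, hxt⟩ ⟨-, hxt'⟩
      have : x ∈ L ∩ (t ∩ t') := ⟨hx, hxt, hxt'⟩
      rw [hcon] at this
      exact this
    obtain ⟨u, v, hu, hv, hAu, hBv, huv⟩ := SeparatedNhds.of_isCompact_isCompact hA hB hAB
    have hLuv : L ⊆ u ∪ v := by
      intro x hx
      rcases hcov hx with h | h
      · exact Or.inl (hAu ⟨hx, h⟩)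
      · exact Or.inr (hBv ⟨hx, h⟩)
    have hev : ∀ᶠ n in (𝒰 : Filter ℕ), Z n ⊆ u ∪ v := by
      by_contra hnot
      rw [← Ultrafilter.eventually_not] at hnot
      have : ∀ n, ∃ w : Y × Y, ¬ Z n ⊆ u ∪ v → w ∈ Z n ∧ w ∉ u ∪ v := by
        intro n
        by_cases h : Z n ⊆ u ∪ v
        · obtain ⟨w, hw⟩ := (hZ n).2.nonempty
          exact ⟨w, fun h' => absurd h h'⟩
        · obtain ⟨w, hw, hw'⟩ := not_subset.1 h
          exact ⟨w, fun _ => ⟨hw, hw'⟩⟩
      choose w hw using this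
      obtain ⟨z, hz⟩ := hlim w
      have hzL : z ∈ L := by
        apply hmem w z _ hz
        filter_upwards [hnot] with n hn
        exact (hw n hn).1
      have hzuv : z ∉ u ∪ v := by
        intro hzuv
        have := hz ((hu.union hv).mem_nhds hzuv)
        obtain ⟨n, hn, hn'⟩ := ((show ∀ᶠ n in (𝒰 : Filter ℕ), w n ∈ u ∪ v from this).and hnot).exists
        exact (hw n hn').2 hn
      exact hzuv (hLuv hzL)
    obtain ⟨x, hxL, hxt⟩ := hn
    obtain ⟨y, hyL, hyt⟩ := hn'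
    have e1 := hxL u (hu.mem_nhds (hAu ⟨hxL, hxt⟩))
    have e2 := hyL v (hv.mem_nhds (hBv ⟨hyL, hyt⟩))
    obtain ⟨n, ⟨hn1, hn2⟩, hn3⟩ := ((hev.and e1).and e2).exists
    obtain ⟨c, -, hcu, hcv⟩ := (hZ n).2.isPreconnected u v hu hv hn1 hn2 hn3
    exact disjoint_left.1 huv hcu hcv
  -- transport to M
  have hjj : IsEmbedding (Prod.map j j) := hj.prodMap hj
  set ZM : Set (M × M) := Prod.map j j ⁻¹' L with hZM
  have hsub : L ⊆ range (Prod.map j j) := by
    rintro ⟨z1, z2⟩ hz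
    obtain ⟨m1, hm1⟩ := hL1 _ hz
    obtain ⟨m2, hm2⟩ := hL2 _ hz
    exact ⟨(m1, m2), by simp only [Prod.map]; rw [hm1, hm2]⟩
  have hZMc : IsCompact ZM := (hLc.preimage hjj.continuous).isCompact
  have hfst : ∀ m : M, ∃ z ∈ ZM, z.1 = m := by
    intro m
    obtain ⟨z, hz, hzm⟩ := hL3 m
    obtain ⟨w, hw⟩ := hsub hz
    refine ⟨w, by rw [hZM, mem_preimage, hw]; exact hz, ?_⟩
    apply hj.injective
    rw [← hzm, ← hw]; rfl
  have hZMp : IsPreconnected ZM := by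
    rw [← hjj.isInducing.isPreconnected_image, hZM, image_preimage_eq_of_subset hsub]
    exact hLconn
  obtain ⟨m0⟩ : Nonempty M := inferInstance
  have hZMn : ZM.Nonempty := by
    obtain ⟨z, hz, -⟩ := hfst m0
    exact ⟨z, hz⟩
  obtain ⟨p, hp, hpe⟩ := semispan hM ⟨hZMc, hZMn, hZMp⟩ (by
    intro m _
    exact hfst m)
  have := hLd _ hp
  simp only [Prod.map, hpe, dist_self] at this
  linarith

end Lim

section Facts

variable {M Y : Type*} [MetricSpace M] [CompactSpace M] [MetricSpace Y] [CompactSpace Y]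

/-- abstract package of what we need of the ray -/
structure RayData (j : M → Y) (hh : ℝ → Y) : Prop where
  emb : IsEmbedding j
  cont : Continuous hh
  near : ∀ ε > 0, ∃ a : ℝ, ∀ s ≥ a, infDist (hh s) (range j) < ε
  dense : ∀ ε > 0, ∀ a : ℝ, ∃ b : ℝ, ∀ m : M, ∃ s, a ≤ s ∧ s ≤ b ∧ dist (hh s) (j m) < ε

/-- the extended ray parametrisation -/
noncomputable def rayMap {j : M → Y} (e : ↥((range j)ᶜ) ≃ₜ ↥(Ici (0 : ℝ))) : ℝ → Y :=
  fun s => (e.symm ⟨max s 0, le_max_right s 0⟩ : Y)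

omit [CompactSpace M] [CompactSpace Y] [MetricSpace M] in
theorem rayMap_notMem {j : M → Y} (e : ↥((range j)ᶜ) ≃ₜ ↥(Ici (0 : ℝ))) (s : ℝ) :
    rayMap e s ∉ range j := (e.symm ⟨max s 0, le_max_right s 0⟩).2

omit [CompactSpace M] [CompactSpace Y] [MetricSpace M] in
theorem rayMap_surj {j : M → Y} (e : ↥((range j)ᶜ) ≃ₜ ↥(Ici (0 : ℝ))) {y : Y}
    (hy : y ∉ range j) : rayMap e (e ⟨y, hy⟩) = y ∧ (0 : ℝ) ≤ e ⟨y, hy⟩ := by
  have h0 : (0 : ℝ) ≤ e ⟨y, hy⟩ := (e ⟨y, hy⟩).2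
  refine ⟨?_, h0⟩
  unfold rayMap
  have : (⟨max ((e ⟨y, hy⟩ : ↥(Ici (0 : ℝ))) : ℝ) 0, mem_Ici.2 (le_max_right _ _)⟩ :
      ↥(Ici (0 : ℝ))) = e ⟨y, hy⟩ := Subtype.ext (max_eq_left h0)
  rw [this, e.symm_apply_apply]

omit [CompactSpace M] [CompactSpace Y] [MetricSpace M] in
theorem continuous_rayMap {j : M → Y} (e : ↥((range j)ᶜ) ≃ₜ ↥(Ici (0 : ℝ))) :
    Continuous (rayMap e) := by
  apply continuous_subtype_val.comp
  apply e.symm.continuous.comp
  exact (continuous_id.max continuous_const).subtype_mk _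

theorem rayData [Nonempty M] {j : M → Y} (hj : IsEmbedding j) (hd : Dense (range j)ᶜ)
    (e : ↥((range j)ᶜ) ≃ₜ ↥(Ici (0 : ℝ))) : RayData j (rayMap e) := by
  have hcl : IsClosed (range j) := (isCompact_range hj.continuous).isClosed
  refine ⟨hj, continuous_rayMap e, ?_, ?_⟩
  · intro ε hε
    set S : Set Y := {y | ε ≤ infDist y (range j)} with hS
    have hSc : IsCompact S := (isClosed_le continuous_const (continuous_infDist_pt _)).isCompact
    have hSr : S ⊆ (range j)ᶜ := by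
      intro y hy hyr
      have h0 : infDist y (range j) = 0 := infDist_zero_of_mem hyr
      have : ε ≤ infDist y (range j) := hy
      linarith
    have hS' : IsCompact ((↑) ⁻¹' S : Set ↥((range j)ᶜ)) := by
      rw [IsInducing.subtypeVal.isCompact_iff, Subtype.image_preimage_coe,
        inter_eq_right.2 hSr]
      exact hSc
    have hT : IsCompact ((↑) '' (e '' ((↑) ⁻¹' S : Set ↥((range j)ᶜ))) : Set ℝ) :=
      (hS'.image e.continuous).image continuous_subtype_val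
    obtain ⟨B, hB⟩ := hT.bddAbove
    refine ⟨max B 0 + 1, ?_⟩
    intro s hs
    by_contra hnot
    rw [not_lt] at hnot
    have hs0 : 0 ≤ s := by
      have := le_max_right B 0
      linarith
    have hmem : s ∈ ((↑) '' (e '' ((↑) ⁻¹' S : Set ↥((range j)ᶜ))) : Set ℝ) := by
      refine ⟨⟨max s 0, le_max_right s 0⟩, ⟨e.symm ⟨max s 0, le_max_right s 0⟩, hnot, ?_⟩, ?_⟩
      · exact e.apply_symm_apply _
      · exact max_eq_left hs0
    have := hB hmem
    have := le_max_left B 0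
    linarith
  · intro ε hε a
    have hloc : ∀ m : M, ∃ s, a ≤ s ∧ dist (rayMap e s) (j m) < ε := by
      intro m
      have hK : IsCompact (rayMap e '' Icc 0 (max a 0)) :=
        isCompact_Icc.image (continuous_rayMap e)
      have hjm : j m ∉ rayMap e '' Icc 0 (max a 0) := by
        rintro ⟨s, -, hs⟩
        exact rayMap_notMem e s (by rw [hs]; exact mem_range_self m)
      have hU : ball (j m) ε ∩ (rayMap e '' Icc 0 (max a 0))ᶜ ∈ 𝓝 (j m) :=
        inter_mem (ball_mem_nhds _ hε) (hK.isClosed.isOpen_compl.mem_nhds hjm)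
      obtain ⟨V, hV, hVo, hjV⟩ := _root_.mem_nhds_iff.1 hU
      obtain ⟨y, hyV, hy⟩ := hd.inter_open_nonempty V hVo ⟨_, hjV⟩
      have hy' := hV hyV
      obtain ⟨h1, h2⟩ := rayMap_surj e hy
      refine ⟨(e ⟨y, hy⟩ : ℝ), ?_, ?_⟩
      · by_contra hlt
        rw [not_le] at hlt
        apply hy'.2
        exact ⟨(e ⟨y, hy⟩ : ℝ), ⟨h2, hlt.le.trans (le_max_left _ _)⟩, h1⟩
      · rw [h1]; exact hy'.1
    have key : ∃ b : ℝ, ∀ m ∈ (univ : Set M), ∃ s, a ≤ s ∧ s ≤ b ∧ dist (rayMap e s) (j m) < ε := by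
      refine IsCompact.induction_on (s := (univ : Set M)) (p := fun S => ∃ b : ℝ, ∀ m ∈ S,
        ∃ s, a ≤ s ∧ s ≤ b ∧ dist (rayMap e s) (j m) < ε) isCompact_univ ?_ ?_ ?_ ?_
      · exact ⟨0, by simp⟩
      · rintro s t hst ⟨b, hb⟩
        exact ⟨b, fun m hm => hb m (hst hm)⟩
      · rintro s t ⟨b, hb⟩ ⟨b', hb'⟩
        refine ⟨max b b', ?_⟩
        rintro m (hm | hm)
        · obtain ⟨s, h1, h2, h3⟩ := hb m hm
          exact ⟨s, h1, h2.trans (le_max_left _ _), h3⟩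
        · obtain ⟨s, h1, h2, h3⟩ := hb' m hm
          exact ⟨s, h1, h2.trans (le_max_right _ _), h3⟩
      · intro m _
        obtain ⟨s, hs, hs'⟩ := hloc m
        refine ⟨{m' | dist (rayMap e s) (j m') < ε}, ?_, s, ?_⟩
        · apply mem_nhdsWithin_of_mem_nhds
          exact (isOpen_lt (continuous_const.dist hj.continuous) continuous_const).mem_nhds hs'
        · intro m' hm'
          exact ⟨s, hs, le_rfl, hm'⟩
    obtain ⟨b, hb⟩ := key
    exact ⟨b, fun m => hb m (mem_univ m)⟩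

end Facts

section AlphaBeta

variable {M Y X : Type*} [MetricSpace M] [CompactSpace M] [Nonempty M] [MetricSpace Y]
  [CompactSpace Y] [MetricSpace X] [CompactSpace X] [ConnectedSpace X]

theorem alpha (hM : SpanZero M) {j : M → Y} {hh : ℝ → Y} (hR : RayData j hh) {p : X → Y}
    (hp : Continuous p) (hpr : range p = range j) {ε : ℝ} (hε : 0 < ε) :
    ∃ a0 : ℝ, ∀ a ≥ a0, ∀ c > a, ∃ K ⊆ {z : X × ℝ | dist (p z.1) (hh z.2) ≤ ε}, Cross a c K := by
  by_contra hcon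
  push Not at hcon
  have hBad : IsClosed {z : X × ℝ | dist (p z.1) (hh z.2) ≤ ε} :=
    isClosed_le ((hp.comp continuous_fst).dist (hR.cont.comp continuous_snd)) continuous_const
  have hstep : ∀ n : ℕ, ∃ D : Set (X × ℝ), Ctm D ∧
      (∀ z ∈ D, infDist (hh z.2) (range j) ≤ 1 / ((n : ℝ) + 1) ∧ ε ≤ dist (p z.1) (hh z.2)) ∧
      Prod.fst '' D = univ := by
    intro n
    obtain ⟨a0, ha0⟩ := hR.near (1 / ((n : ℝ) + 1)) (by positivity)
    obtain ⟨a, ha, c, hc, hno⟩ := hcon a0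
    obtain ⟨D, hD, hD1, hD2⟩ := exists_full hc hBad hno
    refine ⟨D, hD, ?_, hD2⟩
    intro z hz
    obtain ⟨e1, e2, e3⟩ := hD1 z hz
    exact ⟨(ha0 z.2 (ha.le.trans e1)).le, (not_le.1 e3).le⟩
  choose D hD hD1 hD2 using hstep
  have hcont : Continuous (fun z : X × ℝ => (p z.1, hh z.2)) :=
    (hp.comp continuous_fst).prodMk (hR.cont.comp continuous_snd)
  refine lim_contra hM hR.emb hε (fun n => (fun z : X × ℝ => (p z.1, hh z.2)) '' D n)
    (fun n => (hD n).image hcont.continuousOn) ?_ ?_ ?_ ?_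
  · rintro n _ ⟨z, hz, rfl⟩
    exact (hD1 n z hz).2
  · rintro n _ ⟨z, hz, rfl⟩
    have : p z.1 ∈ range j := by rw [← hpr]; exact mem_range_self _
    rw [infDist_zero_of_mem this]
    positivity
  · rintro n _ ⟨z, hz, rfl⟩
    exact (hD1 n z hz).1
  · intro n m
    have hm : j m ∈ range p := by rw [hpr]; exact mem_range_self _
    obtain ⟨x, hx⟩ := hm
    have hx' : x ∈ Prod.fst '' D n := by rw [hD2 n]; exact mem_univ x
    obtain ⟨z, hz, rfl⟩ := hx'
    refine ⟨_, ⟨z, hz, rfl⟩, ?_⟩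
    simp only [hx, dist_self]
    positivity

omit [CompactSpace X] [ConnectedSpace X] in
theorem beta (hM : SpanZero M) {j : M → Y} {hh : ℝ → Y} (hR : RayData j hh) {p : X → Y}
    (hp : Continuous p) (hpr : range p = range j) {ε : ℝ} (hε : 0 < ε) :
    ∃ a0 : ℝ, ∀ a ≥ a0, ∃ b0 : ℝ, ∀ b ≥ b0, ∀ K ⊆ {z : X × ℝ | ε ≤ dist (p z.1) (hh z.2)},
      ¬ Cross a b K := by
  by_contra hcon
  push Not at hcon
  have hstep : ∀ n : ℕ, ∃ K : Set (X × ℝ), Ctm K ∧
      (∀ z ∈ K, infDist (hh z.2) (range j) ≤ 1 / ((n : ℝ) + 1) ∧ ε ≤ dist (p z.1) (hh z.2)) ∧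
      ∀ m : M, ∃ z ∈ K, dist (hh z.2) (j m) ≤ 1 / ((n : ℝ) + 1) := by
    intro n
    obtain ⟨a0, ha0⟩ := hR.near (1 / ((n : ℝ) + 1)) (by positivity)
    obtain ⟨a, ha, hb⟩ := hcon a0
    obtain ⟨b0, hb0⟩ := hR.dense (1 / ((n : ℝ) + 1)) (by positivity) a
    obtain ⟨b, hbb, K, hK, hKc⟩ := hb b0
    obtain ⟨k1, k2, ⟨z0, hz0, hz0a⟩, ⟨z1, hz1, hz1b⟩⟩ := hKc
    refine ⟨K, k1, ?_, ?_⟩
    · intro z hz
      exact ⟨(ha0 z.2 (ha.le.trans (k2 z hz).1)).le, hK hz⟩
    · intro m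
      obtain ⟨s, hs1, hs2, hs3⟩ := hb0 m
      have hiv := k1.2.isPreconnected.intermediate_value hz0 hz1
        (f := fun z : X × ℝ => z.2) continuous_snd.continuousOn
      obtain ⟨z, hz, hzs⟩ := hiv (show s ∈ Icc z0.2 z1.2 from by
        rw [hz0a, hz1b]; exact ⟨hs1, hs2.trans hbb⟩)
      simp only at hzs
      exact ⟨z, hz, by rw [hzs]; exact hs3.le⟩
  choose K hK hK1 hK2 using hstep
  have hcont : Continuous (fun z : X × ℝ => (hh z.2, p z.1)) :=
    (hR.cont.comp continuous_snd).prodMk (hp.comp continuous_fst)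
  refine lim_contra hM hR.emb hε (fun n => (fun z : X × ℝ => (hh z.2, p z.1)) '' K n)
    (fun n => (hK n).image hcont.continuousOn) ?_ ?_ ?_ ?_
  · rintro n _ ⟨z, hz, rfl⟩
    show ε ≤ dist (hh z.2) (p z.1)
    rw [dist_comm]
    exact (hK1 n z hz).2
  · rintro n _ ⟨z, hz, rfl⟩
    exact (hK1 n z hz).1
  · rintro n _ ⟨z, hz, rfl⟩
    have : p z.1 ∈ range j := by rw [← hpr]; exact mem_range_self _
    show infDist (p z.1) (range j) ≤ _
    rw [infDist_zero_of_mem this]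
    positivity
  · intro n m
    obtain ⟨z, hz, hz'⟩ := hK2 n m
    exact ⟨_, ⟨z, hz, rfl⟩, hz'⟩

end AlphaBeta

end Pool.Agent.Helper739.CT
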