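import Mathlib

set_option autoImplicit false

namespace Pool.Agent.Helper739.CT

open Set Topology Filter Metric

theorem isCompact_union_ray {Z : Type*} [TopologicalSpace Z] {K : Set Z} (hK : IsCompact K)
    {g : ℝ → Z} (hg : Continuous g)
    (h : ∀ U : Set Z, IsOpen U → K ⊆ U → ∃ T : ℝ, ∀ t ≥ T, g t ∈ U) :
    IsCompact (K ∪ g '' Ici 0) := by
  classical
  apply isCompact_of_finite_subcover
  intro ι U hU hcov
  obtain ⟨t, ht⟩ := hK.elim_finite_subcover U hU (subset_union_left.trans hcov)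
  obtain ⟨T, hT⟩ := h (⋃ i ∈ t, U i) (isOpen_biUnion fun i _ => hU i) ht
  have h2 : IsCompact (g '' Icc 0 T) := isCompact_Icc.image hg
  obtain ⟨t', ht'⟩ := h2.elim_finite_subcover U hU (by
    refine Subset.trans ?_ hcov
    refine Subset.trans ?_ subset_union_right
    exact image_mono Icc_subset_Ici_self)
  refine ⟨t ∪ t', ?_⟩
  rw [Finset.set_biUnion_union]
  rintro z (hz | ⟨s, hs, rfl⟩)
  · exact Or.inl (ht hz)
  · by_cases hsT : T ≤ s
    · exact Or.inl (hT s hsT)
    · exact Or.inr (ht' ⟨s, ⟨hs, (not_le.1 hsT).le⟩, rfl⟩)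

theorem ray_compactification {X Z : Type} [MetricSpace X] [CompactSpace X] [MetricSpace Z]
    {i0 : X → Z} (hi0 : Continuous i0) (hinj : Function.Injective i0) {c : ℝ → Z} (hc : Continuous c)
    (h1 : ∀ ε > 0, ∃ T : ℝ, ∀ t ≥ T, ∃ x, dist (c t) (i0 x) < ε)
    (h2 : ∀ x, ∀ ε > 0, ∀ T : ℝ, ∃ t ≥ T, dist (c t) (i0 x) < ε) :
    ∃ (W : Type) (_ : MetricSpace W) (_ : CompactSpace W) (i : X → W),
      IsEmbedding i ∧ Dense (range i)ᶜ ∧ Nonempty (↥((range i)ᶜ) ≃ₜ ↥(Ici (0:ℝ))) ∧
      ∃ G : W → Z, Continuous G ∧ (∀ x, G (i x) = i0 x) ∧ ∀ t : ℝ, 0 ≤ t → ∃ w, G w = c t := by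
  set g : ℝ → Z × ℝ := fun t => (c t, 1 / (1 + |t|)) with hg
  have habs : ∀ t : ℝ, (0 : ℝ) < 1 + |t| := fun t => by positivity
  have hgc : Continuous g := by
    refine hc.prodMk ?_
    exact continuous_const.div (continuous_const.add continuous_abs) (fun t => (habs t).ne')
  set k : X → Z × ℝ := fun x => (i0 x, 0) with hk
  have hkc : Continuous k := hi0.prodMk continuous_const
  have hKc : IsCompact (range k) := isCompact_range hkc
  set S : Set (Z × ℝ) := range k ∪ g '' Ici 0 with hS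
  have hSc : IsCompact S := by
    apply isCompact_union_ray hKc hgc
    intro U hU hKU
    obtain ⟨δ, hδ, hδU⟩ := hKc.exists_thickening_subset_open hU hKU
    obtain ⟨T, hT⟩ := h1 δ hδ
    refine ⟨max T (1 / δ), ?_⟩
    intro t ht
    apply hδU
    rw [mem_thickening_iff]
    obtain ⟨x, hx⟩ := hT t ((le_max_left _ _).trans ht)
    refine ⟨k x, mem_range_self x, ?_⟩
    rw [Prod.dist_eq, max_lt_iff]
    refine ⟨hx, ?_⟩
    have ht' : 1 / δ ≤ t := (le_max_right _ _).trans ht
    have ht0 : 0 < t := lt_of_lt_of_le (by positivity) ht'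
    show dist (1 / (1 + |t|)) 0 < δ
    rw [Real.dist_eq, sub_zero, abs_of_pos (by positivity), abs_of_pos ht0, div_lt_iff₀ (by positivity)]
    rw [div_le_iff₀ hδ] at ht'
    nlinarith
  have : CompactSpace S := isCompact_iff_compactSpace.1 hSc
  set i : X → S := fun x => ⟨k x, Or.inl (mem_range_self x)⟩ with hi
  have hic : Continuous i := hkc.subtype_mk _
  have hiinj : Function.Injective i := by
    intro x y hxy
    apply hinj
    have h := congrArg (fun w : S => (w : Z × ℝ).1) hxy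
    exact h
  have hgS : ∀ t : ℝ, 0 ≤ t → g t ∈ S := fun t ht => Or.inr ⟨t, ht, rfl⟩
  have hnot : ∀ t (ht : 0 ≤ t), (⟨g t, hgS t ht⟩ : S) ∈ (range i)ᶜ := by
    rintro t ht ⟨x, hx⟩
    have h : (0 : ℝ) = 1 / (1 + |t|) := congrArg (fun w : S => (w : Z × ℝ).2) hx
    have := habs t
    have h3 : (0 : ℝ) < 1 / (1 + |t|) := by positivity
    linarith
  have hform : ∀ w : ↥((range i)ᶜ), ∃ t, 0 ≤ t ∧ ((w : S) : Z × ℝ) = g t := by
    rintro ⟨⟨w, hw⟩, hw'⟩
    rcases hw with ⟨x, hx⟩ | ⟨t, ht, hx⟩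
    · exact absurd ⟨x, Subtype.ext hx⟩ hw'
    · exact ⟨t, ht, hx.symm⟩
  have hsnd : ∀ t : ℝ, 0 ≤ t → 1 / (g t).2 - 1 = t := by
    intro t ht
    simp only [hg]
    rw [one_div_one_div, abs_of_nonneg ht]; ring
  refine ⟨S, inferInstance, inferInstance, i, (hic.isClosedEmbedding hiinj).isEmbedding, ?_, ⟨?_⟩,
    fun w => (w : Z × ℝ).1, continuous_fst.comp continuous_subtype_val, fun x => rfl, ?_⟩
  · -- density
    intro w
    by_cases hw : w ∈ (range i)ᶜ
    · exact subset_closure hw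
    · rw [mem_compl_iff, not_not] at hw
      obtain ⟨x, rfl⟩ := hw
      rw [Metric.mem_closure_iff]
      intro ε hε
      obtain ⟨t, ht, hxt⟩ := h2 x ε hε (max 0 (1 / ε))
      have ht0 : 0 ≤ t := (le_max_left _ _).trans ht
      have ht' : 1 / ε ≤ t := (le_max_right _ _).trans ht
      refine ⟨⟨g t, hgS t ht0⟩, hnot t ht0, ?_⟩
      rw [Subtype.dist_eq, Prod.dist_eq, max_lt_iff]
      refine ⟨by rw [dist_comm]; exact hxt, ?_⟩
      show dist 0 (1 / (1 + |t|)) < ε
      rw [dist_comm, Real.dist_eq, sub_zero, abs_of_pos (by positivity), abs_of_nonneg ht0,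
        div_lt_iff₀ (by positivity)]
      rw [div_le_iff₀ hε] at ht'
      nlinarith
  · -- homeomorphism
    refine
      { toFun := fun w => ⟨1 / ((w : S) : Z × ℝ).2 - 1, ?_⟩
        invFun := fun t => ⟨⟨g t, hgS t t.2⟩, hnot t t.2⟩
        left_inv := ?_
        right_inv := ?_
        continuous_toFun := ?_
        continuous_invFun := ?_ }
    · obtain ⟨t, ht, hw⟩ := hform w
      rw [hw, mem_Ici, hsnd t ht]
      exact ht
    · intro w
      obtain ⟨t, ht, hw⟩ := hform w
      apply Subtype.ext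
      apply Subtype.ext
      show g (1 / ((w : S) : Z × ℝ).2 - 1) = ((w : S) : Z × ℝ)
      rw [hw, hsnd t ht]
    · intro t
      apply Subtype.ext
      exact hsnd t t.2
    · apply Continuous.subtype_mk
      apply Continuous.sub _ continuous_const
      apply continuous_const.div (continuous_snd.comp (continuous_subtype_val.comp continuous_subtype_val))
      intro w
      obtain ⟨t, ht, hw⟩ := hform w
      show ((w : S) : Z × ℝ).2 ≠ 0
      rw [hw]
      have := habs t
      show 1 / (1 + |t|) ≠ 0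
      positivity
    · apply Continuous.subtype_mk
      apply Continuous.subtype_mk
      exact hgc.comp continuous_subtype_val
  · intro t ht
    exact ⟨⟨g t, hgS t ht⟩, rfl⟩

end Pool.Agent.Helper739.CT
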