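import Pool.Agent.Helper739.CTChain
import Pool.Agent.Helper739.CTRay

set_option autoImplicit false

namespace Pool.Agent.Helper739.CT

open Set Topology Filter Metric

theorem path_through {E : Type*} [TopologicalSpace E] {O : Set E} (hO : IsPathConnected O)
    {F : Set E} (hFf : F.Finite) : F ⊆ O → ∀ {u v : E}, u ∈ O → v ∈ O →
    ∃ γ : Path u v, range γ ⊆ O ∧ F ⊆ range γ := by
  classical
  induction F, hFf using Set.Finite.induction_on with
  | empty =>
    intro _ u v hu hv
    obtain ⟨γ, hγ⟩ := hO.joinedIn u hu v hv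
    exact ⟨γ, by rintro _ ⟨t, rfl⟩; exact hγ t, by simp⟩
  | @insert c F' hc hF ih =>
    intro hF' u v hu hv
    have hcO : c ∈ O := hF' (mem_insert _ _)
    have hF'' : F' ⊆ O := fun x hx => hF' (mem_insert_of_mem _ hx)
    obtain ⟨γ1, h1, h2⟩ := ih hF'' hu hcO
    obtain ⟨γ2, h3⟩ := hO.joinedIn c hcO v hv
    refine ⟨γ1.trans γ2, ?_, ?_⟩
    · rw [Path.trans_range]
      apply union_subset h1
      rintro _ ⟨t, rfl⟩; exact h3 t
    · rw [Path.trans_range]
      intro x hx
      rcases mem_insert_iff.1 hx with rfl | hx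
      · right
        exact ⟨0, γ2.source⟩
      · left
        exact h2 hx

theorem glue {E : Type*} [NormedAddCommGroup E] [NormedSpace ℝ E] (v : ℕ → E)
    (γ : ∀ n, Path (v n) (v (n + 1))) :
    ∃ r : ℝ → E, Continuous r ∧ ∀ n : ℕ, ∀ s : ℝ, 0 ≤ s → s ≤ 1 → r (n + s) = (γ n).extend s := by
  set R : ℕ → ℝ → E := fun T t =>
    v 0 + ∑ n ∈ Finset.range T, ((γ n).extend (t - n) - v n) with hR
  have hRc : ∀ T, Continuous (R T) := by
    intro T
    apply continuous_const.add
    apply continuous_finsetSum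
    intro n _
    exact ((γ n).extend.continuous.comp (continuous_id.sub continuous_const)).sub continuous_const
  have hRe : ∀ (T : ℕ) (t : ℝ), t ≤ T → R T t = R ⌈t⌉₊ t := by
    intro T t ht
    have hle : ⌈t⌉₊ ≤ T := Nat.ceil_le.2 ht
    simp only [hR]
    congr 1
    symm
    apply Finset.sum_subset (Finset.range_subset_range.2 hle)
    intro n _ hn
    rw [Finset.mem_range, not_lt] at hn
    have : t ≤ n := (Nat.le_ceil t).trans (by exact_mod_cast hn)
    rw [Path.extend_of_le_zero _ (by linarith), sub_self]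
  refine ⟨fun t => R ⌈t⌉₊ t, ?_, ?_⟩
  · rw [continuous_iff_continuousAt]
    intro t0
    obtain ⟨T, hT⟩ := exists_nat_gt t0
    apply (hRc T).continuousAt.congr
    filter_upwards [Iio_mem_nhds hT] with t ht
    exact hRe T t (le_of_lt ht)
  · intro n s hs0 hs1
    show R ⌈(n : ℝ) + s⌉₊ (n + s) = _
    rw [← hRe (n + 1) (n + s) (by push_cast; linarith)]
    simp only [hR]
    rw [Finset.sum_range_succ]
    have e1 : ∀ k ∈ Finset.range n, (γ k).extend ((n : ℝ) + s - k) - v k = v (k + 1) - v k := by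
      intro k hk
      rw [Finset.mem_range] at hk
      have : (k : ℝ) + 1 ≤ n := by exact_mod_cast hk
      rw [Path.extend_of_one_le _ (by linarith)]
    rw [Finset.sum_congr rfl e1, Finset.sum_range_sub]
    have e2 : (n : ℝ) + s - n = s := by ring
    rw [e2]
    abel

section Main

variable {X Y : Type} [MetricSpace X] [CompactSpace X] [ConnectedSpace X] [MetricSpace Y]

/-- extension from a chain of continua -/
theorem extension {p : X → Y} (hp : Continuous p) {hh : ℝ → Y} (hh' : Continuous hh)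
    {H : ℕ → Set (X × ℝ)} (hHc : ∀ n, Ctm (H n))
    (hHq : ∀ n : ℕ, ∀ z ∈ H n, dist (p z.1) (hh z.2) ≤ 1 / ((n : ℝ) + 1) ∧ (n : ℝ) ≤ z.2)
    (hHf : ∀ n, Prod.fst '' (H n) = univ) (hHm : ∀ n, (H n ∩ H (n + 1)).Nonempty) :
    ∃ (W : Type) (_ : MetricSpace W) (_ : CompactSpace W) (i : X → W),
      IsEmbedding i ∧ Dense (range i)ᶜ ∧ Nonempty (↥((range i)ᶜ) ≃ₜ ↥(Ici (0:ℝ))) ∧
      ∃ F : W → Y, Continuous F ∧ (∀ x, F (i x) = p x) ∧ ∀ s : ℝ, 0 ≤ s → ∃ w, F w = hh s := by
  classical
  let E : Type := lp (fun _ : ℕ => ℝ) ⊤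
  let ι : X → E := kuratowskiEmbedding X
  have hι : Isometry ι := kuratowskiEmbedding.isometry X
  have hιc : Continuous ι := hι.continuous
  set κ : X × ℝ → E × ℝ := fun z => (ι z.1, z.2) with hκ
  have hκc : Continuous κ := (hιc.comp continuous_fst).prodMk continuous_snd
  set V : ℕ → Set (E × ℝ) := fun n => {w | ∃ x, dist w.1 (ι x) < 1 / ((n : ℝ) + 1) ∧
    dist (hh w.2) (p x) < 2 / ((n : ℝ) + 1) ∧ (n : ℝ) - 1 < w.2} with hV
  have hVo : ∀ n, IsOpen (V n) := by
    intro n
    have : V n = ⋃ x, {w : E × ℝ | dist w.1 (ι x) < 1 / ((n : ℝ) + 1) ∧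
      dist (hh w.2) (p x) < 2 / ((n : ℝ) + 1) ∧ (n : ℝ) - 1 < w.2} := by
      ext w; simp only [hV, mem_iUnion]; rfl
    rw [this]
    apply isOpen_iUnion
    intro x
    apply IsOpen.inter
    · exact isOpen_lt (continuous_fst.dist continuous_const) continuous_const
    · apply IsOpen.inter
      · exact isOpen_lt ((hh'.comp continuous_snd).dist continuous_const) continuous_const
      · exact isOpen_lt continuous_const continuous_snd
  have hHV : ∀ n, κ '' H n ⊆ V n := by
    rintro n _ ⟨z, hz, rfl⟩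
    obtain ⟨h1, h2⟩ := hHq n z hz
    have hpos : (0 : ℝ) < 1 / ((n : ℝ) + 1) := by positivity
    refine ⟨z.1, ?_, ?_, ?_⟩
    · simp only [hκ, dist_self]; exact hpos
    · show dist (hh z.2) (p z.1) < 2 / ((n : ℝ) + 1)
      rw [dist_comm]
      have : 2 / ((n : ℝ) + 1) = 1 / ((n : ℝ) + 1) + 1 / ((n : ℝ) + 1) := by ring
      linarith
    · show (n : ℝ) - 1 < z.2
      linarith
  have hκH : ∀ n, Ctm (κ '' H n) := fun n => (hHc n).image hκc.continuousOn
  -- path connected neighbourhoods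
  have hO : ∀ n : ℕ, ∃ O : Set (E × ℝ), IsPathConnected O ∧ κ '' H n ⊆ O ∧ (1 ≤ n → O ⊆ V n) ∧
      (n = 0 → O = univ) := by
    intro n
    by_cases hn : n = 0
    · refine ⟨univ, isPathConnected_univ, subset_univ _, ?_, fun _ => rfl⟩
      intro h; omega
    · obtain ⟨w, hw⟩ := (hκH n).2.nonempty
      have hsub : κ '' H n ⊆ connectedComponentIn (V n) w :=
        (hκH n).2.isPreconnected.subset_connectedComponentIn hw (hHV n)
      have hopen : IsOpen (connectedComponentIn (V n) w) := (hVo n).connectedComponentIn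
      have hconn : IsConnected (connectedComponentIn (V n) w) :=
        isConnected_connectedComponentIn_iff.2 (hHV n hw)
      refine ⟨connectedComponentIn (V n) w, hopen.isConnected_iff_isPathConnected.1 hconn, hsub,
        fun _ => connectedComponentIn_subset _ _, fun h => absurd h hn⟩
  choose O hOp hOH hOV hO0 using hO
  -- nodes
  choose nd hnd using hHm
  obtain ⟨x0⟩ : Nonempty X := inferInstance
  set v : ℕ → E × ℝ := fun n => Nat.casesOn n (ι x0, 0) (fun n => κ (nd n)) with hv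
  have hv0 : v 0 = (ι x0, 0) := rfl
  have hvs : ∀ n, v (n + 1) = κ (nd n) := fun n => rfl
  have hvO : ∀ n, v n ∈ O n := by
    intro n
    cases n with
    | zero => rw [hO0 0 rfl]; exact mem_univ _
    | succ n => rw [hvs]; exact hOH (n + 1) ⟨nd n, (hnd n).2, rfl⟩
  have hvO' : ∀ n, v (n + 1) ∈ O n := by
    intro n
    rw [hvs]; exact hOH n ⟨nd n, (hnd n).1, rfl⟩
  -- nets
  have hpos : ∀ n : ℕ, (0 : ℝ) < 1 / ((n : ℝ) + 1) := fun n => by positivity
  choose t hts htf htc using fun n : ℕ => finite_cover_balls_of_compact (hHc n).1 (hpos n)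
  choose γ hγO hγF using fun n : ℕ => path_through (hOp n) ((htf n).image κ)
    ((image_mono (hts n)).trans (hOH n)) (hvO n) (hvO' n)
  obtain ⟨r, hr, hrγ⟩ := glue v γ
  have hrO : ∀ n : ℕ, ∀ s : ℝ, 0 ≤ s → s ≤ 1 → r (n + s) ∈ O n := by
    intro n s h0 h1
    rw [hrγ n s h0 h1, Path.extend_apply _ ⟨h0, h1⟩]
    exact hγO n (mem_range_self _)
  have hrV : ∀ (N : ℕ) (s : ℝ), 1 ≤ N → (N : ℝ) ≤ s → ∃ n : ℕ, N ≤ n ∧ r s ∈ V n := by
    intro N s hN hs
    have hs0 : 0 ≤ s := (Nat.cast_nonneg N).trans hs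
    refine ⟨⌊s⌋₊, Nat.le_floor hs, ?_⟩
    have h1 : ((⌊s⌋₊ : ℕ) : ℝ) ≤ s := Nat.floor_le hs0
    have h2 : s < (⌊s⌋₊ : ℕ) + 1 := Nat.lt_floor_add_one s
    have h3 := hrO ⌊s⌋₊ (s - ⌊s⌋₊) (by linarith) (by linarith)
    rw [add_sub_cancel] at h3
    exact hOV _ (hN.trans (Nat.le_floor hs)) h3
  have hr0 : r 0 = (ι x0, 0) := by
    have := hrγ 0 0 le_rfl zero_le_one
    rw [Nat.cast_zero, add_zero, Path.extend_zero] at this
    rw [this, hv0]
  have hdiv : ∀ (N n : ℕ), N ≤ n → 2 / ((n : ℝ) + 1) ≤ 2 / ((N : ℝ) + 1) := by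
    intro N n h
    apply div_le_div_of_nonneg_left (by norm_num) (by positivity)
    have : (N : ℝ) ≤ n := by exact_mod_cast h
    linarith
  -- apply the ray compactification lemma
  obtain ⟨W, iM, iC, i, hi, hid, hih, G, hG, hGi, hGc⟩ := ray_compactification (X := X) (Z := E × Y)
    (i0 := fun x => (ι x, p x)) (hιc.prodMk hp) (fun x y hxy => hι.injective (congrArg Prod.fst hxy))
    (c := fun t => ((r t).1, hh (r t).2))
    ((continuous_fst.comp hr).prodMk (hh'.comp (continuous_snd.comp hr))) (by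
      intro ε hε
      obtain ⟨N, hN⟩ := exists_nat_gt (2 / ε)
      refine ⟨((N + 1 : ℕ) : ℝ), ?_⟩
      intro s hs
      obtain ⟨n, hn, x, hx1, hx2, -⟩ := hrV (N + 1) s (by omega) hs
      refine ⟨x, ?_⟩
      have hsmall : 2 / ((n : ℝ) + 1) < ε := by
        have h1 := hdiv N n (by omega)
        have h2 : 2 / ((N : ℝ) + 1) < ε := by
          rw [div_lt_iff₀ (by positivity)]
          rw [div_lt_iff₀ hε] at hN
          nlinarith
        linarith
      rw [Prod.dist_eq, max_lt_iff]
      constructor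
      · refine lt_trans hx1 (lt_of_le_of_lt ?_ hsmall)
        apply div_le_div_of_nonneg_right (by norm_num) (by positivity)
      · exact hx2.trans hsmall) (by
      intro x ε hε T
      obtain ⟨δ, hδ, hδp⟩ := Metric.continuousAt_iff.1 (hp.continuousAt (x := x)) (ε / 2) (by positivity)
      obtain ⟨N, hN⟩ := exists_nat_gt (max (max T 1) (max (1 / δ) (2 / ε)))
      have hNT : T < N := lt_of_le_of_lt ((le_max_left _ _).trans (le_max_left _ _)) hN
      have hNδ : 1 / δ < N := lt_of_le_of_lt ((le_max_left _ _).trans (le_max_right _ _)) hN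
      have hNε : 2 / ε < N := lt_of_le_of_lt ((le_max_right _ _).trans (le_max_right _ _)) hN
      have h1δ : 1 / ((N : ℝ) + 1) < δ := by
        rw [div_lt_iff₀ (by positivity)]
        rw [div_lt_iff₀ hδ] at hNδ
        nlinarith
      have h1ε : 1 / ((N : ℝ) + 1) < ε / 2 := by
        rw [div_lt_iff₀ (by positivity)]
        rw [div_lt_iff₀ hε] at hNε
        nlinarith
      have hx : x ∈ Prod.fst '' H N := by rw [hHf N]; exact mem_univ x
      obtain ⟨z', hz', hz'x⟩ := hx
      have hz'c := htc N hz'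
      rw [mem_iUnion₂] at hz'c
      obtain ⟨z, hzt, hzb⟩ := hz'c
      rw [mem_ball, Prod.dist_eq, max_lt_iff, hz'x] at hzb
      obtain ⟨s, hs⟩ := hγF N ⟨z, hzt, rfl⟩
      refine ⟨N + s, ?_, ?_⟩
      · have : (0 : ℝ) ≤ s := s.2.1
        linarith
      · have hrs : r (N + s) = κ z := by
          rw [hrγ N s s.2.1 s.2.2, Path.extend_apply _ s.2]
          exact hs
        simp only [hrs, hκ]
        rw [Prod.dist_eq, max_lt_iff]
        constructor
        · show dist (ι z.1) (ι x) < ε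
          rw [hι.dist_eq, dist_comm]
          linarith [hzb.1]
        · show dist (hh z.2) (p x) < ε
          have e1 := (hHq N z (hts N hzt)).1
          have e2 : dist (p z.1) (p x) < ε / 2 := hδp (by rw [dist_comm]; linarith [hzb.1])
          calc dist (hh z.2) (p x) ≤ dist (hh z.2) (p z.1) + dist (p z.1) (p x) := dist_triangle _ _ _
            _ < ε := by rw [dist_comm (hh z.2)]; linarith)
  refine ⟨W, iM, iC, i, hi, hid, hih, fun w => (G w).2, continuous_snd.comp hG, ?_, ?_⟩
  · intro x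
    show (G (i x)).2 = p x
    rw [hGi]
  · intro s hs
    obtain ⟨N, hN⟩ := exists_nat_gt (s + 1)
    have hN1 : 1 ≤ N := by
      rcases Nat.eq_zero_or_pos N with h | h
      · subst h; simp at hN; linarith
      · exact h
    have hNV : (s : ℝ) ≤ (r N).2 := by
      obtain ⟨n, hn, x, -, -, hx⟩ := hrV N N hN1 le_rfl
      have : (N : ℝ) ≤ n := by exact_mod_cast hn
      linarith
    have hcont : ContinuousOn (fun t => (r t).2) (Icc 0 (N : ℝ)) :=
      (continuous_snd.comp hr).continuousOn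
    have hiv := intermediate_value_Icc (Nat.cast_nonneg N) hcont
    have h0 : (fun t => (r t).2) 0 = 0 := by simp only [hr0]
    have hmem : s ∈ Icc ((fun t => (r t).2) 0) ((fun t => (r t).2) N) := by
      rw [h0]; exact ⟨hs, hNV⟩
    obtain ⟨t, ht, hts⟩ := hiv hmem
    obtain ⟨w, hw⟩ := hGc t ht.1
    refine ⟨w, ?_⟩
    show (G w).2 = hh s
    rw [hw]
    show hh (r t).2 = hh s
    exact congrArg hh hts

end Main

end Pool.Agent.Helper739.CT
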