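import Pool.Agent.Helper739.CTPair

set_option autoImplicit false

namespace Pool.Agent.Helper739.CT

open Set Topology

section

variable {M : Type*} [TopologicalSpace M] [CompactSpace M] [T2Space M]

theorem exists_open_closure_disjoint {X : Type*} [TopologicalSpace X] [RegularSpace X] {C : Set X}
    (hC : IsClosed C) {x : X} (hx : x ∉ C) :
    ∃ O : Set X, IsOpen O ∧ x ∈ O ∧ Disjoint (closure O) C := by
  obtain ⟨t, ht, htc, hts⟩ := exists_mem_nhds_isClosed_subset (hC.isOpen_compl.mem_nhds hx)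
  refine ⟨interior t, isOpen_interior, mem_interior_iff_mem_nhds.2 ht, ?_⟩
  rw [disjoint_left]
  intro y hy
  exact hts (closure_minimal interior_subset htc hy)

/-- the final contradiction of the semispan theorem, given the two pieces -/
theorem semispan_aux (hM : SpanZero M) {Z : Set (M × M)} (hZ : Ctm Z) {P Qa Qb : Set M}
    (hP : Ctm P) (hQa : Ctm Qa) (hQb : Ctm Qb) (hPN : P ⊆ Prod.fst '' Z)
    (hQaN : Qa ⊆ Prod.fst '' Z) (hQbN : Qb ⊆ Prod.fst '' Z)
    (ha : ¬ Qa ⊆ P) (hb : ¬ Qb ⊆ P) (hPa : ¬ P ⊆ Qa) (hPb : ¬ P ⊆ Qb) (hcov : P ⊆ Qa ∪ Qb)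
    (hmin : ∀ K ⊆ Z, Ctm K → P ⊆ Prod.fst '' K → K = Z) : False := by
  -- e_a and e_b nonempty and meeting
  have hea : (P ∩ Qa).Nonempty := by
    by_contra h
    rw [not_nonempty_iff_eq_empty, eq_empty_iff_forall_notMem] at h
    apply hPb
    intro x hx
    rcases hcov hx with h' | h'
    · exact absurd ⟨hx, h'⟩ (h x)
    · exact h'
  have heb : (P ∩ Qb).Nonempty := by
    by_contra h
    rw [not_nonempty_iff_eq_empty, eq_empty_iff_forall_notMem] at h
    apply hPa
    intro x hx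
    rcases hcov hx with h' | h'
    · exact h'
    · exact absurd ⟨hx, h'⟩ (h x)
  have hPpc := hP.2.isPreconnected
  rw [isPreconnected_closed_iff] at hPpc
  obtain ⟨o, hoP, hoa, hob⟩ := hPpc Qa Qb hQa.1.isClosed hQb.1.isClosed hcov hea heb
  have hcea : Ctm (P ∩ Qa) := ctm_inter hM hP hQa hea
  have hceb : Ctm (P ∩ Qb) := ctm_inter hM hP hQb heb
  have hcab : Ctm (Qa ∩ Qb) := ctm_inter hM hQa hQb ⟨o, hoa, hob⟩
  have hab : Qa ∩ Qb ⊆ P := by
    rcases atriodic hM hcea hceb hcab ⟨o, ⟨⟨hoP, hoa⟩, hoP, hob⟩, hoa, hob⟩ with h | h | h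
    · exfalso
      apply hPb
      intro x hx
      rcases hcov hx with h' | h'
      · rcases h ⟨hx, h'⟩ with h'' | h''
        · exact h''.2
        · exact h''.2
      · exact h'
    · exfalso
      apply hPa
      intro x hx
      rcases hcov hx with h' | h'
      · exact h'
      · rcases h ⟨hx, h'⟩ with h'' | h''
        · exact h''.2
        · exact h''.1
    · intro x hx
      rcases h hx with h' | h'
      · exact h'.1
      · exact h'.1
  obtain ⟨l, hla, hlP⟩ := not_subset.1 ha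
  obtain ⟨r, hrb, hrP⟩ := not_subset.1 hb
  have hlb : l ∉ Qb := fun h => hlP (hab ⟨hla, h⟩)
  have hra : r ∉ Qa := fun h => hrP (hab ⟨h, hrb⟩)
  obtain ⟨Op, hOp, hlOp, hOpd⟩ := exists_open_closure_disjoint
    (hP.1.isClosed.union hQb.1.isClosed) (x := l) (by rintro (h | h); exacts [hlP h, hlb h])
  obtain ⟨Oq, hOq, hrOq, hOqd⟩ := exists_open_closure_disjoint
    ((hP.1.isClosed.union hQa.1.isClosed).union (isClosed_closure (s := Op))) (x := r) (by
      rintro ((h | h) | h)
      · exact hrP h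
      · exact hra h
      · exact disjoint_left.1 hOpd h (Or.inr hrb))
  have hlr : Disjoint (closure Op) (closure Oq) := by
    rw [disjoint_left]
    intro x hx hx'
    exact disjoint_left.1 hOqd hx' (Or.inr hx)
  have hOpP : ∀ x ∈ P, x ∉ Op := fun x hx h => disjoint_left.1 hOpd (subset_closure h) (Or.inl hx)
  have hOqP : ∀ x ∈ P, x ∉ Oq := fun x hx h =>
    disjoint_left.1 hOqd (subset_closure h) (Or.inl (Or.inl hx))
  have hOpb : ∀ x ∈ Qb, x ∉ closure Op := fun x hx h => disjoint_left.1 hOpd h (Or.inr hx)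
  have hOqa : ∀ x ∈ Qa, x ∉ closure Oq := fun x hx h =>
    disjoint_left.1 hOqd h (Or.inl (Or.inr hx))
  set U : Set M := Prod.fst '' Z \ (Op ∪ Oq) with hU
  have hPU : P ⊆ U := by
    intro x hx
    refine ⟨hPN hx, ?_⟩
    rintro (h | h)
    · exact hOpP x hx h
    · exact hOqP x hx h
  have hoU : o ∈ U := hPU hoP
  set C : Set M := connectedComponentIn U o with hC
  have hNc : Ctm (Prod.fst '' Z) := hZ.image continuous_fst.continuousOn
  have hUc : IsCompact U := hNc.1.diff (hOp.union hOq)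
  have hCc : Ctm C := ctm_component hUc hoU
  have hCU : C ⊆ U := connectedComponentIn_subset U o
  have hPC : P ⊆ C := hP.2.isPreconnected.subset_connectedComponentIn hoP hPU
  have hPa' : Ctm (P ∪ Qa) := ctm_union hP hQa hea
  have hPb' : Ctm (P ∪ Qb) := ctm_union hP hQb heb
  have hCab : C ⊆ Qa ∪ Qb := by
    rcases atriodic hM hCc hPa' hPb' ⟨o, ⟨hPC hoP, Or.inl hoP⟩, Or.inl hoP⟩ with h | h | h
    · intro x hx
      rcases h hx with (h' | h') | (h' | h')
      · exact hcov h'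
      · exact Or.inl h'
      · exact hcov h'
      · exact Or.inr h'
    · exfalso
      rcases h (Or.inr hla) with h' | (h' | h')
      · exact (hCU h').2 (Or.inl hlOp)
      · exact hlP h'
      · exact hlb h'
    · exfalso
      rcases h (Or.inr hrb) with h' | (h' | h')
      · exact (hCU h').2 (Or.inr hrOq)
      · exact hrP h'
      · exact hra h'
  -- y_l and y_r
  obtain ⟨yl, hyl, hyl'⟩ := bump hQa hOp ⟨l, hla, hlOp⟩ hoa (hOpP o hoP)
  obtain ⟨yr, hyr, hyr'⟩ := bump hQb hOq ⟨r, hrb, hrOq⟩ hob (hOqP o hoP)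
  have hylC : yl ∈ C := by
    have hsub : connectedComponentIn (Qa \ Op) o ⊆ U := by
      intro x hx
      have hx' := connectedComponentIn_subset _ _ hx
      refine ⟨hQaN hx'.1, ?_⟩
      rintro (h | h)
      · exact hx'.2 h
      · exact hOqa x hx'.1 (subset_closure h)
    have ho' : o ∈ Qa \ Op := ⟨hoa, hOpP o hoP⟩
    exact isPreconnected_connectedComponentIn.subset_connectedComponentIn
      (mem_connectedComponentIn ho') hsub hyl
  have hyrC : yr ∈ C := by
    have hsub : connectedComponentIn (Qb \ Oq) o ⊆ U := by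
      intro x hx
      have hx' := connectedComponentIn_subset _ _ hx
      refine ⟨hQbN hx'.1, ?_⟩
      rintro (h | h)
      · exact hOpb x hx'.1 (subset_closure h)
      · exact hx'.2 h
    have ho' : o ∈ Qb \ Oq := ⟨hob, hOqP o hoP⟩
    exact isPreconnected_connectedComponentIn.subset_connectedComponentIn
      (mem_connectedComponentIn ho') hsub hyr
  obtain ⟨K, hKZ, hK, hKC, ⟨rl, hrl, hrl'⟩, ⟨rr, hrr, hrr'⟩⟩ :=
    crossing hM hZ hOp hOq hlr hoU hylC hyl' hyrC hyr'
  set R : Set M := Prod.fst '' K with hR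
  have hRc : Ctm R := hK.image continuous_fst.continuousOn
  have hRab : R ⊆ Qa ∪ Qb := hKC.trans hCab
  have hrlP : rl ∉ P := fun h => disjoint_left.1 hOpd hrl' (Or.inl h)
  have hrlb : rl ∉ Qb := fun h => hOpb rl h hrl'
  have hrla : rl ∈ Qa := (hRab hrl).resolve_right hrlb
  have hrrP : rr ∉ P := fun h => disjoint_left.1 hOqd hrr' (Or.inl (Or.inl h))
  have hrra : rr ∉ Qa := fun h => hOqa rr h hrr'
  have hrrb : rr ∈ Qb := (hRab hrr).resolve_left hrra
  have hRpc := hRc.2.isPreconnected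
  rw [isPreconnected_closed_iff] at hRpc
  obtain ⟨x, hxR, hxa, hxb⟩ := hRpc Qa Qb hQa.1.isClosed hQb.1.isClosed hRab
    ⟨rl, hrl, hrla⟩ ⟨rr, hrr, hrrb⟩
  have hxP : x ∈ P := hab ⟨hxa, hxb⟩
  have hRa : Ctm (R ∩ Qa) := ctm_inter hM hRc hQa ⟨rl, hrl, hrla⟩
  have hRb : Ctm (R ∩ Qb) := ctm_inter hM hRc hQb ⟨rr, hrr, hrrb⟩
  have hPR : P ⊆ R := by
    rcases atriodic hM hP hRa hRb ⟨x, ⟨hxP, hxR, hxa⟩, hxR, hxb⟩ with h | h | h
    · intro y hy
      rcases h hy with h' | h'
      · exact h'.1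
      · exact h'.1
    · exfalso
      rcases h ⟨hrl, hrla⟩ with h' | h'
      · exact hrlP h'
      · exact hrlb h'.2
    · exfalso
      rcases h ⟨hrr, hrrb⟩ with h' | h'
      · exact hrrP h'
      · exact hrra h'.2
  have hKZe := hmin K hKZ hK hPR
  have hlN : l ∈ Prod.fst '' Z := hQaN hla
  rw [← hKZe] at hlN
  exact (hCU (hKC hlN)).2 (Or.inl hlOp)

/-- semispan theorem -/
theorem semispan (hM : SpanZero M) {Z : Set (M × M)} (hZ : Ctm Z)
    (h : Prod.snd '' Z ⊆ Prod.fst '' Z) : ∃ p ∈ Z, p.1 = p.2 := by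
  by_contra hcon
  push Not at hcon
  obtain ⟨Y, hY, hYs, hYd, hYmin⟩ := exists_minimal_semi hZ h hcon
  clear hcon h hZ Z
  set P : Set M := Prod.snd '' Y with hP
  have hPc : Ctm P := hY.image continuous_snd.continuousOn
  have hmin : ∀ K ⊆ Y, Ctm K → P ⊆ Prod.fst '' K → K = Y := by
    intro K hK hKc hKP
    exact hYmin K hK hKc ((image_mono hK).trans hKP)
  have hne : ¬ Prod.fst '' Y ⊆ P := by
    intro hsub
    obtain ⟨p, hp, hp'⟩ := hM Y hY.1 hY.2 (Subset.antisymm hsub hYs)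
    exact hYd p hp hp'
  obtain ⟨n0, ⟨zn, hzn, hzn'⟩, hn0P⟩ := not_subset.1 hne
  obtain ⟨O, hO, hn0O, hOP⟩ := exists_open_closure_disjoint hPc.1.isClosed hn0P
  have hOo : IsOpen (Prod.fst ⁻¹' O : Set (M × M)) := hO.preimage continuous_fst
  set Φ : Set (M × M) := Y \ (Prod.fst ⁻¹' O) with hΦdef
  have hΦ : IsCompact Φ := hY.1.diff hOo
  have hPΦ : P ⊆ Prod.fst '' Φ := by
    intro y hy
    obtain ⟨z, hz, rfl⟩ := hYs hy
    refine ⟨z, ⟨hz, ?_⟩, rfl⟩
    intro hzO
    exact disjoint_left.1 hOP (subset_closure hzO) hy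
  have hcl : closure (Prod.fst ⁻¹' O : Set (M × M)) ⊆ Prod.fst ⁻¹' (closure O) :=
    closure_minimal (preimage_mono subset_closure) (isClosed_closure.preimage continuous_fst)
  have h1 : ∀ z ∈ Φ, ¬ Prod.fst '' (connectedComponentIn Φ z) ⊆ P := by
    intro z hz hsub
    obtain ⟨w, hw, hwO⟩ := bump hY hOo ⟨zn, hzn, by rw [mem_preimage, hzn']; exact hn0O⟩ hz.1 hz.2
    exact disjoint_left.1 hOP (hcl hwO) (hsub ⟨w, hw, rfl⟩)
  have h2 : ∀ z ∈ Φ, ¬ P ⊆ Prod.fst '' (connectedComponentIn Φ z) := by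
    intro z hz hsub
    have hsubY : connectedComponentIn Φ z ⊆ Y :=
      (connectedComponentIn_subset Φ z).trans sdiff_subset
    have := hmin _ hsubY (ctm_component hΦ hz) hsub
    have hzn2 : zn ∈ connectedComponentIn Φ z := by rw [this]; exact hzn
    exact (connectedComponentIn_subset Φ z hzn2).2 (by rw [mem_preimage, hzn']; exact hn0O)
  obtain ⟨a, ha, b, hb, hab⟩ := exists_pair hM hΦ hPc hPΦ h1 h2
  refine semispan_aux hM hY hPc ((ctm_component hΦ ha).image continuous_fst.continuousOn)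
    ((ctm_component hΦ hb).image continuous_fst.continuousOn) hYs ?_ ?_ (h1 a ha) (h1 b hb)
    (h2 a ha) (h2 b hb) hab hmin
  · exact image_mono ((connectedComponentIn_subset Φ a).trans sdiff_subset)
  · exact image_mono ((connectedComponentIn_subset Φ b).trans sdiff_subset)

end

end Pool.Agent.Helper739.CT
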