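import Pool.Agent.Helper739.CTDeg

set_option autoImplicit false

namespace Pool.Agent.Helper739.CT

open Set Topology

section Slab

variable {X : Type*} [TopologicalSpace X]

/-- K is a continuum joining level a to level b inside the slab -/
def Cross (a b : ℝ) (K : Set (X × ℝ)) : Prop :=
  Ctm K ∧ (∀ z ∈ K, a ≤ z.2 ∧ z.2 ≤ b) ∧ (∃ z ∈ K, z.2 = a) ∧ (∃ z ∈ K, z.2 = b)

/-- the inclusion of the slab -/
def incl (a b : ℝ) : X × Icc a b → X × ℝ := fun z => (z.1, (z.2 : ℝ))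

theorem continuous_incl (a b : ℝ) : Continuous (incl (X := X) a b) :=
  continuous_fst.prodMk (continuous_subtype_val.comp continuous_snd)

theorem isInducing_incl (a b : ℝ) : IsInducing (incl (X := X) a b) :=
  IsInducing.prodMap IsInducing.id IsInducing.subtypeVal

theorem ctm_incl_preimage {a b : ℝ} {K : Set (X × ℝ)} (hK : IsConnected K)
    (hs : ∀ z ∈ K, a ≤ z.2 ∧ z.2 ≤ b) : IsPreconnected (incl a b ⁻¹' K) := by
  rw [← (isInducing_incl a b).isPreconnected_image]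
  rw [image_preimage_eq_of_subset]
  · exact hK.isPreconnected
  · rintro ⟨x, t⟩ hz
    exact ⟨(x, ⟨t, hs _ hz⟩), rfl⟩

theorem Cross.mono_level {a b c d : ℝ} {K : Set (X × ℝ)} [T2Space X] (hK : Cross a d K) (hab : a ≤ b)
    (hbc : b ≤ c) (hcd : c ≤ d) : ∃ K' ⊆ K, Cross b c K' := by
  obtain ⟨h1, h2, ⟨z, hz, hza⟩, ⟨w, hw, hwb⟩⟩ := hK
  obtain ⟨K', hK', h3, h4, h5, h6⟩ := crossing_real h1 (σ := fun z : X × ℝ => z.2)
    continuous_snd.continuousOn hbc hz hw (by rw [hza]; exact hab) (by rw [hwb]; exact hcd)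
  exact ⟨K', hK', h3, h4, h5, h6⟩

variable [CompactSpace X] [T2Space X]

theorem urysohn_slab {a b : ℝ} (hab : a < b) {Bad : Set (X × ℝ)} (hBad : IsClosed Bad)
    (hno : ∀ K ⊆ Bad, ¬ Cross a b K) :
    ∃ u : X × Icc a b → ℝ, Continuous u ∧ (∀ x, u (x, lo hab.le) = 0) ∧
      (∀ x, u (x, hi hab.le) = 1) ∧
      ∀ z ∈ bad (fun p => Circle.exp (2 * Real.pi * u p)), incl a b z ∉ Bad := by
  have hΦ : IsCompact (incl a b ⁻¹' Bad) := (hBad.preimage (continuous_incl a b)).isCompact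
  have hA : IsClosed {z : X × Icc a b | z.2 = lo hab.le} := isClosed_eq continuous_snd continuous_const
  have hB : IsClosed {z : X × Icc a b | z.2 = hi hab.le} := isClosed_eq continuous_snd continuous_const
  obtain ⟨P, Q, h1, h2, h3, h4, h5, h6⟩ := cutwire hΦ hA hB (by
    intro K hK hKc hKa hKb
    apply hno (incl a b '' K) (by rintro _ ⟨z, hz, rfl⟩; exact hK hz)
    refine ⟨hKc.image (continuous_incl a b).continuousOn, ?_, ?_, ?_⟩
    · rintro _ ⟨z, hz, rfl⟩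
      exact z.2.2
    · obtain ⟨z, hz, hz'⟩ := hKa
      refine ⟨_, ⟨z, hz, rfl⟩, ?_⟩
      have : z.2 = lo hab.le := hz'
      simp [incl, this, lo]
    · obtain ⟨z, hz, hz'⟩ := hKb
      refine ⟨_, ⟨z, hz, rfl⟩, ?_⟩
      have : z.2 = hi hab.le := hz'
      simp [incl, this, hi])
  have hPs : P ⊆ incl a b ⁻¹' Bad := by rw [← h3]; exact subset_union_left
  have hQs : Q ⊆ incl a b ⁻¹' Bad := by rw [← h3]; exact subset_union_right
  have hd : Disjoint (P ∪ {z : X × Icc a b | z.2 = lo hab.le}) (Q ∪ {z : X × Icc a b | z.2 = hi hab.le}) := by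
    rw [disjoint_left]
    rintro z (hz | hz) (hz' | hz')
    · exact disjoint_left.1 h4 hz hz'
    · exact disjoint_left.1 h4 hz (h6 ⟨hPs hz, hz'⟩)
    · exact disjoint_left.1 h4 (h5 ⟨hQs hz', hz⟩) hz'
    · have e1 : z.2 = lo hab.le := hz
      have e2 : z.2 = hi hab.le := hz'
      rw [e1] at e2
      have : a = b := congrArg Subtype.val e2
      exact hab.ne this
  obtain ⟨u, hu0, hu1, hu⟩ := exists_continuous_zero_one_of_isClosed
    (h1.isClosed.union hA) (h2.isClosed.union hB) hd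
  refine ⟨u, u.continuous, fun x => hu0 (Or.inr rfl), fun x => hu1 (Or.inr rfl), ?_⟩
  intro z hz hzB
  have : z ∈ P ∪ Q := by rw [h3]; exact hzB
  rcases this with h | h
  · have e : u z = 0 := hu0 (Or.inl h)
    exact notMem_bad_of_eq_one (G := fun p => Circle.exp (2 * Real.pi * u p)) (p := z)
      (by simp [e]) hz
  · have e : u z = 1 := hu1 (Or.inl h)
    exact notMem_bad_of_eq_one (G := fun p => Circle.exp (2 * Real.pi * u p)) (p := z)
      (by simp [e, Circle.exp_two_pi]) hz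

theorem ustar [ConnectedSpace X] {a b : ℝ} (hab : a < b) {Bad : Set (X × ℝ)} (hBad : IsClosed Bad)
    (hno : ∀ K ⊆ Bad, ¬ Cross a b K) {A B : Set (X × ℝ)} (hA : IsClosed A) (hB : IsClosed B)
    (hd : Disjoint A B) (hcov : ∀ z : X × ℝ, a ≤ z.2 → z.2 ≤ b → z ∉ Bad → z ∈ A ∪ B)
    {K1 K2 : Set (X × ℝ)} (hK1 : Cross a b K1) (h1 : ∀ z ∈ K1, z ∉ A) (hK2 : Cross a b K2)
    (h2 : ∀ z ∈ K2, z ∉ B) : False := by
  obtain ⟨u, hu, hu0, hu1, hub⟩ := urysohn_slab hab hBad hno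
  set G : X × Icc a b → Circle := fun p => Circle.exp (2 * Real.pi * u p) with hGdef
  have hG : Continuous G := Circle.exp.continuous.comp (continuous_const.mul hu)
  have g0 : ∀ x, G (x, lo hab.le) = 1 := by intro x; simp [hGdef, hu0]
  have g1 : ∀ x, G (x, hi hab.le) = 1 := by intro x; simp [hGdef, hu1, Circle.exp_two_pi]
  have hW : IsClosed (bad G) := isClosed_bad hG
  have hAc : IsClosed (bad G ∩ incl a b ⁻¹' A) := hW.inter (hA.preimage (continuous_incl a b))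
  have hBc : IsClosed (bad G ∩ incl a b ⁻¹' B) := hW.inter (hB.preimage (continuous_incl a b))
  have hdAB : Disjoint (bad G ∩ incl a b ⁻¹' A) (bad G ∩ incl a b ⁻¹' B) := by
    rw [disjoint_left]
    rintro z ⟨-, hz⟩ ⟨-, hz'⟩
    exact disjoint_left.1 hd hz hz'
  have hun : (bad G ∩ incl a b ⁻¹' A) ∪ (bad G ∩ incl a b ⁻¹' B) = bad G := by
    rw [← inter_union_distrib_left, inter_eq_left]
    intro z hz
    exact hcov (incl a b z) z.2.2.1 z.2.2.2 (hub z hz)
  have hsp : Split (bad G) (bad G ∩ incl a b ⁻¹' A) (bad G ∩ incl a b ⁻¹' B) := ⟨hAc, hBc, hun, hdAB⟩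
  have hX : Nonempty X := inferInstance
  have key : ∀ {S T : Set (X × Icc a b)}, Split (bad G) S T → ∀ {K : Set (X × ℝ)}, Cross a b K →
      (∀ p ∈ incl a b ⁻¹' K, p ∉ S) → Deg0 hab.le G S := by
    intro S T hST K hK hKS
    obtain ⟨k1, k2, ⟨z0, hz0, hz0a⟩, ⟨z1, hz1, hz1b⟩⟩ := hK
    have e0 : (z0.1, lo hab.le) ∈ incl a b ⁻¹' K := by
      show (z0.1, a) ∈ K
      rw [← hz0a]; exact hz0
    have e1 : (z1.1, hi hab.le) ∈ incl a b ⁻¹' K := by
      show (z1.1, b) ∈ K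
      rw [← hz1b]; exact hz1
    exact deg0_of_avoid hG g0 g1 hST (ctm_incl_preimage k1.2 k2) hKS e0 e1
  have dA := key hsp hK1 (fun p hp hpA => h1 _ hp hpA.2)
  have dB := key hsp.symm hK2 (fun p hp hpB => h2 _ hp hpB.2)
  have := deg0_union dA dB hdAB
  rw [hun] at this
  exact not_deg0_bad hu hu0 hu1 this

theorem exists_full [ConnectedSpace X] {a b : ℝ} (hab : a < b) {Bad : Set (X × ℝ)}
    (hBad : IsClosed Bad) (hno : ∀ K ⊆ Bad, ¬ Cross a b K) :
    ∃ D : Set (X × ℝ), Ctm D ∧ (∀ z ∈ D, a ≤ z.2 ∧ z.2 ≤ b ∧ z ∉ Bad) ∧ Prod.fst '' D = univ := by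
  obtain ⟨u, hu, hu0, hu1, hub⟩ := urysohn_slab hab hBad hno
  obtain ⟨D, hD, hDc, hDf⟩ := exists_full_component hu hu0 hu1
  refine ⟨incl a b '' D, hDc.image (continuous_incl a b).continuousOn, ?_, ?_⟩
  · rintro _ ⟨z, hz, rfl⟩
    exact ⟨z.2.2.1, z.2.2.2, hub z (hD hz)⟩
  · rw [image_image]
    exact hDf

end Slab

end Pool.Agent.Helper739.CT
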