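import Mathlib

namespace Pool.Agent.Helper739

open scoped ENNReal

/-- total weight of weakly decreasing sequences of length `n` -/
noncomputable def TW (t : ℝ≥0∞) (n : ℕ) : ℝ≥0∞ :=
  ∑' β : {β : Fin n → ℕ // Antitone β}, t ^ (∑ i, β.1 i)

lemma TW_zero (t : ℝ≥0∞) : TW t 0 = 1 := by
  unfold TW
  have : Unique {β : Fin 0 → ℕ // Antitone β} :=
    { default := ⟨fun i => i.elim0, fun i => i.elim0⟩
      uniq := by rintro ⟨β, h⟩; apply Subtype.ext; funext i; exact i.elim0 }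
  rw [tsum_fintype]
  simp

lemma TW_succ (t : ℝ≥0∞) (n : ℕ) : TW t (n + 1) ≤ (1 - t ^ (n + 1))⁻¹ * TW t n := by
  unfold TW
  let φ : {β : Fin (n + 1) → ℕ // Antitone β} → ℕ × {β : Fin n → ℕ // Antitone β} :=
    fun β => (β.1 (Fin.last n), ⟨fun i => β.1 i.castSucc - β.1 (Fin.last n), by
      intro i j hij
      exact Nat.sub_le_sub_right (β.2 (by exact hij)) _⟩)
  have hφ : Function.Injective φ := by
    rintro ⟨β, hβ⟩ ⟨γ, hγ⟩ h
    simp only [φ, Prod.mk.injEq] at h
    obtain ⟨h1, h2⟩ := h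
    replace h2 := congrArg Subtype.val h2
    apply Subtype.ext
    funext i
    refine Fin.lastCases h1 (fun i => ?_) i
    have h3 := congrFun h2 i
    have h4 := hβ (Fin.le_last i.castSucc)
    have h5 := hγ (Fin.le_last i.castSucc)
    simp only at h3 ⊢
    omega
  have hw : ∀ β : {β : Fin (n + 1) → ℕ // Antitone β}, t ^ (∑ i, β.1 i) =
      (fun x : ℕ × {β : Fin n → ℕ // Antitone β} => t ^ ((n + 1) * x.1) * t ^ (∑ i, x.2.1 i)) (φ β) := by
    intro β
    simp only [φ]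
    rw [← pow_add]
    congr 1
    rw [Fin.sum_univ_castSucc]
    have : ∑ i : Fin n, β.1 i.castSucc =
        ∑ i : Fin n, (β.1 i.castSucc - β.1 (Fin.last n)) + n * β.1 (Fin.last n) := by
      have h1 : ∑ i : Fin n, β.1 i.castSucc =
        ∑ i : Fin n, ((β.1 i.castSucc - β.1 (Fin.last n)) + β.1 (Fin.last n)) :=
        Finset.sum_congr rfl (fun i _ => by
          have := β.2 (Fin.le_last i.castSucc)
          omega)
      rw [h1, Finset.sum_add_distrib]
      simp
    rw [this]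
    ring
  calc ∑' β : {β : Fin (n + 1) → ℕ // Antitone β}, t ^ (∑ i, β.1 i)
      = ∑' β : {β : Fin (n + 1) → ℕ // Antitone β},
        (fun x : ℕ × {β : Fin n → ℕ // Antitone β} => t ^ ((n + 1) * x.1) * t ^ (∑ i, x.2.1 i)) (φ β) :=
        tsum_congr hw
    _ ≤ ∑' x : ℕ × {β : Fin n → ℕ // Antitone β}, t ^ ((n + 1) * x.1) * t ^ (∑ i, x.2.1 i) :=
        ENNReal.tsum_comp_le_tsum_of_injective hφ _
    _ = (1 - t ^ (n + 1))⁻¹ * ∑' β : {β : Fin n → ℕ // Antitone β}, t ^ (∑ i, β.1 i) := by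
        rw [ENNReal.tsum_prod']
        simp_rw [ENNReal.tsum_mul_left, ENNReal.tsum_mul_right]
        congr 1
        rw [← ENNReal.tsum_geometric]
        exact tsum_congr (fun k => by rw [pow_mul])

lemma prod_bound {r : ℝ} (h0 : 0 ≤ r) (h1 : r < 1) (n : ℕ) :
    ∏ j ∈ Finset.range n, (1 - r ^ (j + 1))⁻¹ ≤ Real.exp (r / (1 - r) ^ 2) := by
  have h2 : ∀ j ∈ Finset.range n, (1 - r ^ (j + 1))⁻¹ ≤ Real.exp (r ^ (j + 1) / (1 - r)) := by
    intro j _
    have h3 : r ^ (j + 1) ≤ r := by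
      calc r ^ (j + 1) = r ^ j * r := pow_succ _ _
        _ ≤ 1 * r := by
          apply mul_le_mul_of_nonneg_right (pow_le_one₀ h0 h1.le) h0
        _ = r := one_mul _
    have h4 : 0 < 1 - r ^ (j + 1) := by linarith
    have h5 : (1 - r ^ (j + 1))⁻¹ = 1 + r ^ (j + 1) / (1 - r ^ (j + 1)) := by
      field_simp
      ring
    rw [h5]
    calc 1 + r ^ (j + 1) / (1 - r ^ (j + 1)) ≤ 1 + r ^ (j + 1) / (1 - r) := by
          have : r ^ (j + 1) / (1 - r ^ (j + 1)) ≤ r ^ (j + 1) / (1 - r) := by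
            apply div_le_div_of_nonneg_left (pow_nonneg h0 _) (by linarith) (by linarith)
          linarith
      _ ≤ Real.exp (r ^ (j + 1) / (1 - r)) := by
          have := Real.add_one_le_exp (r ^ (j + 1) / (1 - r))
          linarith
  calc ∏ j ∈ Finset.range n, (1 - r ^ (j + 1))⁻¹
      ≤ ∏ j ∈ Finset.range n, Real.exp (r ^ (j + 1) / (1 - r)) := by
        apply Finset.prod_le_prod
        · intro j _
          apply inv_nonneg.2
          have : r ^ (j + 1) ≤ 1 := pow_le_one₀ h0 h1.le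
          linarith
        · exact h2
    _ = Real.exp (∑ j ∈ Finset.range n, r ^ (j + 1) / (1 - r)) := by rw [Real.exp_sum]
    _ ≤ Real.exp (r / (1 - r) ^ 2) := by
        apply Real.exp_le_exp.2
        have h6 : ∑ j ∈ Finset.range n, r ^ (j + 1) / (1 - r) =
            (r / (1 - r)) * ∑ j ∈ Finset.range n, r ^ j := by
          rw [Finset.mul_sum]
          apply Finset.sum_congr rfl
          intro j _
          rw [pow_succ]; ring
        rw [h6]
        have h7 : ∑ j ∈ Finset.range n, r ^ j ≤ (1 - r)⁻¹ := by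
          rw [← tsum_geometric_of_lt_one h0 h1]
          exact (summable_geometric_of_lt_one h0 h1).sum_le_tsum _ (fun i _ => pow_nonneg h0 i)
        calc (r / (1 - r)) * ∑ j ∈ Finset.range n, r ^ j ≤ (r / (1 - r)) * (1 - r)⁻¹ := by
              apply mul_le_mul_of_nonneg_left h7
              apply div_nonneg h0; linarith
          _ = r / (1 - r) ^ 2 := by
              field_simp

lemma TW_le {r : ℝ} (h0 : 0 ≤ r) (h1 : r < 1) (n : ℕ) :
    TW (ENNReal.ofReal r) n ≤ ENNReal.ofReal (∏ j ∈ Finset.range n, (1 - r ^ (j + 1))⁻¹) := by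
  induction n with
  | zero => rw [TW_zero]; simp
  | succ n ih =>
    rw [Finset.prod_range_succ, mul_comm, ENNReal.ofReal_mul]
    · refine (TW_succ _ n).trans (mul_le_mul' ?_ ih)
      have h3 : r ^ (n + 1) < 1 := pow_lt_one₀ h0 h1 (by omega)
      rw [← ENNReal.ofReal_pow h0, ← ENNReal.ofReal_one, ← ENNReal.ofReal_sub _ (pow_nonneg h0 _),
        ← ENNReal.ofReal_inv_of_pos (by linarith)]
    · have h3 : r ^ (n + 1) < 1 := pow_lt_one₀ h0 h1 (by omega)
      apply inv_nonneg.2; linarith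

lemma sum_rowLen {μ : YoungDiagram} {n : ℕ} (h : μ.colLen 0 ≤ n) :
    ∑ i : Fin n, μ.rowLen i = μ.card := by
  have h1 : μ.cells = Finset.univ.biUnion (fun i : Fin n => μ.row i) := by
    ext ⟨i, j⟩
    rw [Finset.mem_biUnion]
    constructor
    · intro hc
      have hc' : (i, j) ∈ μ := hc
      have h2 : (i, 0) ∈ μ := μ.up_left_mem le_rfl (Nat.zero_le _) hc'
      rw [YoungDiagram.mem_iff_lt_colLen] at h2
      exact ⟨⟨i, by omega⟩, Finset.mem_univ _, YoungDiagram.mk_mem_row_iff.2 hc'⟩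
    · rintro ⟨i', -, hi'⟩
      exact (YoungDiagram.mem_row_iff.1 hi').1
  unfold YoungDiagram.card
  rw [h1, Finset.card_biUnion]
  · exact Finset.sum_congr rfl (fun i _ => μ.rowLen_eq_card)
  · intro i _ j _ hij
    show Disjoint (μ.row i) (μ.row j)
    rw [Finset.disjoint_left]
    intro c hc hc2
    rw [YoungDiagram.mem_row_iff] at hc hc2
    apply hij
    ext
    omega

/-- The generating function of Young diagrams converges for `0 ≤ r < 1`. -/
lemma YD_sum_le {r : ℝ} (h0 : 0 ≤ r) (h1 : r < 1) :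
    ∑' μ : YoungDiagram, (ENNReal.ofReal r) ^ μ.card ≤ ENNReal.ofReal (Real.exp (r / (1 - r) ^ 2)) := by
  rw [ENNReal.tsum_eq_iSup_sum]
  apply iSup_le
  intro F
  obtain ⟨n, hn⟩ : ∃ n, ∀ μ ∈ F, μ.colLen 0 ≤ n :=
    ⟨F.sup (fun μ => μ.colLen 0), fun μ hμ => Finset.le_sup (f := fun μ => μ.colLen 0) hμ⟩
  refine le_trans ?_ ((TW_le h0 h1 n).trans (ENNReal.ofReal_le_ofReal (prod_bound h0 h1 n)))
  unfold TW
  rw [← Finset.tsum_subtype]
  let φ : {μ // μ ∈ F} → {β : Fin n → ℕ // Antitone β} := fun μ =>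
    ⟨fun i => μ.1.rowLen i, fun i j hij => μ.1.rowLen_anti _ _ hij⟩
  have hφ : Function.Injective φ := by
    rintro ⟨μ, hμ⟩ ⟨ν, hν⟩ h
    replace h := congrArg Subtype.val h
    simp only [φ] at h
    apply Subtype.ext
    ext ⟨i, j⟩
    simp only
    rw [YoungDiagram.mem_cells, YoungDiagram.mem_cells]
    by_cases hi : i < n
    · rw [YoungDiagram.mem_iff_lt_rowLen, YoungDiagram.mem_iff_lt_rowLen]
      have := congrFun h ⟨i, hi⟩
      simp only at this
      rw [this]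
    · have e1 : ∀ ρ ∈ F, (i, j) ∉ ρ := by
        intro ρ hρ hc
        have h2 : (i, 0) ∈ ρ := ρ.up_left_mem le_rfl (Nat.zero_le _) hc
        rw [YoungDiagram.mem_iff_lt_colLen] at h2
        have := hn ρ hρ
        omega
      simp [e1 μ hμ, e1 ν hν]
  have hw : ∀ μ : {μ // μ ∈ F}, (ENNReal.ofReal r) ^ μ.1.card =
      (fun β : {β : Fin n → ℕ // Antitone β} => (ENNReal.ofReal r) ^ (∑ i, β.1 i)) (φ μ) := by
    intro μ
    simp only [φ]
    rw [sum_rowLen (hn μ.1 μ.2)]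
  calc ∑' μ : {μ // μ ∈ F}, (ENNReal.ofReal r) ^ μ.1.card
      = ∑' μ : {μ // μ ∈ F}, (fun β : {β : Fin n → ℕ // Antitone β} =>
        (ENNReal.ofReal r) ^ (∑ i, β.1 i)) (φ μ) := tsum_congr hw
    _ ≤ _ := ENNReal.tsum_comp_le_tsum_of_injective hφ _

/-- product version -/
lemma tsum_pi_le {ι α : Type*} [Fintype ι] (w : α → ℝ≥0∞) :
    ∑' g : ι → α, ∏ i, w (g i) ≤ (∑' x, w x) ^ Fintype.card ι := by
  classical
  rw [ENNReal.tsum_eq_iSup_sum]
  apply iSup_le
  intro F
  set D : Finset α := F.biUnion (fun g => Finset.univ.image g) with hD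
  have h1 : F ⊆ Fintype.piFinset (fun _ : ι => D) := by
    intro g hg
    rw [Fintype.mem_piFinset]
    intro i
    rw [hD, Finset.mem_biUnion]
    exact ⟨g, hg, Finset.mem_image_of_mem _ (Finset.mem_univ i)⟩
  calc ∑ g ∈ F, ∏ i, w (g i) ≤ ∑ g ∈ Fintype.piFinset (fun _ : ι => D), ∏ i, w (g i) :=
        Finset.sum_le_sum_of_subset h1
    _ = ∏ _i : ι, ∑ x ∈ D, w x := by
        rw [Finset.prod_univ_sum]
    _ = (∑ x ∈ D, w x) ^ Fintype.card ι := by simp
    _ ≤ (∑' x, w x) ^ Fintype.card ι := by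
        gcongr
        exact ENNReal.sum_le_tsum D

end Pool.Agent.Helper739
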