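import Pool.Agent.Helper739.SAPCorner
import Pool.Agent.Helper739.YDSum

namespace Pool.Agent.Helper739

open scoped ENNReal

lemma sq_div_four (m : ℕ) : m ^ 2 ≤ 4 * (m ^ 2 / 4) + 1 ∧ 4 * (m ^ 2 / 4) ≤ m ^ 2 := by
  refine ⟨?_, by omega⟩
  have h : m ^ 2 % 4 = 0 ∨ m ^ 2 % 4 = 1 := by
    rcases Nat.even_or_odd m with ⟨k, hk⟩ | ⟨k, hk⟩
    · left
      rw [hk, show (k + k) ^ 2 = 4 * k ^ 2 by ring]
      omega
    · right
      rw [hk, show (2 * k + 1) ^ 2 = 4 * (k ^ 2 + k) + 1 by ring]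
      omega
  omega

lemma arith_bound {a b h v m n k : ℕ} (h1 : h + v + a + b ≤ m) (h2 : n + k ≤ a * b) :
    n ≤ m ^ 2 / 4 ∧
    (m - a - b) * m + 2 * ((a : ℤ) - b).natAbs ^ 2 + m * h + m * v + 8 * k
      ≤ 8 * (m ^ 2 / 4 - n) + 2 := by
  have h3 := (sq_div_four m).1
  have h4 := (sq_div_four m).2
  set M := m ^ 2 / 4 with hM
  have h5 : 4 * (a * b) ≤ m ^ 2 := by
    have e1 : a + b ≤ m := by omega
    have e2 : (a + b) ^ 2 ≤ m ^ 2 := Nat.pow_le_pow_left e1 2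
    have e3 : 4 * (a * b) ≤ (a + b) ^ 2 := by
      zify
      nlinarith [sq_nonneg ((a : ℤ) - b)]
    omega
  have h6 : n ≤ M := by omega
  refine ⟨h6, ?_⟩
  obtain ⟨f, hf⟩ : ∃ f, m = a + b + f := ⟨m - a - b, by omega⟩
  have hf2 : m - a - b = f := by omega
  have hf3 : h + v ≤ f := by omega
  rw [hf2]
  zify [h6]
  rw [sq_abs]
  zify at h2 h3 hf3 hf
  have e5 : (0 : ℤ) ≤ a := by positivity
  have e6 : (0 : ℤ) ≤ b := by positivity
  have e7 : (0 : ℤ) ≤ f := by positivity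
  have e8 : (m : ℤ) * h + m * v ≤ m * f := by
    have : (0 : ℤ) ≤ m := by positivity
    nlinarith
  rw [hf] at h3 e8 ⊢
  nlinarith [mul_nonneg e5 e7, mul_nonneg e6 e7]

noncomputable def U (m : ℕ) : Finset ((ℤ × ℤ) × (ℤ × ℤ)) := boxF m m ×ˢ boxF m m

lemma card_U (m : ℕ) : (U m).card = m ^ 4 := by
  unfold U
  rw [Finset.card_product, card_boxF]
  ring

abbrev Code := (ℕ × ℕ) × (Bool × Bool → YoungDiagram) ×
  Finset ((ℤ × ℤ) × (ℤ × ℤ)) × Finset ((ℤ × ℤ) × (ℤ × ℤ))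

open Classical in
noncomputable def W1 (m : ℕ) (τ : ℝ≥0∞) (x : ℕ × ℕ) : ℝ≥0∞ :=
  if x.1 + x.2 ≤ m then τ ^ ((m - x.1 - x.2) * m) * τ ^ (2 * ((x.1 : ℤ) - x.2).natAbs ^ 2) else 0

noncomputable def W2 (τ : ℝ≥0∞) (μ : Bool × Bool → YoungDiagram) : ℝ≥0∞ :=
  ∏ s, (τ ^ 8) ^ (μ s).card

open Classical in
noncomputable def W3 (m : ℕ) (τ : ℝ≥0∞) (H : Finset ((ℤ × ℤ) × (ℤ × ℤ))) : ℝ≥0∞ :=
  if H ⊆ U m then τ ^ (m * H.card) else 0

noncomputable def W (m : ℕ) (τ : ℝ≥0∞) (x : Code) : ℝ≥0∞ :=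
  W1 m τ x.1 * (W2 τ x.2.1 * (W3 m τ x.2.2.1 * W3 m τ x.2.2.2))

lemma sap_code {m : ℕ} {P : Set (Sym2 (ℤ × ℤ))} (hP : IsSAP m P) {τ : ℝ≥0∞} (hτ : τ ≤ 1) :
    area P ≤ m ^ 2 / 4 ∧
    ∃ x : Code, bd (decode x.1.1 x.1.2 x.2.1 x.2.2.1 x.2.2.2) = P ∧
      τ ^ 2 * τ ^ (8 * (m ^ 2 / 4 - area P)) ≤ W m τ x := by
  obtain ⟨R, a, b, hbox, hbd, henc, hcard, ha, hb⟩ := sap_region hP
  have harea : area P = R.card := by
    unfold area
    rw [henc, Set.ncard_coe_finset]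
  have h1 := card_corner_le hbox
  obtain ⟨h2, h3⟩ := arith_bound (h := (hg R).card) (v := (vg R).card) (a := a) (b := b) (m := m)
    (n := R.card) (k := ∑ s : Bool × Bool, (corner R a b s).card) hcard h1
  rw [harea]
  refine ⟨h2, ⟨(a, b), corner R a b, hg R, vg R⟩, ?_, ?_⟩
  · simp only
    rw [decode_eq hbox, hbd]
  · have hsub : ∀ c ∈ R, c ∈ boxF m m := by
      intro c hc
      have := hbox.sub c hc
      rw [mem_boxF]
      omega
    have hH : hg R ⊆ U m := by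
      intro g hg1
      simp only [hg, Finset.mem_filter, Finset.mem_product] at hg1
      unfold U
      rw [Finset.mem_product]
      exact ⟨hsub _ hg1.1.1, hsub _ hg1.1.2⟩
    have hV : vg R ⊆ U m := by
      intro g hg1
      simp only [vg, Finset.mem_filter, Finset.mem_product] at hg1
      unfold U
      rw [Finset.mem_product]
      exact ⟨hsub _ hg1.1.1, hsub _ hg1.1.2⟩
    unfold W W1 W2 W3
    simp only
    rw [if_pos hH, if_pos hV, if_pos (by omega), Finset.prod_pow_eq_pow_sum, ← pow_mul, ← pow_add,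
      ← pow_add, ← pow_add, ← pow_add, ← pow_add]
    apply pow_le_pow_right_of_le_one' hτ
    linarith

lemma W1_sum {m : ℕ} (hm : 1 ≤ m) {τ : ℝ≥0∞} (hτ : τ ≤ 1) :
    ∑' x : ℕ × ℕ, W1 m τ x ≤ (1 - τ)⁻¹ * (2 * (1 - τ)⁻¹) := by
  classical
  -- compare with a sum over `(f, k) ∈ ℕ × ℤ`
  have h1 : ∑' x : ℕ × ℕ, W1 m τ x ≤ ∑' y : ℕ × ℤ, τ ^ y.1 * τ ^ y.2.natAbs := by
    have h2 : ∑' x : ℕ × ℕ, W1 m τ x = ∑' x : {x : ℕ × ℕ // x.1 + x.2 ≤ m}, W1 m τ x.1 := by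
      rw [← tsum_subtype_eq_of_support_subset (s := {x : ℕ × ℕ | x.1 + x.2 ≤ m})]
      · rfl
      · intro x hx
        by_contra hcon
        apply hx
        have hcon' : ¬ (x.1 + x.2 ≤ m) := hcon
        unfold W1
        rw [if_neg hcon']
    rw [h2]
    let φ : {x : ℕ × ℕ // x.1 + x.2 ≤ m} → ℕ × ℤ := fun x => (m - x.1.1 - x.1.2, (x.1.1 : ℤ) - x.1.2)
    have hφ : Function.Injective φ := by
      rintro ⟨⟨a, b⟩, h⟩ ⟨⟨a', b'⟩, h'⟩ heq
      simp only [φ, Prod.mk.injEq] at heq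
      simp only at h h'
      apply Subtype.ext
      simp only [Prod.mk.injEq]
      omega
    refine le_trans ?_ (ENNReal.tsum_comp_le_tsum_of_injective hφ _)
    apply ENNReal.tsum_le_tsum
    rintro ⟨⟨a, b⟩, h⟩
    simp only at h
    simp only [φ, W1, if_pos h]
    apply mul_le_mul'
    · apply pow_le_pow_right_of_le_one' hτ
      exact Nat.le_mul_of_pos_right _ (by omega)
    · apply pow_le_pow_right_of_le_one' hτ
      set d := ((a : ℤ) - b).natAbs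
      nlinarith [Nat.zero_le d]
  refine h1.trans ?_
  rw [ENNReal.tsum_prod']
  simp_rw [ENNReal.tsum_mul_left]
  rw [ENNReal.tsum_mul_right, ENNReal.tsum_geometric]
  gcongr
  rw [← Equiv.intEquivNatSumNat.symm.tsum_eq, ENNReal.summable.tsum_sum ENNReal.summable]
  have e1 : ∑' n : ℕ, τ ^ (Equiv.intEquivNatSumNat.symm (Sum.inl n)).natAbs = (1 - τ)⁻¹ := by
    rw [← ENNReal.tsum_geometric]
    apply tsum_congr
    intro n
    congr 1
  have e2 : ∑' n : ℕ, τ ^ (Equiv.intEquivNatSumNat.symm (Sum.inr n)).natAbs ≤ (1 - τ)⁻¹ := by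
    rw [← ENNReal.tsum_geometric]
    apply ENNReal.tsum_le_tsum
    intro n
    apply pow_le_pow_right_of_le_one' hτ
    show n ≤ (Int.negSucc n).natAbs
    simp
  rw [e1, two_mul]
  gcongr

lemma W3_sum (m : ℕ) (τ : ℝ≥0∞) :
    ∑' H, W3 m τ H = (1 + τ ^ m) ^ (m ^ 4) := by
  classical
  rw [tsum_eq_sum (s := (U m).powerset)]
  · have h1 : ∀ H ∈ (U m).powerset, W3 m τ H = (τ ^ m) ^ H.card * 1 ^ ((U m).card - H.card) := by
      intro H hH
      rw [Finset.mem_powerset] at hH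
      unfold W3
      rw [if_pos hH, one_pow, mul_one, pow_mul]
    rw [Finset.sum_congr rfl h1, Finset.sum_pow_mul_eq_add_pow, card_U, add_comm]
  · intro H hH
    rw [Finset.mem_powerset] at hH
    unfold W3
    rw [if_neg hH]

end Pool.Agent.Helper739
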