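import Pool.Agent.Helper739.SAPGaps

namespace Pool.Agent.Helper739

/-- horizontal gaps: pairs of cells of `R` in one row, not adjacent, with no cell of `R` between -/
def hg (R : Finset (ℤ × ℤ)) : Finset ((ℤ × ℤ) × (ℤ × ℤ)) :=
  (R ×ˢ R).filter (fun g => g.1.2 = g.2.2 ∧ g.1.1 + 1 < g.2.1 ∧
    ∀ c ∈ R, c.2 = g.1.2 → c.1 ≤ g.1.1 ∨ g.2.1 ≤ c.1)

/-- vertical gaps -/
def vg (R : Finset (ℤ × ℤ)) : Finset ((ℤ × ℤ) × (ℤ × ℤ)) :=
  (R ×ˢ R).filter (fun g => g.1.1 = g.2.1 ∧ g.1.2 + 1 < g.2.2 ∧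
    ∀ c ∈ R, c.1 = g.1.1 → c.2 ≤ g.1.2 ∨ g.2.2 ≤ c.2)

lemma hg_card {R : Finset (ℤ × ℤ)} {a b : ℕ} (h : Box R a b) :
    (hg R).card + b ≤ (LE R).card := by
  classical
  set Mn := (LE R).filter (fun c => ∀ d ∈ R, d.2 = c.2 → c.1 ≤ d.1) with hMn
  have h1 : b ≤ Mn.card := by
    have h2 : Finset.Ico (0 : ℤ) b ⊆ Mn.image Prod.snd := by
      intro j hj
      rw [Finset.mem_Ico] at hj
      obtain ⟨x0, hx0⟩ := h.row j hj.1 hj.2
      obtain ⟨c, hc, hmin⟩ := (R.filter (fun c => c.2 = j)).exists_min_image (fun c => c.1)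
        ⟨(x0, j), by simp [hx0]⟩
      rw [Finset.mem_filter] at hc
      refine Finset.mem_image.2 ⟨c, ?_, hc.2⟩
      rw [hMn, Finset.mem_filter, LE, Finset.mem_filter]
      refine ⟨⟨hc.1, ?_⟩, ?_⟩
      · intro hcon
        have := hmin (c.1 - 1, c.2) (by rw [Finset.mem_filter]; exact ⟨hcon, hc.2⟩)
        simp only at this
        omega
      · intro d hd hd2
        exact hmin d (by rw [Finset.mem_filter]; exact ⟨hd, hd2.trans hc.2⟩)
    calc b = (Finset.Ico (0 : ℤ) b).card := by simp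
      _ ≤ (Mn.image Prod.snd).card := Finset.card_le_card h2
      _ ≤ Mn.card := Finset.card_image_le
  have h3 : (hg R).card = ((hg R).image Prod.snd).card := by
    rw [Finset.card_image_of_injOn]
    rintro ⟨⟨x1, y1⟩, ⟨x2, y2⟩⟩ h4 ⟨⟨x1', y1'⟩, ⟨x2', y2'⟩⟩ h5 h6
    simp only [hg, Finset.coe_filter, Finset.mem_product, Set.mem_ofPred_eq] at h4 h5 h6
    simp only [Prod.mk.injEq] at h6 ⊢
    obtain ⟨⟨ha, hb⟩, hc, hd, he⟩ := h4
    obtain ⟨⟨ha', hb'⟩, hc', hd', he'⟩ := h5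
    obtain ⟨rfl, rfl⟩ := h6
    subst hc hc'
    have e1 := he _ ha' rfl
    have e2 := he' _ ha rfl
    simp only at e1 e2
    refine ⟨⟨by omega, rfl⟩, rfl, rfl⟩
  have h4 : Disjoint ((hg R).image Prod.snd) Mn := by
    rw [Finset.disjoint_left]
    rintro c hc hc2
    rw [Finset.mem_image] at hc
    obtain ⟨⟨d, e⟩, hg1, rfl⟩ := hc
    simp only [hg, Finset.mem_filter, Finset.mem_product] at hg1
    rw [hMn, Finset.mem_filter] at hc2
    have := hc2.2 d hg1.1.1 hg1.2.1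
    simp only at this
    omega
  have h5 : ((hg R).image Prod.snd) ∪ Mn ⊆ LE R := by
    apply Finset.union_subset
    · intro c hc
      rw [Finset.mem_image] at hc
      obtain ⟨⟨d, e⟩, hg1, rfl⟩ := hc
      simp only [hg, Finset.mem_filter, Finset.mem_product] at hg1
      rw [LE, Finset.mem_filter]
      refine ⟨hg1.1.2, ?_⟩
      intro hcon
      have := hg1.2.2.2 _ hcon hg1.2.1.symm
      simp only at this
      omega
    · exact Finset.filter_subset _ _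
  have h6 := Finset.card_le_card h5
  rw [Finset.card_union_of_disjoint h4] at h6
  omega

lemma vg_card {R : Finset (ℤ × ℤ)} {a b : ℕ} (h : Box R a b) :
    (vg R).card + a ≤ (BE R).card := by
  classical
  set Mn := (BE R).filter (fun c => ∀ d ∈ R, d.1 = c.1 → c.2 ≤ d.2) with hMn
  have h1 : a ≤ Mn.card := by
    have h2 : Finset.Ico (0 : ℤ) a ⊆ Mn.image Prod.fst := by
      intro j hj
      rw [Finset.mem_Ico] at hj
      obtain ⟨x0, hx0⟩ := h.col j hj.1 hj.2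
      obtain ⟨c, hc, hmin⟩ := (R.filter (fun c => c.1 = j)).exists_min_image (fun c => c.2)
        ⟨(j, x0), by simp [hx0]⟩
      rw [Finset.mem_filter] at hc
      refine Finset.mem_image.2 ⟨c, ?_, hc.2⟩
      rw [hMn, Finset.mem_filter, BE, Finset.mem_filter]
      refine ⟨⟨hc.1, ?_⟩, ?_⟩
      · intro hcon
        have := hmin (c.1, c.2 - 1) (by rw [Finset.mem_filter]; exact ⟨hcon, hc.2⟩)
        simp only at this
        omega
      · intro d hd hd2
        exact hmin d (by rw [Finset.mem_filter]; exact ⟨hd, hd2.trans hc.2⟩)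
    calc a = (Finset.Ico (0 : ℤ) a).card := by simp
      _ ≤ (Mn.image Prod.fst).card := Finset.card_le_card h2
      _ ≤ Mn.card := Finset.card_image_le
  have h3 : (vg R).card = ((vg R).image Prod.snd).card := by
    rw [Finset.card_image_of_injOn]
    rintro ⟨⟨x1, y1⟩, ⟨x2, y2⟩⟩ h4 ⟨⟨x1', y1'⟩, ⟨x2', y2'⟩⟩ h5 h6
    simp only [vg, Finset.coe_filter, Finset.mem_product, Set.mem_ofPred_eq] at h4 h5 h6
    simp only [Prod.mk.injEq] at h6 ⊢
    obtain ⟨⟨ha, hb⟩, hc, hd, he⟩ := h4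
    obtain ⟨⟨ha', hb'⟩, hc', hd', he'⟩ := h5
    obtain ⟨rfl, rfl⟩ := h6
    subst hc hc'
    have e1 := he _ ha' rfl
    have e2 := he' _ ha rfl
    simp only at e1 e2
    refine ⟨⟨rfl, by omega⟩, rfl, rfl⟩
  have h4 : Disjoint ((vg R).image Prod.snd) Mn := by
    rw [Finset.disjoint_left]
    rintro c hc hc2
    rw [Finset.mem_image] at hc
    obtain ⟨⟨d, e⟩, hg1, rfl⟩ := hc
    simp only [vg, Finset.mem_filter, Finset.mem_product] at hg1
    rw [hMn, Finset.mem_filter] at hc2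
    have := hc2.2 d hg1.1.1 hg1.2.1
    simp only at this
    omega
  have h5 : ((vg R).image Prod.snd) ∪ Mn ⊆ BE R := by
    apply Finset.union_subset
    · intro c hc
      rw [Finset.mem_image] at hc
      obtain ⟨⟨d, e⟩, hg1, rfl⟩ := hc
      simp only [vg, Finset.mem_filter, Finset.mem_product] at hg1
      rw [BE, Finset.mem_filter]
      refine ⟨hg1.1.2, ?_⟩
      intro hcon
      have := hg1.2.2.2 _ hcon hg1.2.1.symm
      simp only at this
      omega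
    · exact Finset.filter_subset _ _
  have h6 := Finset.card_le_card h5
  rw [Finset.card_union_of_disjoint h4] at h6
  omega

/-- A cell strictly between two cells of `R` in its row lies in a gap. -/
lemma exists_hg {R : Finset (ℤ × ℤ)} {i j x1 x2 : ℤ} (hc : (i, j) ∉ R) (h1 : x1 < i) (h2 : i < x2)
    (hx1 : (x1, j) ∈ R) (hx2 : (x2, j) ∈ R) :
    ∃ g ∈ hg R, g.1.2 = j ∧ g.1.1 < i ∧ i < g.2.1 := by
  classical
  obtain ⟨c, hc1, hmax⟩ := (R.filter (fun c => c.2 = j ∧ c.1 < i)).exists_max_image (fun c => c.1)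
    ⟨(x1, j), by simp [hx1, h1]⟩
  obtain ⟨d, hd1, hmin⟩ := (R.filter (fun c => c.2 = j ∧ i < c.1)).exists_min_image (fun c => c.1)
    ⟨(x2, j), by simp [hx2, h2]⟩
  rw [Finset.mem_filter] at hc1 hd1
  refine ⟨(c, d), ?_, hc1.2.1, hc1.2.2, hd1.2.2⟩
  simp only [hg, Finset.mem_filter, Finset.mem_product]
  refine ⟨⟨hc1.1, hd1.1⟩, by omega, by omega, ?_⟩
  intro e he he2
  by_cases h3 : e.1 < i
  · left
    exact hmax e (by rw [Finset.mem_filter]; exact ⟨he, by omega, h3⟩)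
  · right
    by_cases h4 : e.1 = i
    · exfalso
      apply hc
      rw [← h4, ← hc1.2.1, ← he2]
      exact he
    · exact hmin e (by rw [Finset.mem_filter]; exact ⟨he, by omega, by omega⟩)

lemma exists_vg {R : Finset (ℤ × ℤ)} {i j x1 x2 : ℤ} (hc : (i, j) ∉ R) (h1 : x1 < j) (h2 : j < x2)
    (hx1 : (i, x1) ∈ R) (hx2 : (i, x2) ∈ R) :
    ∃ g ∈ vg R, g.1.1 = i ∧ g.1.2 < j ∧ j < g.2.2 := by
  classical
  obtain ⟨c, hc1, hmax⟩ := (R.filter (fun c => c.1 = i ∧ c.2 < j)).exists_max_image (fun c => c.2)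
    ⟨(i, x1), by simp [hx1, h1]⟩
  obtain ⟨d, hd1, hmin⟩ := (R.filter (fun c => c.1 = i ∧ j < c.2)).exists_min_image (fun c => c.2)
    ⟨(i, x2), by simp [hx2, h2]⟩
  rw [Finset.mem_filter] at hc1 hd1
  refine ⟨(c, d), ?_, hc1.2.1, hc1.2.2, hd1.2.2⟩
  simp only [vg, Finset.mem_filter, Finset.mem_product]
  refine ⟨⟨hc1.1, hd1.1⟩, by omega, by omega, ?_⟩
  intro e he he2
  by_cases h3 : e.2 < j
  · left
    exact hmax e (by rw [Finset.mem_filter]; exact ⟨he, by omega, h3⟩)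
  · right
    by_cases h4 : e.2 = j
    · exfalso
      apply hc
      rw [← h4, ← hc1.2.1, ← he2]
      exact he
    · exact hmin e (by rw [Finset.mem_filter]; exact ⟨he, by omega, by omega⟩)

/-- coordinate measured from one of the two sides of `[0,a)` -/
def rx (a : ℕ) (s : Bool) (x : ℤ) : ℤ := if s then a - 1 - x else x

/-- the corner diagram of `R` at the corner `s` -/
def corner (R : Finset (ℤ × ℤ)) (a b : ℕ) (s : Bool × Bool) : YoungDiagram where
  cells := (Finset.range a ×ˢ Finset.range b).filter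
    (fun p => ∀ d ∈ R, ¬ (rx a s.1 d.1 ≤ p.1 ∧ rx b s.2 d.2 ≤ p.2))
  isLowerSet := by
    rintro ⟨x, y⟩ ⟨x', y'⟩ hle h
    simp only [Finset.coe_filter, Finset.mem_product, Finset.mem_range, Set.mem_ofPred_eq,
      Prod.mk_le_mk] at h hle ⊢
    refine ⟨⟨by omega, by omega⟩, ?_⟩
    intro d hd hcon
    exact h.2 d hd ⟨by omega, by omega⟩

/-- the region coded by box sides, four corner diagrams and gap sets -/
def decode (a b : ℕ) (μ : Bool × Bool → YoungDiagram) (H V : Finset ((ℤ × ℤ) × (ℤ × ℤ))) :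
    Set (ℤ × ℤ) :=
  {c | 0 ≤ c.1 ∧ c.1 < a ∧ 0 ≤ c.2 ∧ c.2 < b ∧
    (∀ s, ((rx a s.1 c.1).toNat, (rx b s.2 c.2).toNat) ∉ μ s) ∧
    (∀ g ∈ H, ¬ (g.1.2 = c.2 ∧ g.1.1 < c.1 ∧ c.1 < g.2.1)) ∧
    (∀ g ∈ V, ¬ (g.1.1 = c.1 ∧ g.1.2 < c.2 ∧ c.2 < g.2.2))}

lemma rx_le {a : ℕ} {s : Bool} {x y : ℤ} (h0 : 0 ≤ x) (ha : x < a) (h : rx a s y ≤ ((rx a s x).toNat : ℤ)) :
    rx a s y ≤ rx a s x := by
  unfold rx at *
  split_ifs at * <;> omega

lemma rx_nonneg {a : ℕ} {s : Bool} {x : ℤ} (h0 : 0 ≤ x) (ha : x < a) : 0 ≤ rx a s x := by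
  unfold rx
  split_ifs <;> omega

lemma rx_lt {a : ℕ} {s : Bool} {x : ℤ} (h0 : 0 ≤ x) (ha : x < a) : rx a s x < a := by
  unfold rx
  split_ifs <;> omega

lemma mem_corner {R : Finset (ℤ × ℤ)} {a b : ℕ} {s : Bool × Bool} {c : ℤ × ℤ}
    (h1 : 0 ≤ c.1) (h2 : c.1 < a) (h3 : 0 ≤ c.2) (h4 : c.2 < b) :
    ((rx a s.1 c.1).toNat, (rx b s.2 c.2).toNat) ∈ corner R a b s ↔
      ∀ d ∈ R, ¬ (rx a s.1 d.1 ≤ rx a s.1 c.1 ∧ rx b s.2 d.2 ≤ rx b s.2 c.2) := by
  have e1 := rx_nonneg (s := s.1) h1 h2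
  have e2 := rx_nonneg (s := s.2) h3 h4
  have e3 := rx_lt (s := s.1) h1 h2
  have e4 := rx_lt (s := s.2) h3 h4
  rw [← YoungDiagram.mem_cells]
  simp only [corner, Finset.mem_filter, Finset.mem_product, Finset.mem_range]
  constructor
  · rintro ⟨-, h⟩ d hd ⟨hd1, hd2⟩
    exact h d hd ⟨by omega, by omega⟩
  · intro h
    refine ⟨⟨by omega, by omega⟩, ?_⟩
    rintro d hd ⟨hd1, hd2⟩
    exact h d hd ⟨by omega, by omega⟩

lemma decode_eq {R : Finset (ℤ × ℤ)} {a b : ℕ} (h : Box R a b) :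
    decode a b (corner R a b) (hg R) (vg R) = (R : Set (ℤ × ℤ)) := by
  ext ⟨i, j⟩
  constructor
  · rintro ⟨h1, h2, h3, h4, h5, h6, h7⟩
    simp only at h1 h2 h3 h4 h5 h6 h7
    by_contra hc
    rw [Finset.mem_coe] at hc
    have key : ∀ s : Bool × Bool, ∃ d ∈ R, rx a s.1 d.1 ≤ rx a s.1 i ∧ rx b s.2 d.2 ≤ rx b s.2 j := by
      intro s
      have := h5 s
      have h8 := mem_corner (R := R) (s := s) (c := (i, j)) h1 h2 h3 h4
      simp only at h8
      rw [h8] at this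
      push Not at this
      exact this
    have k1 := key (false, false)
    have k2 := key (true, false)
    have k3 := key (false, true)
    have k4 := key (true, true)
    simp only [rx, Bool.false_eq_true, if_false, if_true] at k1 k2 k3 k4
    rcases gap_main h h1 h2 hc k1 (by obtain ⟨d, hd, ha, hb⟩ := k2; exact ⟨d, hd, by omega, hb⟩)
      (by obtain ⟨d, hd, ha, hb⟩ := k3; exact ⟨d, hd, ha, by omega⟩)
      (by obtain ⟨d, hd, ha, hb⟩ := k4; exact ⟨d, hd, by omega, by omega⟩) with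
      ⟨y1, y2, ha, hb, hy1, hy2⟩ | ⟨x1, x2, ha, hb, hy1, hy2⟩
    · obtain ⟨g, hg, g1, g2, g3⟩ := exists_vg hc ha hb hy1 hy2
      exact h7 g hg ⟨g1, g2, g3⟩
    · obtain ⟨g, hg, g1, g2, g3⟩ := exists_hg hc ha hb hy1 hy2
      exact h6 g hg ⟨g1, g2, g3⟩
  · intro hc
    rw [Finset.mem_coe] at hc
    obtain ⟨h1, h2, h3, h4⟩ := h.sub _ hc
    refine ⟨h1, h2, h3, h4, ?_, ?_, ?_⟩
    · intro s hs
      rw [mem_corner h1 h2 h3 h4] at hs
      exact hs _ hc ⟨le_rfl, le_rfl⟩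
    · rintro g hg1 ⟨g1, g2, g3⟩
      simp only [hg, Finset.mem_filter, Finset.mem_product] at hg1
      have := hg1.2.2.2 _ hc g1.symm
      simp only at this g2 g3
      omega
    · rintro g hg1 ⟨g1, g2, g3⟩
      simp only [vg, Finset.mem_filter, Finset.mem_product] at hg1
      have := hg1.2.2.2 _ hc g1.symm
      simp only at this g2 g3
      omega

end Pool.Agent.Helper739
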