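import Pool.Agent.Helper739.SAPCode

namespace Pool.Agent.Helper739

/-- the box `[0,a) × [0,b)` -/
noncomputable def boxF (a b : ℕ) : Finset (ℤ × ℤ) := Finset.Ico 0 (a : ℤ) ×ˢ Finset.Ico 0 (b : ℤ)

lemma card_boxF (a b : ℕ) : (boxF a b).card = a * b := by
  simp [boxF]

lemma mem_boxF {a b : ℕ} {c : ℤ × ℤ} : c ∈ boxF a b ↔ 0 ≤ c.1 ∧ c.1 < a ∧ 0 ≤ c.2 ∧ c.2 < b := by
  simp only [boxF, Finset.mem_product, Finset.mem_Ico]
  tauto

/-- the cells of the box covered by the diagram `μ` placed at the corner `s` -/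
noncomputable def place (a b : ℕ) (s : Bool × Bool) (μ : YoungDiagram) : Finset (ℤ × ℤ) :=
  (boxF a b).filter (fun c => ((rx a s.1 c.1).toNat, (rx b s.2 c.2).toNat) ∈ μ)

lemma rx_rx (a : ℕ) (s : Bool) (x : ℤ) : rx a s (rx a s x) = x := by
  unfold rx
  split_ifs <;> ring

lemma card_place {a b : ℕ} {s : Bool × Bool} {μ : YoungDiagram}
    (h : ∀ p ∈ μ, p.1 < a ∧ p.2 < b) : (place a b s μ).card = μ.card := by
  unfold place YoungDiagram.card
  apply Finset.card_nbij' (fun c => ((rx a s.1 c.1).toNat, (rx b s.2 c.2).toNat))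
    (fun p => (rx a s.1 p.1, rx b s.2 p.2))
  · intro c hc
    simp only [Finset.coe_filter, Set.mem_ofPred_eq] at hc
    exact hc.2
  · intro p hp
    have hp' : p ∈ μ := hp
    have := h p hp'
    have e1 := rx_nonneg (a := a) (s := s.1) (x := p.1) (by omega) (by omega)
    have e2 := rx_nonneg (a := b) (s := s.2) (x := p.2) (by omega) (by omega)
    have e3 := rx_lt (a := a) (s := s.1) (x := p.1) (by omega) (by omega)
    have e4 := rx_lt (a := b) (s := s.2) (x := p.2) (by omega) (by omega)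
    simp only [Finset.coe_filter, Set.mem_ofPred_eq, mem_boxF, rx_rx, Int.toNat_natCast]
    exact ⟨⟨e1, e3, e2, e4⟩, hp'⟩
  · intro c hc
    simp only [Finset.coe_filter, Set.mem_ofPred_eq, mem_boxF] at hc
    obtain ⟨⟨h1, h2, h3, h4⟩, -⟩ := hc
    have e1 := rx_nonneg (s := s.1) h1 h2
    have e2 := rx_nonneg (s := s.2) h3 h4
    simp only [Int.toNat_of_nonneg e1, Int.toNat_of_nonneg e2, rx_rx]
  · intro p hp
    simp only [rx_rx, Int.toNat_natCast]

lemma corner_sub {R : Finset (ℤ × ℤ)} {a b : ℕ} {s : Bool × Bool} :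
    ∀ p ∈ corner R a b s, p.1 < a ∧ p.2 < b := by
  intro p hp
  rw [← YoungDiagram.mem_cells] at hp
  simp only [corner, Finset.mem_filter, Finset.mem_product, Finset.mem_range] at hp
  exact hp.1

lemma mem_place_corner {R : Finset (ℤ × ℤ)} {a b : ℕ} {s : Bool × Bool} {c : ℤ × ℤ} :
    c ∈ place a b s (corner R a b s) ↔ c ∈ boxF a b ∧
      ∀ d ∈ R, ¬ (rx a s.1 d.1 ≤ rx a s.1 c.1 ∧ rx b s.2 d.2 ≤ rx b s.2 c.2) := by
  unfold place
  rw [Finset.mem_filter]
  constructor
  · rintro ⟨h1, h2⟩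
    have h3 := mem_boxF.1 h1
    exact ⟨h1, (mem_corner h3.1 h3.2.1 h3.2.2.1 h3.2.2.2).1 h2⟩
  · rintro ⟨h1, h2⟩
    have h3 := mem_boxF.1 h1
    exact ⟨h1, (mem_corner h3.1 h3.2.1 h3.2.2.1 h3.2.2.2).2 h2⟩

lemma corner_disj {R : Finset (ℤ × ℤ)} {a b : ℕ} (h : Box R a b) {s t : Bool × Bool} (hst : s ≠ t) :
    Disjoint (place a b s (corner R a b s)) (place a b t (corner R a b t)) := by
  rw [Finset.disjoint_left]
  rintro ⟨i, j⟩ h1 h2
  rw [mem_place_corner] at h1 h2
  obtain ⟨hb, h1⟩ := h1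
  obtain ⟨-, h2⟩ := h2
  rw [mem_boxF] at hb
  simp only at hb h1 h2
  obtain ⟨y, hy⟩ := h.col i hb.1 hb.2.1
  obtain ⟨x, hx⟩ := h.row j hb.2.2.1 hb.2.2.2
  have a1 := h1 _ hy
  have a2 := h2 _ hy
  have a3 := h1 _ hx
  have a4 := h2 _ hx
  obtain ⟨s1, s2⟩ := s
  obtain ⟨t1, t2⟩ := t
  cases s1 <;> cases s2 <;> cases t1 <;> cases t2 <;>
    simp [rx] at a1 a2 a3 a4 hst <;> omega

lemma corner_disj_R {R : Finset (ℤ × ℤ)} {a b : ℕ} {s : Bool × Bool} :
    Disjoint (place a b s (corner R a b s)) R := by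
  rw [Finset.disjoint_left]
  intro c h1 h2
  rw [mem_place_corner] at h1
  exact h1.2 c h2 ⟨le_rfl, le_rfl⟩

lemma card_corner_le {R : Finset (ℤ × ℤ)} {a b : ℕ} (h : Box R a b) :
    R.card + ∑ s : Bool × Bool, (corner R a b s).card ≤ a * b := by
  classical
  have h1 : ∑ s : Bool × Bool, (corner R a b s).card =
      (Finset.univ.biUnion (fun s : Bool × Bool => place a b s (corner R a b s))).card := by
    rw [Finset.card_biUnion]
    · exact Finset.sum_congr rfl (fun s _ => (card_place corner_sub).symm)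
    · intro s _ t _ hst
      exact corner_disj h hst
  rw [h1, ← Finset.card_union_of_disjoint, ← card_boxF]
  · apply Finset.card_le_card
    apply Finset.union_subset
    · intro c hc
      rw [mem_boxF]
      exact h.sub c hc
    · intro c hc
      rw [Finset.mem_biUnion] at hc
      obtain ⟨s, -, hc⟩ := hc
      unfold place at hc
      exact (Finset.mem_filter.1 hc).1
  · rw [Finset.disjoint_right]
    intro c hc
    rw [Finset.mem_biUnion] at hc
    obtain ⟨s, -, hc⟩ := hc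
    intro hc2
    exact Finset.disjoint_left.1 corner_disj_R hc hc2

lemma card_corner_eq {R : Finset (ℤ × ℤ)} {a b : ℕ} (h : Box R a b) (hh : hg R = ∅) (hv : vg R = ∅) :
    R.card + ∑ s : Bool × Bool, (corner R a b s).card = a * b := by
  classical
  have h1 : ∑ s : Bool × Bool, (corner R a b s).card =
      (Finset.univ.biUnion (fun s : Bool × Bool => place a b s (corner R a b s))).card := by
    rw [Finset.card_biUnion]
    · exact Finset.sum_congr rfl (fun s _ => (card_place corner_sub).symm)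
    · intro s _ t _ hst
      exact corner_disj h hst
  rw [h1, ← Finset.card_union_of_disjoint, ← card_boxF]
  · congr 1
    apply Finset.Subset.antisymm
    · apply Finset.union_subset
      · intro c hc
        rw [mem_boxF]
        exact h.sub c hc
      · intro c hc
        rw [Finset.mem_biUnion] at hc
        obtain ⟨s, -, hc⟩ := hc
        unfold place at hc
        exact (Finset.mem_filter.1 hc).1
    · intro c hc
      rw [Finset.mem_union]
      by_cases hR : c ∈ R
      · exact Or.inl hR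
      · right
        rw [Finset.mem_biUnion]
        by_contra hcon
        push Not at hcon
        apply hR
        have hd := decode_eq h
        rw [← Finset.mem_coe, ← hd, hh, hv]
        rw [mem_boxF] at hc
        refine ⟨hc.1, hc.2.1, hc.2.2.1, hc.2.2.2, ?_, by simp, by simp⟩
        intro s hs
        apply hcon s (Finset.mem_univ _)
        unfold place
        rw [Finset.mem_filter, mem_boxF]
        exact ⟨hc, hs⟩
  · rw [Finset.disjoint_right]
    intro c hc
    rw [Finset.mem_biUnion] at hc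
    obtain ⟨s, -, hc⟩ := hc
    intro hc2
    exact Finset.disjoint_left.1 corner_disj_R hc hc2

lemma parReg_nonneg {n : ℕ} {f : ZMod n → ℤ × ℤ} (h : Good f) {i j : ℤ}
    (hc : (i, j) ∈ parReg (edges f)) : 0 ≤ i ∧ 0 ≤ j := by
  classical
  constructor
  · by_contra hi
    simp only [parReg, Set.mem_ofPred_eq] at hc
    rw [cnt_neg _ (by omega)] at hc
    simp at hc
  · by_contra hj
    simp only [parReg, Set.mem_ofPred_eq, cnt] at hc
    have : (Finset.Icc 0 i).filter (fun x => s((x, j), (x, j + 1)) ∈ edges f) = ∅ := by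
      rw [Finset.filter_eq_empty_iff]
      intro x _ hP
      have := h.edge_nonneg hP
      simp only at this
      omega
    rw [Finset.card_eq_zero.2 this] at hc
    simp at hc

lemma bd_ge {S : Set (ℤ × ℤ)} {k l : ℤ} (h : ∀ c ∈ S, k ≤ c.1 ∧ l ≤ c.2) {u w : ℤ × ℤ}
    (he : s(u, w) ∈ bd S) : k ≤ u.1 ∧ l ≤ u.2 := by
  obtain ⟨x, y, ⟨h1, h2⟩ | ⟨h1, h2⟩⟩ := he
  · have h3 : k ≤ x ∧ l ≤ y := by
      by_cases h4 : (x, y) ∈ S
      · exact h _ h4
      · have h5 : (x - 1, y) ∈ S := by tauto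
        have := h _ h5
        simp only at this
        omega
    rw [Sym2.eq_iff] at h1
    rcases h1 with ⟨rfl, rfl⟩ | ⟨rfl, rfl⟩ <;> simp only <;> omega
  · have h3 : k ≤ x ∧ l ≤ y := by
      by_cases h4 : (x, y) ∈ S
      · exact h _ h4
      · have h5 : (x, y - 1) ∈ S := by tauto
        have := h _ h5
        simp only at this
        omega
    rw [Sym2.eq_iff] at h1
    rcases h1 with ⟨rfl, rfl⟩ | ⟨rfl, rfl⟩ <;> simp only <;> omega

/-- The structure theorem: every self-avoiding polygon bounds a region with a code. -/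
lemma sap_region {m : ℕ} {P : Set (Sym2 (ℤ × ℤ))} (hP : IsSAP m P) :
    ∃ (R : Finset (ℤ × ℤ)) (a b : ℕ), Box R a b ∧ bd (R : Set (ℤ × ℤ)) = P ∧ enclosed P = R ∧
      (hg R).card + (vg R).card + a + b ≤ m ∧ 1 ≤ a ∧ 1 ≤ b := by
  obtain ⟨hm, f, hinj, hadj, rfl, hnn, ⟨i0, hi0⟩, ⟨j0, hj0⟩⟩ := hP
  have hf : Good f := { len := by omega, inj := hinj, adj := hadj, nonneg := hnn }
  have hbd := hf.bd_parReg
  have hfin := hf.parReg_finite
  have henc := hf.enclosed_eq
  have hconn := hf.conn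
  have hnonneg := fun i j => parReg_nonneg hf (i := i) (j := j)
  have hcardE := hf.toCyc.ncard_edges
  change ∃ (R : Finset (ℤ × ℤ)) (a b : ℕ), Box R a b ∧ bd (R : Set (ℤ × ℤ)) = edges f ∧
    enclosed (edges f) = R ∧ (hg R).card + (vg R).card + a + b ≤ m ∧ 1 ≤ a ∧ 1 ≤ b
  obtain ⟨R, hR⟩ : ∃ R : Finset (ℤ × ℤ), (R : Set (ℤ × ℤ)) = parReg (edges f) :=
    ⟨hfin.toFinset, by simp⟩
  rw [← hR] at hbd henc hconn
  have hnn' : ∀ c ∈ R, 0 ≤ c.1 ∧ 0 ≤ c.2 := by
    intro c hc
    rw [← Finset.mem_coe, hR] at hc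
    exact hnonneg c.1 c.2 hc
  have hedge : ∀ i, s(f i, f (i + 1)) ∈ bd (R : Set (ℤ × ℤ)) := by
    intro i; rw [hbd]; exact ⟨i, rfl⟩
  have hne : R.Nonempty := by
    rw [Finset.nonempty_iff_ne_empty]
    rintro rfl
    have := hedge 0
    simp [bd] at this
  -- cells touching the axes
  obtain ⟨c0, hc0, hc0x⟩ : ∃ c ∈ R, c.1 = 0 := by
    by_contra hcon
    push Not at hcon
    have := bd_ge (S := (R : Set (ℤ × ℤ))) (k := 1) (l := 0) (by
      intro c hc
      have h1 := hnn' c hc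
      have h2 := hcon c hc
      omega) (hedge i0)
    omega
  obtain ⟨d0, hd0, hd0y⟩ : ∃ c ∈ R, c.2 = 0 := by
    by_contra hcon
    push Not at hcon
    have := bd_ge (S := (R : Set (ℤ × ℤ))) (k := 0) (l := 1) (by
      intro c hc
      have h1 := hnn' c hc
      have h2 := hcon c hc
      omega) (hedge j0)
    omega
  obtain ⟨c1, hc1, hmax1⟩ := R.exists_max_image (fun c => c.1) hne
  obtain ⟨d1, hd1, hmax2⟩ := R.exists_max_image (fun c => c.2) hne
  have hc1' := hnn' _ hc1
  have hd1' := hnn' _ hd1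
  have hbox : Box R (c1.1 + 1).toNat (d1.2 + 1).toNat := by
    refine ⟨?_, ?_, ?_, hconn⟩
    · intro c hc
      have h1 := hmax1 c hc
      have h2 := hmax2 c hc
      have h3 := hnn' c hc
      refine ⟨h3.1, by omega, h3.2, by omega⟩
    · intro i hi0 hi1
      have h1 : (c0.1, c0.2) ∈ (R : Set (ℤ × ℤ)) := hc0
      have h2 : (c1.1, c1.2) ∈ (R : Set (ℤ × ℤ)) := hc1
      exact conn_col hconn h1 h2 (by omega) (by omega)
    · intro i hi0 hi1
      have h1 : (d0.1, d0.2) ∈ (R : Set (ℤ × ℤ)) := hd0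
      have h2 : (d1.1, d1.2) ∈ (R : Set (ℤ × ℤ)) := hd1
      exact conn_row hconn h1 h2 (by omega) (by omega)
  refine ⟨R, _, _, hbox, hbd, henc, ?_, by omega, by omega⟩
  have h1 := hg_card hbox
  have h2 := vg_card hbox
  have h3 := ncard_bd R
  rw [hbd, hcardE] at h3
  omega

end Pool.Agent.Helper739
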