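import Pool.Agent.Helper739.SAPDefs

namespace Pool.Agent.Helper739

/-- Number of missing cells of a configuration `x = (t, μ)`: here `μ` gives a Young diagram for each
of the four corners of a rectangle (the cells cut off there) and the integer `t` gives the shape of
the rectangle, with side lengths `n - t` and `n + ε + t` (`ε = 0` or `1`), whose area falls short of
`n * (n + ε)` by `t * (t + ε)`. -/
def miss (ε : ℕ) (x : ℤ × (Bool × Bool → YoungDiagram)) : ℕ :=
  (x.1 * (x.1 + ε)).toNat + ∑ s, (x.2 s).card

/-- The number of configurations with `k` missing cells. -/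
noncomputable def conf (ε k : ℕ) : ℕ := {x | miss ε x = k}.ncard

/-- The limit law on `ℕ`: weight `q⁻¹ ^ k` for every configuration with `k` missing cells,
normalised to total mass one. -/
noncomputable def law (ε : ℕ) (q : ℝ) (k : ℕ) : ℝ :=
  (conf ε k : ℝ) * q⁻¹ ^ k / ∑' j : ℕ, (conf ε j : ℝ) * q⁻¹ ^ j

end Pool.Agent.Helper739
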