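import Pool.Agent.Helper739.SAPFlip

namespace Pool.Agent.Helper739

/-- the boundary of the rectangle `[0,a] × [0,b]`, counterclockwise -/
def rectPt (a b k : ℤ) : ℤ × ℤ :=
  if k ≤ a then (k, 0) else if k ≤ a + b then (a, k - a) else
    if k ≤ 2 * a + b then (2 * a + b - k, b) else (0, 2 * a + 2 * b - k)

lemma rectPt_inj {a b k l : ℤ} (ha : 1 ≤ a) (hb : 1 ≤ b) (hk0 : 0 ≤ k) (hk : k < 2 * (a + b))
    (hl0 : 0 ≤ l) (hl : l < 2 * (a + b)) (h : rectPt a b k = rectPt a b l) : k = l := by
  unfold rectPt at h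
  split_ifs at h <;> simp only [Prod.mk.injEq] at h <;> omega

lemma rectPt_adj {a b k : ℤ} (ha : 1 ≤ a) (hb : 1 ≤ b) (hk0 : 0 ≤ k) (hk : k < 2 * (a + b)) :
    |(rectPt a b (k + 1)).1 - (rectPt a b k).1| + |(rectPt a b (k + 1)).2 - (rectPt a b k).2| = 1 := by
  unfold rectPt
  split_ifs <;> simp only <;> first
    | omega
    | (rw [abs_of_nonneg, abs_of_nonneg] <;> omega)
    | (rw [abs_of_nonpos, abs_of_nonpos] <;> omega)

lemma rectPt_bd {a b : ℕ} {k : ℤ} (ha : 1 ≤ a) (hb : 1 ≤ b) (hk0 : 0 ≤ k) (hk : k < 2 * (a + b)) :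
    s(rectPt a b k, rectPt a b (k + 1)) ∈ bd (boxF a b : Set (ℤ × ℤ)) := by
  by_cases h1 : k < a
  · have e1 : rectPt a b k = (k, 0) := by unfold rectPt; rw [if_pos (by omega)]
    have e2 : rectPt a b (k + 1) = (k + 1, 0) := by unfold rectPt; rw [if_pos (by omega)]
    rw [e1, e2, mem_bd_horiz]
    simp only [Finset.mem_coe, mem_boxF]
    omega
  by_cases h2 : k < a + b
  · have e1 : rectPt a b k = ((a : ℤ), k - a) := by
      unfold rectPt
      split_ifs <;> first | (exfalso; omega) | (apply Prod.ext <;> (try simp only) <;> omega)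
    have e2 : rectPt a b (k + 1) = ((a : ℤ), k - a + 1) := by
      unfold rectPt
      split_ifs <;> first | (exfalso; omega) | (apply Prod.ext <;> (try simp only) <;> omega)
    rw [e1, e2, mem_bd_vert]
    simp only [Finset.mem_coe, mem_boxF]
    omega
  by_cases h3 : k < 2 * a + b
  · have e1 : rectPt a b k = ((2 * a + b - k - 1) + 1, (b : ℤ)) := by
      unfold rectPt
      split_ifs <;> first | (exfalso; omega) | (apply Prod.ext <;> (try simp only) <;> omega)
    have e2 : rectPt a b (k + 1) = (2 * a + b - k - 1, (b : ℤ)) := by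
      unfold rectPt
      split_ifs <;> first | (exfalso; omega) | (apply Prod.ext <;> (try simp only) <;> omega)
    rw [e1, e2, Sym2.eq_swap, mem_bd_horiz]
    simp only [Finset.mem_coe, mem_boxF]
    omega
  · have e1 : rectPt a b k = (0, (2 * a + 2 * b - k - 1) + 1) := by
      unfold rectPt
      split_ifs <;> first | (exfalso; omega) | (apply Prod.ext <;> (try simp only) <;> omega)
    have e2 : rectPt a b (k + 1) = (0, 2 * a + 2 * b - k - 1) := by
      unfold rectPt
      split_ifs <;> first | (exfalso; omega) | (apply Prod.ext <;> (try simp only) <;> omega)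
    rw [e1, e2, Sym2.eq_swap, mem_bd_vert]
    simp only [Finset.mem_coe, mem_boxF]
    omega

lemma rectPt_nonneg {a b : ℕ} {k : ℤ} (hk0 : 0 ≤ k) (hk : k < 2 * (a + b)) :
    0 ≤ (rectPt a b k).1 ∧ 0 ≤ (rectPt a b k).2 := by
  unfold rectPt
  split_ifs <;> simp only <;> omega

lemma card_LE_box {a b : ℕ} (ha : 1 ≤ a) : (LE (boxF a b)).card = b := by
  have : LE (boxF a b) = boxF 1 b := by
    ext c
    simp only [LE, Finset.mem_filter, mem_boxF]
    push_cast
    omega
  rw [this, card_boxF, one_mul]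

lemma card_BE_box {a b : ℕ} (hb : 1 ≤ b) : (BE (boxF a b)).card = a := by
  have : BE (boxF a b) = boxF a 1 := by
    ext c
    simp only [BE, Finset.mem_filter, mem_boxF]
    push_cast
    omega
  rw [this, card_boxF, mul_one]

/-- rectangles are polygons -/
lemma rect_good {a b m : ℕ} (ha : 1 ≤ a) (hb : 1 ≤ b) (hm : a + b = m) :
    ∃ f : ZMod (2 * m) → ℤ × ℤ, Good f ∧ bd (boxF a b : Set (ℤ × ℤ)) = edges f := by
  subst hm
  have hn : NeZero (2 * (a + b)) := ⟨by omega⟩
  let f : ZMod (2 * (a + b)) → ℤ × ℤ := fun i => rectPt a b (i.val : ℤ)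
  have hval : ∀ i : ZMod (2 * (a + b)), (0 : ℤ) ≤ i.val ∧ (i.val : ℤ) < 2 * (a + b) := by
    intro i
    have := ZMod.val_lt i
    omega
  have hsucc : ∀ i : ZMod (2 * (a + b)), f (i + 1) = rectPt a b ((i.val : ℤ) + 1) := by
    intro i
    have h1 : (i + 1).val = (i.val + 1) % (2 * (a + b)) := by
      rw [ZMod.val_add, ZMod.val_one'' (by omega)]
    simp only [f]
    have h2 := ZMod.val_lt i
    rcases Nat.lt_or_ge (i.val + 1) (2 * (a + b)) with h3 | h3
    · rw [h1, Nat.mod_eq_of_lt h3]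
      push_cast; rfl
    · have h4 : i.val + 1 = 2 * (a + b) := by omega
      rw [h1, h4, Nat.mod_self]
      have h5 : (i.val : ℤ) + 1 = 2 * (a + b) := by
        exact_mod_cast h4
      rw [h5]
      unfold rectPt
      split_ifs <;> first | (exfalso; push_cast at *; omega) | (apply Prod.ext <;> (try simp only) <;> (try push_cast) <;> omega)
  have hgood : Good f := by
    refine { len := by omega, inj := ?_, adj := ?_, nonneg := ?_ }
    · intro i j hij
      apply ZMod.val_injective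
      have := rectPt_inj (a := a) (b := b) (by omega) (by omega) (hval i).1 (hval i).2 (hval j).1 (hval j).2 hij
      exact_mod_cast this
    · intro i
      rw [hsucc]
      exact rectPt_adj (by omega) (by omega) (hval i).1 (hval i).2
    · intro i
      exact rectPt_nonneg (hval i).1 (hval i).2
  refine ⟨f, hgood, ?_⟩
  have hsub : edges f ⊆ bd (boxF a b : Set (ℤ × ℤ)) := by
    rintro _ ⟨i, rfl⟩
    simp only
    rw [hsucc]
    exact rectPt_bd ha hb (hval i).1 (hval i).2
  symm
  refine Set.eq_of_subset_of_ncard_le hsub ?_ ?_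
  · rw [ncard_bd, card_LE_box ha, card_BE_box hb, hgood.toCyc.ncard_edges]
    omega
  · rw [bd_eq]
    exact Finset.finite_toSet _

/-- recognising a polygon from a good walk and its region -/
lemma isSAP_of_good {m : ℕ} {f : ZMod (2 * m) → ℤ × ℤ} (h : Good f) {R : Finset (ℤ × ℤ)}
    (hR : bd (R : Set (ℤ × ℤ)) = edges f) (hm : 2 ≤ m) (h0 : ∀ c ∈ R, 0 ≤ c.1 ∧ 0 ≤ c.2)
    (h1 : ∃ y, ((0 : ℤ), y) ∈ R) (h2 : ∃ x, (x, (0 : ℤ)) ∈ R) :
    IsSAP m (bd (R : Set (ℤ × ℤ))) ∧ enclosed (bd (R : Set (ℤ × ℤ))) = R := by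
  constructor
  · refine ⟨hm, f, h.inj, h.adj, hR, h.nonneg, ?_, ?_⟩
    · obtain ⟨y, hy⟩ := h1
      have h3 : s(((0 : ℤ), y), (0, y + 1)) ∈ bd (R : Set (ℤ × ℤ)) := by
        rw [mem_bd_vert]
        intro hcon
        have h4 := hcon.2 hy
        have := h0 _ h4
        simp only at this
        omega
      rw [hR] at h3
      obtain ⟨i, hi⟩ := mem_edges_range h3
      exact ⟨i, by rw [hi]⟩
    · obtain ⟨x, hx⟩ := h2
      have h3 : s((x, (0 : ℤ)), (x + 1, 0)) ∈ bd (R : Set (ℤ × ℤ)) := by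
        rw [mem_bd_horiz]
        intro hcon
        have h4 := hcon.2 hx
        have := h0 _ h4
        simp only at this
        omega
      rw [hR] at h3
      obtain ⟨i, hi⟩ := mem_edges_range h3
      exact ⟨i, by rw [hi]⟩
  · rw [hR, h.enclosed_eq]
    exact bd_inj h.parReg_finite (Finset.finite_toSet R) (h.bd_parReg.trans hR.symm)

end Pool.Agent.Helper739
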