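import Pool.Agent.Helper739.SAPUnif
import Pool.Agent.Helper739.SAPRect

namespace Pool.Agent.Helper739

open Filter MeasureTheory ProbabilityTheory

/-- the finite set of polygons of half-perimeter `m` -/
noncomputable def saps (m : ℕ) : Finset (Set (Sym2 (ℤ × ℤ))) := (sap_finite m).toFinset

lemma mem_saps {m : ℕ} {P : Set (Sym2 (ℤ × ℤ))} : P ∈ saps m ↔ IsSAP m P := by
  simp [saps]

lemma area_le {m : ℕ} {P : Set (Sym2 (ℤ × ℤ))} (h : IsSAP m P) : area P ≤ m ^ 2 / 4 :=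
  (sap_code h (τ := 0) (by simp)).1

open Classical in
lemma p_eq (m n : ℕ) : p m n = ((saps m).filter (fun P => area P = n)).card := by
  unfold p
  rw [← Set.ncard_coe_finset]
  congr 1
  ext P
  simp [mem_saps]

lemma tsum_p (m : ℕ) (h : ℕ → ℝ) : ∑' n : ℕ, (p m n : ℝ) * h n = ∑ P ∈ saps m, h (area P) := by
  classical
  rw [Finset.sum_comp h area, tsum_eq_sum (s := (saps m).image area)]
  · apply Finset.sum_congr rfl
    intro n _
    rw [p_eq, nsmul_eq_mul]
  · intro n hn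
    have : p m n = 0 := by
      rw [p_eq, Finset.card_eq_zero, Finset.filter_eq_empty_iff]
      intro P hP hcon
      exact hn (Finset.mem_image.2 ⟨P, hP, hcon⟩)
    rw [this]; simp

/-- partition function -/
noncomputable def Z (q : ℝ) (m : ℕ) : ℝ := ∑ P ∈ saps m, q ^ area P

lemma Z_eq (q : ℝ) (m : ℕ) : ∑' k : ℕ, (p m k : ℝ) * q ^ k = Z q m :=
  tsum_p m (fun n => q ^ n)

lemma prob_eq (q : ℝ) (m n : ℕ) : prob q m n = (p m n : ℝ) * q ^ n / Z q m := by
  unfold prob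
  rw [Z_eq]

/-- the rectangle attains the maximal area -/
lemma exists_max {m : ℕ} (hm : 2 ≤ m) : ∃ P, IsSAP m P ∧ area P = m ^ 2 / 4 := by
  obtain ⟨a, b, ha, hb, hab, hprod⟩ : ∃ a b : ℕ, 1 ≤ a ∧ 1 ≤ b ∧ a + b = m ∧ a * b = m ^ 2 / 4 := by
    rcases Nat.even_or_odd m with ⟨k, hk⟩ | ⟨k, hk⟩
    · refine ⟨k, k, by omega, by omega, by omega, ?_⟩
      rw [hk, show (k + k) ^ 2 = 4 * (k * k) by ring]
      omega
    · refine ⟨k, k + 1, by omega, by omega, by omega, ?_⟩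
      rw [hk, show (2 * k + 1) ^ 2 = 4 * (k * (k + 1)) + 1 by ring]
      omega
  obtain ⟨f, hf, hbd⟩ := rect_good ha hb hab
  obtain ⟨h1, h2⟩ := isSAP_of_good hf hbd hm
    (by intro c hc; rw [mem_boxF] at hc; exact ⟨hc.1, hc.2.2.1⟩)
    ⟨0, by rw [mem_boxF]; simp only; omega⟩ ⟨0, by rw [mem_boxF]; simp only; omega⟩
  refine ⟨_, h1, ?_⟩
  unfold area
  rw [h2, Set.ncard_coe_finset, card_boxF, hprod]

lemma Z_pos {q : ℝ} (hq : 0 < q) {m : ℕ} (hm : 2 ≤ m) : 0 < Z q m := by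
  obtain ⟨P, hP, -⟩ := exists_max hm
  exact Finset.sum_pos (fun P _ => pow_pos hq _) ⟨P, mem_saps.2 hP⟩

/-- The maximal area has probability bounded below. -/
lemma prob_max {q : ℝ} (hq : 1 < q) :
    ∃ δ : ℝ, 0 < δ ∧ ∀ m : ℕ, 2 ≤ m → δ ≤ prob q m (m ^ 2 / 4) := by
  have hq0 : 0 < q := by linarith
  obtain ⟨C, hC, hb⟩ := unif_bound (s := q⁻¹) (inv_pos.2 hq0) (inv_lt_one_of_one_lt₀ hq)
  refine ⟨1 / C, by positivity, ?_⟩
  intro m hm
  have h1 := hb m (by omega) (saps m) (fun P hP => mem_saps.1 hP)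
  have h2 : Z q m = q ^ (m ^ 2 / 4) * ∑ P ∈ saps m, q⁻¹ ^ (m ^ 2 / 4 - area P) := by
    unfold Z
    rw [Finset.mul_sum]
    apply Finset.sum_congr rfl
    intro P hP
    have h3 := area_le (mem_saps.1 hP)
    have h4 : q ^ (m ^ 2 / 4) = q ^ area P * q ^ (m ^ 2 / 4 - area P) := by
      rw [← pow_add]; congr 1; omega
    rw [h4, mul_assoc, ← mul_pow, mul_inv_cancel₀ hq0.ne', one_pow, mul_one]
  have h5 : 1 ≤ p m (m ^ 2 / 4) := by
    classical
    obtain ⟨P, hP, hPa⟩ := exists_max hm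
    rw [p_eq, Nat.succ_le_iff, Finset.card_pos]
    exact ⟨P, Finset.mem_filter.2 ⟨mem_saps.2 hP, hPa⟩⟩
  rw [prob_eq, div_le_div_iff₀ hC (Z_pos hq0 hm), one_mul, h2]
  have h6 : (1 : ℝ) ≤ p m (m ^ 2 / 4) := by exact_mod_cast h5
  calc q ^ (m ^ 2 / 4) * ∑ P ∈ saps m, q⁻¹ ^ (m ^ 2 / 4 - area P)
      ≤ q ^ (m ^ 2 / 4) * C := by gcongr
    _ = 1 * q ^ (m ^ 2 / 4) * C := by ring
    _ ≤ (p m (m ^ 2 / 4) : ℝ) * q ^ (m ^ 2 / 4) * C := by gcongr

lemma prob_nonneg {q : ℝ} (hq : 0 < q) (m n : ℕ) : 0 ≤ prob q m n := by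
  rw [prob_eq]
  apply div_nonneg (by positivity)
  exact Finset.sum_nonneg (fun P _ => (pow_pos hq _).le)

lemma distFun_eq {q : ℝ} (m : ℕ) (y : ℝ) :
    distFun q m y = (∑ P ∈ saps m, if (area P : ℝ) ≤ y then q ^ area P else 0) / Z q m := by
  unfold distFun
  have h1 : ∀ n : ℕ, (if (n : ℝ) ≤ y then prob q m n else 0) =
      ((p m n : ℝ) * (if (n : ℝ) ≤ y then q ^ n else 0)) / Z q m := by
    intro n
    rw [prob_eq]
    split_ifs <;> simp
  simp_rw [h1]
  rw [tsum_div_const, tsum_p m (fun n => if (n : ℝ) ≤ y then q ^ n else 0)]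

/-- The distribution function jumps from at most `1 - δ` to `1`. -/
lemma distFun_jump {q : ℝ} (hq : 1 < q) :
    ∃ δ : ℝ, 0 < δ ∧ ∀ m : ℕ, 2 ≤ m → ∀ y : ℝ, distFun q m y = 1 ∨ distFun q m y ≤ 1 - δ := by
  classical
  have hq0 : 0 < q := by linarith
  obtain ⟨δ, hδ, h⟩ := prob_max hq
  refine ⟨δ, hδ, fun m hm y => ?_⟩
  have hZ := Z_pos hq0 hm
  rw [distFun_eq]
  by_cases hy : ((m ^ 2 / 4 : ℕ) : ℝ) ≤ y
  · left
    rw [div_eq_one_iff_eq hZ.ne']
    unfold Z
    apply Finset.sum_congr rfl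
    intro P hP
    have h3 := area_le (mem_saps.1 hP)
    rw [if_pos]
    exact le_trans (by exact_mod_cast h3) hy
  · right
    have h4 := h m hm
    rw [prob_eq, p_eq] at h4
    have h5 : (((saps m).filter (fun P => area P = m ^ 2 / 4)).card : ℝ) * q ^ (m ^ 2 / 4) =
        ∑ P ∈ saps m, if area P = m ^ 2 / 4 then q ^ area P else 0 := by
      rw [← Finset.sum_filter, ← nsmul_eq_mul, ← Finset.sum_const]
      apply Finset.sum_congr rfl
      intro P hP
      rw [(Finset.mem_filter.1 hP).2]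
    rw [h5] at h4
    have h6 : (∑ P ∈ saps m, if (area P : ℝ) ≤ y then q ^ area P else 0) +
        (∑ P ∈ saps m, if area P = m ^ 2 / 4 then q ^ area P else 0) ≤ Z q m := by
      unfold Z
      rw [← Finset.sum_add_distrib]
      apply Finset.sum_le_sum
      intro P _
      have h7 : 0 < q ^ area P := pow_pos hq0 _
      by_cases h8 : area P = m ^ 2 / 4
      · rw [if_pos h8, if_neg]
        · simp
        · rw [h8]; exact hy
      · rw [if_neg h8]
        split_ifs <;> linarith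
    rw [le_div_iff₀ hZ] at h4
    rw [div_le_iff₀ hZ]
    linarith

lemma gaussian_cdf_lt_one (x : ℝ) : cdf (gaussianReal 0 1) x < 1 := by
  rw [cdf_eq_real]
  have h1 : (gaussianReal 0 1) (Set.Ioi x) ≠ 0 := by
    intro h
    have h2 := gaussianReal_absolutelyContinuous' 0 (v := 1) one_ne_zero h
    simp at h2
  have h3 : (gaussianReal 0 1).real (Set.Iic x) + (gaussianReal 0 1).real (Set.Ioi x) = 1 := by
    rw [← measureReal_union (by
      rw [Set.disjoint_left]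
      intro y hy hy2
      simp only [Set.mem_Iic, Set.mem_Ioi] at hy hy2
      linarith) measurableSet_Ioi, Set.Iic_union_Ioi]
    simp
  have h4 : 0 < (gaussianReal 0 1).real (Set.Ioi x) := by
    rw [measureReal_def]
    exact ENNReal.toReal_pos h1 (measure_ne_top _ _)
  linarith

/-- No normalisation of the area converges in distribution to the standard normal law. -/
theorem not_gaussian {q : ℝ} (hq : 1 < q) (c s : ℕ → ℝ) :
    ¬ ∀ x : ℝ, Tendsto (fun m => distFun q m (c m + s m * x)) atTop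
      (nhds (cdf (gaussianReal 0 1) x)) := by
  intro hcon
  obtain ⟨δ, hδ, hj⟩ := distFun_jump hq
  have h1 : ∀ᶠ x in atTop, 1 - δ < cdf (gaussianReal 0 1) x :=
    (tendsto_cdf_atTop (gaussianReal 0 1)).eventually (lt_mem_nhds (by linarith))
  obtain ⟨x, hx⟩ := h1.exists
  have h2 := gaussian_cdf_lt_one x
  have h3 := hcon x
  have h4 : ∀ᶠ m in atTop, 1 - δ < distFun q m (c m + s m * x) ∧ distFun q m (c m + s m * x) < 1 :=
    (h3.eventually (lt_mem_nhds hx)).and (h3.eventually (gt_mem_nhds h2))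
  obtain ⟨m, hm, h5⟩ := ((eventually_ge_atTop 2).and h4).exists
  rcases hj m hm (c m + s m * x) with h6 | h6 <;> linarith [h5.1, h5.2]

end Pool.Agent.Helper739
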