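import Pool.Agent.Helper739.SAPExact
import Pool.Agent.Helper739.SAPProb
import Pool.Agent.Helper739.SAPLimitDefs

namespace Pool.Agent.Helper739

lemma card_Rg {K a b : ℕ} {μ : Bool × Bool → YoungDiagram} (hμ : Small K μ) (ha : 2 * K + 2 ≤ a)
    (hb : 2 * K + 2 ≤ b) : (Rg a b μ).card + ∑ s, (μ s).card = a * b := by
  classical
  have h1 : ∑ s : Bool × Bool, (μ s).card =
      (Finset.univ.biUnion (fun s : Bool × Bool => place a b s (μ s))).card := by
    rw [Finset.card_biUnion]
    · apply Finset.sum_congr rfl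
      intro s _
      rw [card_place]
      intro p hp
      have := hμ s p hp
      omega
    · intro s _ t _ hst
      show Disjoint (place a b s (μ s)) (place a b t (μ t))
      rw [Finset.disjoint_left]
      rintro ⟨x, y⟩ h1 h2
      unfold place at h1 h2
      rw [Finset.mem_filter, mem_boxF] at h1 h2
      have h3 := hμ s _ h1.2
      have h4 := hμ t _ h2.2
      obtain ⟨⟨e1, e2, e3, e4⟩, -⟩ := h1
      obtain ⟨s1, s2⟩ := s
      obtain ⟨t1, t2⟩ := t
      cases s1 <;> cases s2 <;> cases t1 <;> cases t2 <;>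
          simp [rx] at e1 e2 e3 e4 h3 h4 hst <;> omega
  rw [h1, ← Finset.card_union_of_disjoint, ← card_boxF]
  · congr 1
    ext c
    simp only [Finset.mem_union, Finset.mem_biUnion, Finset.mem_univ, true_and, mem_Rg, place,
      Finset.mem_filter]
    constructor
    · rintro (h | ⟨s, h⟩)
      · exact h.1
      · exact h.1
    · intro h
      by_cases h2 : ∀ s, cd a b s c ∉ μ s
      · exact Or.inl ⟨h, h2⟩
      · push Not at h2
        obtain ⟨s, hs⟩ := h2
        exact Or.inr ⟨s, h, hs⟩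
  · rw [Finset.disjoint_left]
    intro c hc hc2
    rw [Finset.mem_biUnion] at hc2
    obtain ⟨s, -, hs⟩ := hc2
    unfold place at hs
    rw [Finset.mem_filter] at hs
    exact (mem_Rg.1 hc).2 s hs.2

lemma Rg_sap {K a b m : ℕ} {μ : Bool × Bool → YoungDiagram} (ha : 2 * K + 2 ≤ a)
    (hb : 2 * K + 2 ≤ b) (hm : a + b = m) (hμ : ∑ s, (μ s).card ≤ K) :
    IsSAP m (bd (Rg a b μ : Set (ℤ × ℤ))) ∧
      area (bd (Rg a b μ : Set (ℤ × ℤ))) + ∑ s, (μ s).card = a * b := by
  have hsmall := small_of_sum hμ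
  obtain ⟨f, hf, hbd⟩ := Rg_good ha hb hm _ hμ μ rfl
  have h0 : ∀ c ∈ Rg a b μ, 0 ≤ c.1 ∧ 0 ≤ c.2 := by
    intro c hc
    rw [mem_Rg, mem_boxF] at hc
    exact ⟨hc.1.1, hc.1.2.2.1⟩
  have h1 : ((0 : ℤ), (K : ℤ)) ∈ Rg a b μ := by
    rw [near hsmall ha hb (s := (false, false)) (by simp [rx]) (by simp [rx]) (by simp [rx])
      (by simp [rx])]
    intro hcon
    have := hsmall _ _ hcon
    simp [cd, rx] at this
  have h2 : ((K : ℤ), (0 : ℤ)) ∈ Rg a b μ := by
    rw [near hsmall ha hb (s := (false, false)) (by simp [rx]) (by simp [rx]) (by simp [rx])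
      (by simp [rx])]
    intro hcon
    have := hsmall _ _ hcon
    simp [cd, rx] at this
  obtain ⟨h3, h4⟩ := isSAP_of_good hf hbd (by omega) h0 ⟨_, h1⟩ ⟨_, h2⟩
  refine ⟨h3, ?_⟩
  unfold area
  rw [h4, Set.ncard_coe_finset]
  exact card_Rg hsmall ha hb

lemma Rg_inj {K a b a' b' : ℕ} {μ ν : Bool × Bool → YoungDiagram} (ha : 2 * K + 2 ≤ a)
    (hb : 2 * K + 2 ≤ b) (ha' : 2 * K + 2 ≤ a') (hb' : 2 * K + 2 ≤ b')
    (hμ : ∑ s, (μ s).card ≤ K) (hν : ∑ s, (ν s).card ≤ K)
    (h : bd (Rg a b μ : Set (ℤ × ℤ)) = bd (Rg a' b' ν : Set (ℤ × ℤ))) : a = a' ∧ b = b' ∧ μ = ν := by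
  have hsμ := small_of_sum hμ
  have hsν := small_of_sum hν
  have hR : Rg a b μ = Rg a' b' ν := by
    have := bd_inj (Finset.finite_toSet _) (Finset.finite_toSet _) h
    exact_mod_cast this
  -- extreme cells
  have ext1 : ∀ {a b : ℕ} {μ : Bool × Bool → YoungDiagram}, 2 * K + 2 ≤ a → 2 * K + 2 ≤ b →
      Small K μ → ((a : ℤ) - 1, (K : ℤ)) ∈ Rg a b μ ∧ ((K : ℤ), (b : ℤ) - 1) ∈ Rg a b μ := by
    intro a b μ ha hb hs
    constructor
    · rw [near hs ha hb (s := (true, false)) (by simp [rx]) (by simp [rx]) (by simp [rx])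
        (by simp [rx])]
      intro hcon
      have := hs _ _ hcon
      simp [cd, rx] at this
    · rw [near hs ha hb (s := (false, true)) (by simp [rx]) (by simp [rx]) (by simp [rx])
        (by simp [rx])]
      intro hcon
      have := hs _ _ hcon
      simp [cd, rx] at this
  have e1 := ext1 ha hb hsμ
  have e2 := ext1 ha' hb' hsν
  rw [hR, mem_Rg, mem_Rg, mem_boxF, mem_boxF] at e1
  rw [← hR, mem_Rg, mem_Rg, mem_boxF, mem_boxF] at e2
  have haa : a = a' := by
    have f1 := e1.1.1.2.1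
    have f2 := e2.1.1.2.1
    simp only at f1 f2
    omega
  have hbb : b = b' := by
    have f1 := e1.2.1.2.2.2
    have f2 := e2.2.1.2.2.2
    simp only at f1 f2
    omega
  subst haa hbb
  refine ⟨rfl, rfl, ?_⟩
  funext s
  ext p
  rw [YoungDiagram.mem_cells, YoungDiagram.mem_cells]
  by_cases hp : p.1 ≤ K ∧ p.2 ≤ K
  · have k1 := near hsμ ha hb (s := s) (c := (rx a s.1 p.1, rx b s.2 p.2))
      (by simp only [rx_rx]; omega) (by simp only [rx_rx]; omega) (by simp only [rx_rx]; omega)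
      (by simp only [rx_rx]; omega)
    have k2 := near hsν ha hb (s := s) (c := (rx a s.1 p.1, rx b s.2 p.2))
      (by simp only [rx_rx]; omega) (by simp only [rx_rx]; omega) (by simp only [rx_rx]; omega)
      (by simp only [rx_rx]; omega)
    have k3 : cd a b s (rx a s.1 p.1, rx b s.2 p.2) = p := by
      simp only [cd, rx_rx, Int.toNat_natCast]
    rw [k3] at k1 k2
    rw [hR, k2] at k1
    tauto
  · constructor
    · intro hcon
      have := hsμ s p hcon
      omega
    · intro hcon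
      have := hsν s p hcon
      omega

lemma m_sq {n ε : ℕ} (hε : ε ≤ 1) : (2 * n + ε) ^ 2 / 4 = n * (n + ε) := by
  rcases (show ε = 0 ∨ ε = 1 by omega) with rfl | rfl
  · rw [show (2 * n + 0) ^ 2 = 4 * (n * (n + 0)) by ring]
    omega
  · rw [show (2 * n + 1) ^ 2 = 4 * (n * (n + 1)) + 1 by ring]
    omega

/-- For large `n`, the polygons with `k` missing cells correspond to the configurations. -/
lemma count_eq {n ε k : ℕ} (hε : ε ≤ 1) (hn : 10 * k + 10 ≤ n) :
    p (2 * n + ε) (n * (n + ε) - k) = conf ε k := by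
  unfold p conf
  symm
  have hkn : k ≤ n * (n + ε) := by nlinarith
  have ht : ∀ t : ℤ, (t * (t + ε)).toNat ≤ k → -(k + 1 : ℤ) ≤ t ∧ t ≤ k + 1 := by
    intro t ht
    have h1 : t * (t + ε) ≤ k := by omega
    have h2 : (0 : ℤ) ≤ ε := by positivity
    have h3 : (ε : ℤ) ≤ 1 := by exact_mod_cast hε
    constructor
    · by_contra h4
      push Not at h4
      nlinarith
    · by_contra h4
      push Not at h4
      nlinarith
  have hnn : ∀ t : ℤ, 0 ≤ t * (t + ε) := by
    intro t
    rcases (show ε = 0 ∨ ε = 1 by omega) with rfl | rfl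
    · simp only [Nat.cast_zero, add_zero]; exact mul_self_nonneg t
    · push_cast
      rcases le_or_gt 0 t with h | h
      · positivity
      · nlinarith
  refine Set.ncard_congr (fun x _ => bd (Rg ((n : ℤ) - x.1).toNat ((n : ℤ) + ε + x.1).toNat x.2 : Set (ℤ × ℤ)))
    ?_ ?_ ?_
  · rintro ⟨t, μ⟩ hx
    simp only [Set.mem_ofPred_eq, miss] at hx
    have h1 := ht t (by omega)
    have hsum : ∑ s, (μ s).card ≤ k := by omega
    have hab : (((n : ℤ) - t).toNat * ((n : ℤ) + ε + t).toNat : ℕ) + (t * (t + ε)).toNat = n * (n + ε) := by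
      have e1 : (0 : ℤ) ≤ (n : ℤ) - t := by omega
      have e2 : (0 : ℤ) ≤ (n : ℤ) + ε + t := by omega
      zify
      rw [Int.toNat_of_nonneg e1, Int.toNat_of_nonneg e2, Int.toNat_of_nonneg (hnn t)]
      ring
    obtain ⟨h2, h3⟩ := Rg_sap (K := k) (a := ((n : ℤ) - t).toNat) (b := ((n : ℤ) + ε + t).toNat)
      (m := 2 * n + ε) (μ := μ) (by omega) (by omega) (by omega) hsum
    refine ⟨h2, ?_⟩
    simp only
    omega
  · rintro ⟨t, μ⟩ ⟨t', μ'⟩ hx hx' heq
    simp only [Set.mem_ofPred_eq, miss] at hx hx'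
    have h1 := ht t (by omega)
    have h1' := ht t' (by omega)
    have hs1 : ∑ s, (μ s).card ≤ k := by omega
    have hs2 : ∑ s, (μ' s).card ≤ k := by omega
    obtain ⟨h2, h3, h4⟩ := Rg_inj (K := k) (μ := μ) (ν := μ') (by omega) (by omega) (by omega)
      (by omega) hs1 hs2 heq
    simp only [Prod.mk.injEq]
    exact ⟨by omega, h4⟩
  · rintro P ⟨hP, hPa⟩
    obtain ⟨R, a, b, hbox, hbd, henc, hcard, ha, hb⟩ := sap_region hP
    have harea : area P = R.card := by
      unfold area
      rw [henc, Set.ncard_coe_finset]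
    have h1 := card_corner_le hbox
    obtain ⟨h2, h3⟩ := arith_bound (h := (hg R).card) (v := (vg R).card) (a := a) (b := b)
      (m := 2 * n + ε) (n := R.card) (k := ∑ s : Bool × Bool, (corner R a b s).card) hcard h1
    rw [m_sq hε] at h2 h3
    have h4 : n * (n + ε) - R.card = k := by omega
    rw [h4] at h3
    have h5 : 2 * n + ε - a - b = 0 := by
      by_contra h6
      have h7 : 1 ≤ 2 * n + ε - a - b := by omega
      have h8 : 2 * n + ε ≤ (2 * n + ε - a - b) * (2 * n + ε) := Nat.le_mul_of_pos_left _ h7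
      omega
    have hhg : hg R = ∅ := by
      rw [← Finset.card_eq_zero]; omega
    have hvg : vg R = ∅ := by
      rw [← Finset.card_eq_zero]; omega
    have h6 := card_corner_eq hbox hhg hvg
    have hRR : Rg a b (corner R a b) = R := by
      have h7 := decode_eq hbox
      rw [hhg, hvg] at h7
      rw [← Finset.coe_inj, ← h7]
      ext c
      rw [Finset.mem_coe, mem_Rg, mem_boxF]
      simp only [decode, cd, Set.mem_ofPred_eq]
      constructor
      · rintro ⟨⟨e1, e2, e3, e4⟩, e5⟩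
        exact ⟨e1, e2, e3, e4, e5, by simp, by simp⟩
      · rintro ⟨e1, e2, e3, e4, e5, -, -⟩
        exact ⟨⟨e1, e2, e3, e4⟩, e5⟩
    have hab : a + b = 2 * n + ε := by omega
    refine ⟨((n : ℤ) - a, corner R a b), ?_, ?_⟩
    · simp only [Set.mem_ofPred_eq, miss]
      have e1 := hnn ((n : ℤ) - a)
      have e2 : ((n : ℤ) - a) * ((n : ℤ) - a + ε) = n * (n + ε) - a * b := by
        have : (b : ℤ) = 2 * n + ε - a := by omega
        rw [this]; ring
      rw [e2] at e1 ⊢
      have e3 : ((a * b : ℕ) : ℤ) = a * b := by push_cast; ring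
      have e4 : ((n * (n + ε) : ℕ) : ℤ) = n * (n + ε) := by push_cast; ring
      rw [← e3, ← e4] at e1 ⊢
      omega
    · simp only
      have e1 : ((n : ℤ) - ((n : ℤ) - a)).toNat = a := by
        rw [show (n : ℤ) - ((n : ℤ) - a) = a by ring]; simp
      have e2 : ((n : ℤ) + ε + ((n : ℤ) - a)).toNat = b := by omega
      rw [e1, e2, hRR, hbd]

end Pool.Agent.Helper739
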