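import Mathlib

namespace Pool.Agent.Helper739

/-- `IsSAP m P`: the set `P` of lattice edges is a self-avoiding polygon on `ℤ²` with `2m` edges
(half-perimeter `m`), placed so that its smallest `x`-coordinate and its smallest `y`-coordinate
are both `0`. Every polygon has exactly one translate of this kind, so these sets of edges are the
self-avoiding polygons of half-perimeter `m` up to translation (unrooted and unoriented). -/
def IsSAP (m : ℕ) (P : Set (Sym2 (ℤ × ℤ))) : Prop :=
  2 ≤ m ∧ ∃ f : ZMod (2 * m) → ℤ × ℤ,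
    Function.Injective f ∧
    (∀ i, |(f (i + 1)).1 - (f i).1| + |(f (i + 1)).2 - (f i).2| = 1) ∧
    P = Set.range (fun i => s(f i, f (i + 1))) ∧
    (∀ i, 0 ≤ (f i).1 ∧ 0 ≤ (f i).2) ∧ (∃ i, (f i).1 = 0) ∧ (∃ i, (f i).2 = 0)

/-- The unit square with lower left corner `(x, y)` is called `(x, y)`. `Pass P c d` says that
`c` and `d` are unit squares with a common side and that this side is not an edge of `P`. -/
def Pass (P : Set (Sym2 (ℤ × ℤ))) (c d : ℤ × ℤ) : Prop :=
  (d = (c.1 + 1, c.2) ∧ s((c.1 + 1, c.2), (c.1 + 1, c.2 + 1)) ∉ P) ∨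
  (d = (c.1 - 1, c.2) ∧ s((c.1, c.2), (c.1, c.2 + 1)) ∉ P) ∨
  (d = (c.1, c.2 + 1) ∧ s((c.1, c.2 + 1), (c.1 + 1, c.2 + 1)) ∉ P) ∨
  (d = (c.1, c.2 - 1) ∧ s((c.1, c.2), (c.1 + 1, c.2)) ∉ P)

/-- The unit squares enclosed by `P`: those from which only finitely many unit squares can be
reached by moving from square to square without crossing `P`. -/
def enclosed (P : Set (Sym2 (ℤ × ℤ))) : Set (ℤ × ℤ) :=
  {c | {d | Relation.ReflTransGen (Pass P) c d}.Finite}

/-- The area of a polygon: the number of unit squares it encloses. -/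
noncomputable def area (P : Set (Sym2 (ℤ × ℤ))) : ℕ := (enclosed P).ncard

/-- `p m n`: the number of self-avoiding polygons of half-perimeter `m` and area `n`,
up to translation. -/
noncomputable def p (m n : ℕ) : ℕ := {P : Set (Sym2 (ℤ × ℤ)) | IsSAP m P ∧ area P = n}.ncard

/-- The probability `ℙ(X_m = n)` in the fixed perimeter ensemble with parameter `q`. -/
noncomputable def prob (q : ℝ) (m n : ℕ) : ℝ :=
  (p m n : ℝ) * q ^ n / ∑' k : ℕ, (p m k : ℝ) * q ^ k

/-- The distribution function `y ↦ ℙ(X_m ≤ y)` of the area `X_m` in the fixed perimeter ensemble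
with parameter `q`. -/
noncomputable def distFun (q : ℝ) (m : ℕ) (y : ℝ) : ℝ :=
  ∑' n : ℕ, if (n : ℝ) ≤ y then prob q m n else 0

end Pool.Agent.Helper739
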