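import Pool.Agent.Helper739.SAPRect

namespace Pool.Agent.Helper739

/-- coordinates of a cell seen from the corner `s` of the box -/
def cd (a b : ℕ) (s : Bool × Bool) (c : ℤ × ℤ) : ℕ × ℕ := ((rx a s.1 c.1).toNat, (rx b s.2 c.2).toNat)

/-- the box with the four diagrams removed at its corners -/
noncomputable def Rg (a b : ℕ) (μ : Bool × Bool → YoungDiagram) : Finset (ℤ × ℤ) :=
  (boxF a b).filter (fun c => ∀ s, cd a b s c ∉ μ s)

lemma mem_Rg {a b : ℕ} {μ : Bool × Bool → YoungDiagram} {c : ℤ × ℤ} :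
    c ∈ Rg a b μ ↔ c ∈ boxF a b ∧ ∀ s, cd a b s c ∉ μ s := by
  unfold Rg
  rw [Finset.mem_filter]

lemma lt_card_of_mem {μ : YoungDiagram} {p : ℕ × ℕ} (h : p ∈ μ) : p.1 < μ.card ∧ p.2 < μ.card := by
  constructor
  · have h1 : (Finset.range (p.1 + 1)).image (fun i => (i, p.2)) ⊆ μ.cells := by
      intro c hc
      rw [Finset.mem_image] at hc
      obtain ⟨i, hi, rfl⟩ := hc
      rw [Finset.mem_range] at hi
      exact μ.up_left_mem (by omega) le_rfl h
    have h2 := Finset.card_le_card h1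
    rw [Finset.card_image_of_injective _ (by
      intro i j hij
      simp only [Prod.mk.injEq] at hij
      exact hij.1), Finset.card_range] at h2
    have h3 : μ.card = μ.cells.card := rfl
    omega
  · have h1 : (Finset.range (p.2 + 1)).image (fun i => (p.1, i)) ⊆ μ.cells := by
      intro c hc
      rw [Finset.mem_image] at hc
      obtain ⟨i, hi, rfl⟩ := hc
      rw [Finset.mem_range] at hi
      exact μ.up_left_mem le_rfl (by omega) h
    have h2 := Finset.card_le_card h1
    rw [Finset.card_image_of_injective _ (by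
      intro i j hij
      simp only [Prod.mk.injEq] at hij
      exact hij.2), Finset.card_range] at h2
    have h3 : μ.card = μ.cells.card := rfl
    omega

/-- all diagrams fit into a `K × K` square -/
def Small (K : ℕ) (μ : Bool × Bool → YoungDiagram) : Prop := ∀ s, ∀ p ∈ μ s, p.1 < K ∧ p.2 < K

lemma small_of_sum {K : ℕ} {μ : Bool × Bool → YoungDiagram} (h : ∑ s, (μ s).card ≤ K) : Small K μ := by
  intro s p hp
  have h1 : (μ s).card ≤ ∑ s, (μ s).card :=
    Finset.single_le_sum (f := fun s => (μ s).card) (fun _ _ => Nat.zero_le _) (Finset.mem_univ s)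
  have h2 := lt_card_of_mem hp
  omega

lemma near {K a b : ℕ} {μ : Bool × Bool → YoungDiagram} (hμ : Small K μ) (ha : 2 * K + 2 ≤ a)
    (hb : 2 * K + 2 ≤ b) {s : Bool × Bool} {c : ℤ × ℤ}
    (h1 : 0 ≤ rx a s.1 c.1) (h2 : rx a s.1 c.1 ≤ K) (h3 : 0 ≤ rx b s.2 c.2) (h4 : rx b s.2 c.2 ≤ K) :
    c ∈ Rg a b μ ↔ cd a b s c ∉ μ s := by
  rw [mem_Rg]
  constructor
  · intro h; exact h.2 s
  · intro h
    constructor
    · rw [mem_boxF]
      unfold rx at h1 h2 h3 h4
      split_ifs at h1 h2 h3 h4 <;> omega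
    · intro t
      by_cases hts : t = s
      · rw [hts]; exact h
      · intro hcon
        have h5 := hμ t _ hcon
        obtain ⟨s1, s2⟩ := s
        obtain ⟨t1, t2⟩ := t
        obtain ⟨x, y⟩ := c
        cases s1 <;> cases s2 <;> cases t1 <;> cases t2 <;>
          simp [rx, cd] at h1 h2 h3 h4 h5 hts <;> omega

/-- remove a corner cell from a diagram -/
def eraseCell (μ : YoungDiagram) (p : ℕ × ℕ) (hp : ∀ r ∈ μ, r.1 + r.2 ≤ p.1 + p.2) : YoungDiagram where
  cells := μ.cells.erase p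
  isLowerSet := by
    intro r q hqr hr
    rw [Finset.mem_coe, Finset.mem_erase] at hr ⊢
    have h1 : r ∈ μ := hr.2
    have h2 : q ∈ μ.cells := μ.isLowerSet hqr hr.2
    refine ⟨?_, h2⟩
    rintro rfl
    have h3 := hp r h1
    have h4 : q.1 ≤ r.1 := hqr.1
    have h5 : q.2 ≤ r.2 := hqr.2
    apply hr.1
    ext <;> omega

lemma mem_eraseCell {μ : YoungDiagram} {p : ℕ × ℕ} {hp : ∀ r ∈ μ, r.1 + r.2 ≤ p.1 + p.2} {r : ℕ × ℕ} :
    r ∈ eraseCell μ p hp ↔ r ≠ p ∧ r ∈ μ := by
  rw [← YoungDiagram.mem_cells, ← YoungDiagram.mem_cells]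
  exact Finset.mem_erase

lemma card_eraseCell {μ : YoungDiagram} {p : ℕ × ℕ} {hp : ∀ r ∈ μ, r.1 + r.2 ≤ p.1 + p.2}
    (h : p ∈ μ) : (eraseCell μ p hp).card + 1 = μ.card := by
  unfold YoungDiagram.card eraseCell
  exact Finset.card_erase_add_one h

lemma Rg_bot {a b : ℕ} {μ : Bool × Bool → YoungDiagram} (h : ∀ s, μ s = ⊥) : Rg a b μ = boxF a b := by
  unfold Rg
  rw [Finset.filter_true_of_mem]
  intro c _ s
  rw [h s]
  exact YoungDiagram.notMem_bot _

/-- boxes with small corners removed are bounded by closed self-avoiding walks -/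
lemma Rg_good {K a b m : ℕ} (ha : 2 * K + 2 ≤ a) (hb : 2 * K + 2 ≤ b) (hm : a + b = m) :
    ∀ n ≤ K, ∀ μ : Bool × Bool → YoungDiagram, ∑ s, (μ s).card = n →
      ∃ f : ZMod (2 * m) → ℤ × ℤ, Good f ∧ bd (Rg a b μ : Set (ℤ × ℤ)) = edges f := by
  classical
  intro n
  induction n with
  | zero =>
    intro _ μ hμ
    have h1 : ∀ s, μ s = ⊥ := by
      intro s
      have h2 : (μ s).card = 0 := by
        have := Finset.sum_eq_zero_iff.1 hμ s (Finset.mem_univ s)
        exact this
      have h3 : (μ s).cells = ∅ := Finset.card_eq_zero.1 h2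
      ext c
      rw [h3]; simp
    rw [Rg_bot h1]
    exact rect_good (by omega) (by omega) hm
  | succ n ih =>
    intro hn μ hμ
    have hsmall : Small K μ := small_of_sum (by omega)
    obtain ⟨s, hs⟩ : ∃ s, 0 < (μ s).card := by
      by_contra hcon
      push Not at hcon
      have : ∑ s, (μ s).card = 0 := Finset.sum_eq_zero (fun s _ => by have := hcon s; omega)
      omega
    obtain ⟨p, hp, hmax⟩ := (μ s).cells.exists_max_image (fun p => p.1 + p.2) (Finset.card_pos.1 hs)
    have hp' : p ∈ μ s := hp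
    have hmax' : ∀ r ∈ μ s, r.1 + r.2 ≤ p.1 + p.2 := fun r hr => hmax r hr
    have hpK := hsmall s p hp'
    set ν := Function.update μ s (eraseCell (μ s) p hmax') with hν
    have hνs : ∀ r, r ∈ ν s ↔ r ≠ p ∧ r ∈ μ s := by
      intro r
      rw [hν, Function.update_self]
      exact mem_eraseCell
    have hνt : ∀ t, t ≠ s → ν t = μ t := by
      intro t ht
      rw [hν, Function.update_of_ne ht]
    have hνsub : ∀ t r, r ∈ ν t → r ∈ μ t := by
      intro t r hr
      by_cases ht : t = s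
      · subst ht; exact ((hνs r).1 hr).2
      · rw [hνt t ht] at hr; exact hr
    have hνsmall : Small K ν := fun t r hr => hsmall t r (hνsub t r hr)
    have hνsum : ∑ t, (ν t).card = n := by
      have h1 : ∑ t, (μ t).card = (μ s).card + ∑ t ∈ Finset.univ.erase s, (μ t).card :=
        (Finset.add_sum_erase _ _ (Finset.mem_univ s)).symm
      have h2 : ∑ t, (ν t).card = (ν s).card + ∑ t ∈ Finset.univ.erase s, (ν t).card :=
        (Finset.add_sum_erase _ _ (Finset.mem_univ s)).symm
      have h3 : ∑ t ∈ Finset.univ.erase s, (ν t).card = ∑ t ∈ Finset.univ.erase s, (μ t).card :=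
        Finset.sum_congr rfl (fun t ht => by rw [hνt t (Finset.mem_erase.1 ht).1])
      have h4 : (ν s).card + 1 = (μ s).card := by
        rw [hν, Function.update_self]
        exact card_eraseCell hp'
      omega
    obtain ⟨f, hf, hbd⟩ := ih (by omega) ν hνsum
    -- the cell
    set x := rx a s.1 p.1 with hx
    set y := rx b s.2 p.2 with hy
    have hRg : (Rg a b μ : Set (ℤ × ℤ)) = (Rg a b ν : Set (ℤ × ℤ)) \ {(x, y)} := by
      ext c
      simp only [Finset.mem_coe, Set.mem_sdiff, Set.mem_singleton_iff]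
      rw [mem_Rg, mem_Rg]
      constructor
      · rintro ⟨h1, h2⟩
        refine ⟨⟨h1, fun t hcon => h2 t (hνsub t _ hcon)⟩, ?_⟩
        rintro rfl
        apply h2 s
        simp only [cd, hx, hy, rx_rx, Int.toNat_natCast]
        exact hp'
      · rintro ⟨⟨h1, h2⟩, h3⟩
        refine ⟨h1, fun t hcon => ?_⟩
        by_cases ht : t = s
        · subst ht
          have h4 := h2 t
          rw [hνs] at h4
          have h5 : cd a b t c = p := by
            by_contra h6
            exact h4 ⟨h6, hcon⟩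
          apply h3
          rw [mem_boxF] at h1
          have e1 := rx_nonneg (s := t.1) h1.1 h1.2.1
          have e2 := rx_nonneg (s := t.2) h1.2.2.1 h1.2.2.2
          have e3 : (p.1 : ℤ) = rx a t.1 c.1 := by
            rw [← h5]; simp only [cd]; exact Int.toNat_of_nonneg e1
          have e4 : (p.2 : ℤ) = rx b t.2 c.2 := by
            rw [← h5]; simp only [cd]; exact Int.toNat_of_nonneg e2
          ext
          · simp only [hx, e3, rx_rx]
          · simp only [hy, e4, rx_rx]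
        · apply h2 t
          rw [hνt t ht]; exact hcon
    rw [hRg]
    -- membership of neighbouring cells
    have key : ∀ u v : ℤ, 0 ≤ rx a s.1 u → rx a s.1 u ≤ K → 0 ≤ rx b s.2 v → rx b s.2 v ≤ K →
        ((u, v) ∈ (Rg a b ν : Set (ℤ × ℤ)) ↔
          ¬ (((rx a s.1 u).toNat, (rx b s.2 v).toNat) ≠ p ∧
            ((rx a s.1 u).toNat, (rx b s.2 v).toNat) ∈ μ s)) := by
      intro u v h1 h2 h3 h4
      rw [Finset.mem_coe, near hνsmall ha hb (s := s) (c := (u, v)) h1 h2 h3 h4, hνs]
      rfl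
    have hout : ∀ u v : ℤ, rx a s.1 u < 0 ∨ rx b s.2 v < 0 → (u, v) ∉ (Rg a b ν : Set (ℤ × ℤ)) := by
      intro u v h1 h2
      rw [Finset.mem_coe, mem_Rg, mem_boxF] at h2
      have e1 := rx_nonneg (s := s.1) h2.1.1 h2.1.2.1
      have e2 := rx_nonneg (s := s.2) h2.1.2.2.1 h2.1.2.2.2
      simp only at e1 e2
      omega
    obtain ⟨xv, xw, xo, xi, hxx, hxo, hxi⟩ : ∃ xv xw xo xi : ℤ,
        ((xv = x ∧ xw = x + 1 ∧ xo = x - 1 ∧ xi = x + 1) ∨
        (xv = x + 1 ∧ xw = x ∧ xo = x + 1 ∧ xi = x - 1)) ∧ rx a s.1 xo = p.1 - 1 ∧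
        rx a s.1 xi = p.1 + 1 := by
      by_cases h : s.1 = true
      · refine ⟨x + 1, x, x + 1, x - 1, Or.inr ⟨rfl, rfl, rfl, rfl⟩, ?_, ?_⟩ <;>
          simp only [hx, rx, h, if_true] <;> ring
      · refine ⟨x, x + 1, x - 1, x + 1, Or.inl ⟨rfl, rfl, rfl, rfl⟩, ?_, ?_⟩ <;>
          simp only [hx, rx, h, if_false, Bool.false_eq_true]
    obtain ⟨yv, yw, yo, yi, hyy, hyo, hyi⟩ : ∃ yv yw yo yi : ℤ,
        ((yv = y ∧ yw = y + 1 ∧ yo = y - 1 ∧ yi = y + 1) ∨
        (yv = y + 1 ∧ yw = y ∧ yo = y + 1 ∧ yi = y - 1)) ∧ rx b s.2 yo = p.2 - 1 ∧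
        rx b s.2 yi = p.2 + 1 := by
      by_cases h : s.2 = true
      · refine ⟨y + 1, y, y + 1, y - 1, Or.inr ⟨rfl, rfl, rfl, rfl⟩, ?_, ?_⟩ <;>
          simp only [hy, rx, h, if_true] <;> ring
      · refine ⟨y, y + 1, y - 1, y + 1, Or.inl ⟨rfl, rfl, rfl, rfl⟩, ?_, ?_⟩ <;>
          simp only [hy, rx, h, if_false, Bool.false_eq_true]
    have hxx' : rx a s.1 x = p.1 := by rw [hx, rx_rx]
    have hyy' : rx b s.2 y = p.2 := by rw [hy, rx_rx]
    -- outward cells are outside, inward cells inside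
    have outw : ∀ u v : ℤ, rx a s.1 u ≤ p.1 → rx b s.2 v ≤ p.2 → (rx a s.1 u < p.1 ∨ rx b s.2 v < p.2) →
        (u, v) ∉ (Rg a b ν : Set (ℤ × ℤ)) := by
      intro u v h1 h2 h3
      by_cases h4 : rx a s.1 u < 0 ∨ rx b s.2 v < 0
      · exact hout u v h4
      · push Not at h4
        rw [key u v h4.1 (by omega) h4.2 (by omega), not_not]
        constructor
        · intro h5
          rw [← h5] at h3 hxx' hyy'
          simp only at h3
          omega
        · exact (μ s).up_left_mem (by omega) (by omega) hp'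
    have inw : ∀ u v : ℤ, p.1 ≤ rx a s.1 u → p.2 ≤ rx b s.2 v → rx a s.1 u ≤ p.1 + 1 →
        rx b s.2 v ≤ p.2 + 1 → (u, v) ∈ (Rg a b ν : Set (ℤ × ℤ)) := by
      intro u v h1 h2 h3 h4
      rw [key u v (by omega) (by omega) (by omega) (by omega)]
      rintro ⟨h5, h6⟩
      have h7 := hmax' _ h6
      simp only at h7
      apply h5
      ext <;> simp only <;> omega
    exact flip hf hbd hxx hyy (inw _ _ (by omega) (by omega) (by omega) (by omega))
      (outw _ _ (by omega) (by omega) (by omega)) (outw _ _ (by omega) (by omega) (by omega))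
      (outw _ _ (by omega) (by omega) (by omega)) (inw _ _ (by omega) (by omega) (by omega) (by omega))
      (inw _ _ (by omega) (by omega) (by omega) (by omega))
      (inw _ _ (by omega) (by omega) (by omega) (by omega)) (Finset.finite_toSet _)

end Pool.Agent.Helper739
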