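import Pool.Agent.Helper739.SAPCorner

namespace Pool.Agent.Helper739

lemma mem_edges_range {n : ℕ} {f : ZMod n → ℤ × ℤ} {u w : ℤ × ℤ} (h : s(u, w) ∈ edges f) :
    u ∈ Set.range f := by
  obtain ⟨i, hi⟩ := h
  simp only [Sym2.eq_iff] at hi
  rcases hi with ⟨h1, -⟩ | ⟨-, h1⟩
  · exact ⟨_, h1⟩
  · exact ⟨_, h1⟩

/-- replacing one vertex of a closed walk -/
lemma Good.update {n : ℕ} {f : ZMod n → ℤ × ℤ} (h : Good f) {i : ZMod n} {v' w1 w2 : ℤ × ℤ}
    (hw : (f (i + 1) = w1 ∧ f (i - 1) = w2) ∨ (f (i + 1) = w2 ∧ f (i - 1) = w1))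
    (hv' : v' ∉ Set.range f)
    (h1 : |v'.1 - w1.1| + |v'.2 - w1.2| = 1) (h2 : |v'.1 - w2.1| + |v'.2 - w2.2| = 1)
    (hnn : 0 ≤ v'.1 ∧ 0 ≤ v'.2) :
    Good (Function.update f i v') ∧
    (∀ u w, s(u, w) ∈ edges f → u ≠ f i → w ≠ f i → s(u, w) ∈ edges (Function.update f i v')) ∧
    s(v', w1) ∈ edges (Function.update f i v') ∧ s(v', w2) ∈ edges (Function.update f i v') := by
  have hne1 : i + 1 ≠ i := by
    intro hcon
    have h0 := h.adj i
    rw [hcon] at h0
    simp at h0
  have hne2 : i - 1 ≠ i := by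
    intro hcon
    apply hne1
    nth_rw 1 [← hcon]
    ring
  have hadj1 : |v'.1 - (f (i + 1)).1| + |v'.2 - (f (i + 1)).2| = 1 := by
    rcases hw with ⟨e1, -⟩ | ⟨e1, -⟩ <;> rw [e1] <;> assumption
  have hadj2 : |v'.1 - (f (i - 1)).1| + |v'.2 - (f (i - 1)).2| = 1 := by
    rcases hw with ⟨-, e1⟩ | ⟨-, e1⟩ <;> rw [e1] <;> assumption
  have e1 : s(v', f (i + 1)) ∈ edges (Function.update f i v') := by
    refine ⟨i, ?_⟩
    simp only [Function.update_self, Function.update_of_ne hne1]
  have e2 : s(v', f (i - 1)) ∈ edges (Function.update f i v') := by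
    refine ⟨i - 1, ?_⟩
    simp only [sub_add_cancel, Function.update_self, Function.update_of_ne hne2]
    exact Sym2.eq_swap
  refine ⟨{ len := h.len, inj := ?_, adj := ?_, nonneg := ?_ }, ?_, ?_, ?_⟩
  · intro j k hjk
    by_cases hj : j = i
    · subst hj
      by_cases hk : k = j
      · exact hk.symm
      · rw [Function.update_self, Function.update_of_ne hk] at hjk
        exact absurd ⟨k, hjk.symm⟩ hv'
    · by_cases hk : k = i
      · subst hk
        rw [Function.update_self, Function.update_of_ne hj] at hjk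
        exact absurd ⟨j, hjk⟩ hv'
      · rw [Function.update_of_ne hj, Function.update_of_ne hk] at hjk
        exact h.inj hjk
  · intro j
    by_cases hj : j = i
    · subst hj
      rw [Function.update_self, Function.update_of_ne hne1, abs_sub_comm, abs_sub_comm (f (j + 1)).2]
      exact hadj1
    · by_cases hk : j + 1 = i
      · have : j = i - 1 := by rw [← hk]; ring
        rw [Function.update_of_ne hj, hk, Function.update_self, this]
        exact hadj2
      · rw [Function.update_of_ne hj, Function.update_of_ne hk]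
        exact h.adj j
  · intro j
    by_cases hj : j = i
    · subst hj
      rw [Function.update_self]; exact hnn
    · rw [Function.update_of_ne hj]; exact h.nonneg j
  · rintro u w ⟨j, hj⟩ hu hw'
    refine ⟨j, ?_⟩
    simp only [Sym2.eq_iff] at hj
    have hj1 : j ≠ i := by
      rintro rfl
      rcases hj with ⟨h3, -⟩ | ⟨h3, -⟩
      · exact hu h3.symm
      · exact hw' h3.symm
    have hj2 : j + 1 ≠ i := by
      rintro rfl
      rcases hj with ⟨-, h3⟩ | ⟨-, h3⟩
      · exact hw' h3.symm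
      · exact hu h3.symm
    simp only [Function.update_of_ne hj1, Function.update_of_ne hj2, Sym2.eq_iff]
    exact hj
  · rcases hw with ⟨e3, e4⟩ | ⟨e3, e4⟩
    · rw [← e3]; exact e1
    · rw [← e4]; exact e2
  · rcases hw with ⟨e3, e4⟩ | ⟨e3, e4⟩
    · rw [← e4]; exact e2
    · rw [← e3]; exact e1

/-- Removing a corner cell of the region: the boundary walk is flipped at one vertex. -/
lemma flip {n : ℕ} {f : ZMod n → ℤ × ℤ} (h : Good f) {S : Set (ℤ × ℤ)} (hS : bd S = edges f)
    {x y xv xw xo xi yv yw yo yi : ℤ}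
    (hx : (xv = x ∧ xw = x + 1 ∧ xo = x - 1 ∧ xi = x + 1) ∨
      (xv = x + 1 ∧ xw = x ∧ xo = x + 1 ∧ xi = x - 1))
    (hy : (yv = y ∧ yw = y + 1 ∧ yo = y - 1 ∧ yi = y + 1) ∨
      (yv = y + 1 ∧ yw = y ∧ yo = y + 1 ∧ yi = y - 1))
    (hc : (x, y) ∈ S) (h1 : (xo, y) ∉ S) (h2 : (x, yo) ∉ S) (h3 : (xo, yo) ∉ S)
    (h4 : (xi, y) ∈ S) (h5 : (x, yi) ∈ S) (h6 : (xi, yi) ∈ S) (hfin : S.Finite) :
    ∃ f' : ZMod n → ℤ × ℤ, Good f' ∧ bd (S \ {(x, y)}) = edges f' := by
  -- the two edges at `v`
  have hv1 : s((xv, yv), (xw, yv)) ∈ edges f := by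
    rw [← hS]
    rcases hx with ⟨rfl, rfl, rfl, rfl⟩ | ⟨rfl, rfl, rfl, rfl⟩ <;>
    rcases hy with ⟨rfl, rfl, rfl, rfl⟩ | ⟨rfl, rfl, rfl, rfl⟩
    · rw [mem_bd_horiz]; tauto
    · rw [mem_bd_horiz]; simp only [add_sub_cancel_right]; tauto
    · rw [Sym2.eq_swap, mem_bd_horiz]; tauto
    · rw [Sym2.eq_swap, mem_bd_horiz]; simp only [add_sub_cancel_right]; tauto
  have hv2 : s((xv, yv), (xv, yw)) ∈ edges f := by
    rw [← hS]
    rcases hx with ⟨rfl, rfl, rfl, rfl⟩ | ⟨rfl, rfl, rfl, rfl⟩ <;>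
    rcases hy with ⟨rfl, rfl, rfl, rfl⟩ | ⟨rfl, rfl, rfl, rfl⟩
    · rw [mem_bd_vert]; tauto
    · rw [Sym2.eq_swap, mem_bd_vert]; tauto
    · rw [mem_bd_vert]; simp only [add_sub_cancel_right]; tauto
    · rw [Sym2.eq_swap, mem_bd_vert]; simp only [add_sub_cancel_right]; tauto
  obtain ⟨i, hi⟩ := mem_edges_range hv1
  have hw : (f (i + 1) = (xw, yv) ∧ f (i - 1) = (xv, yw)) ∨
      (f (i + 1) = (xv, yw) ∧ f (i - 1) = (xw, yv)) := by
    rw [← hi] at hv1 hv2
    have a1 := (h.mem_edges i _).1 hv1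
    have a2 := (h.mem_edges i _).1 hv2
    have a3 : ((xw, yv) : ℤ × ℤ) ≠ (xv, yw) := by
      simp only [ne_eq, Prod.mk.injEq]
      omega
    rcases a1 with a1 | a1 <;> rcases a2 with a2 | a2
    · exact absurd (a1.trans a2.symm) a3
    · exact Or.inl ⟨a1.symm, a2.symm⟩
    · exact Or.inr ⟨a2.symm, a1.symm⟩
    · exact absurd (a1.trans a2.symm) a3
  have hnn : 0 ≤ xw ∧ 0 ≤ yw := by
    have a1 := h.edge_nonneg hv1
    have a2 := h.edge_nonneg hv2
    exact ⟨a1.2.2.1, a2.2.2.2⟩
  have hv' : ((xw, yw) : ℤ × ℤ) ∉ Set.range f := by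
    rintro ⟨j, hj⟩
    have b1 : s(f j, f (j + 1)) ∈ bd S := by rw [hS]; exact ⟨j, rfl⟩
    have b2 := adj_cases (h.adj j)
    rw [hj] at b1 b2
    simp only at b2
    rcases hx with ⟨rfl, rfl, rfl, rfl⟩ | ⟨rfl, rfl, rfl, rfl⟩ <;>
    rcases hy with ⟨rfl, rfl, rfl, rfl⟩ | ⟨rfl, rfl, rfl, rfl⟩ <;>
    rcases b2 with b2 | b2 | b2 | b2 <;> rw [b2] at b1 <;>
    simp only [mem_bd_vert, mem_bd_horiz, mem_bd_vert', mem_bd_horiz'] at b1 <;>
    (try simp only [add_sub_cancel_right] at b1) <;>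
    tauto
  obtain ⟨g1, g2, g3, g4⟩ := h.update (i := i) (v' := (xw, yw)) (w1 := (xw, yv)) (w2 := (xv, yw)) hw hv'
    (by
      rcases hy with ⟨rfl, rfl, rfl, rfl⟩ | ⟨rfl, rfl, rfl, rfl⟩ <;> simp)
    (by
      rcases hx with ⟨rfl, rfl, rfl, rfl⟩ | ⟨rfl, rfl, rfl, rfl⟩ <;> simp) hnn
  refine ⟨_, g1, ?_⟩
  have hsub : bd (S \ {(x, y)}) ⊆ edges (Function.update f i (xw, yw)) := by
    rintro e ⟨X, Y, ⟨rfl, he⟩ | ⟨rfl, he⟩⟩
    · simp only [Set.mem_sdiff, Set.mem_singleton_iff, Prod.mk.injEq] at he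
      by_cases hX : Y = y ∧ (X = xv ∨ X = xw)
      · obtain ⟨rfl, hX⟩ := hX
        rcases hX with rfl | rfl
        · exfalso
          rcases hx with ⟨rfl, rfl, rfl, rfl⟩ | ⟨rfl, rfl, rfl, rfl⟩
          · simp only [and_self, not_true_eq_false, and_false, h1, false_and] at he
          · simp only [and_self, not_true_eq_false, and_false, h1, false_and,
              add_sub_cancel_right] at he
        · have : s((X, Y), (X, Y + 1)) = s((X, yw), (X, yv)) := by
            rcases hy with ⟨rfl, rfl, -, -⟩ | ⟨rfl, rfl, -, -⟩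
            · exact Sym2.eq_swap
            · rfl
          rw [this]; exact g3
      · have hbd : s((X, Y), (X, Y + 1)) ∈ bd S := by
          rw [mem_bd_vert]
          intro hcon
          apply he
          rw [hcon]
          have : ((X - 1 = x ∧ Y = y) ↔ False) := by
            constructor
            · rintro ⟨ha, hb⟩; apply hX; omega
            · exact False.elim
          rw [this]
          have : ((X = x ∧ Y = y) ↔ False) := by
            constructor
            · rintro ⟨ha, hb⟩; apply hX; omega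
            · exact False.elim
          rw [this]
        apply g2 _ _ (by rw [← hS]; exact hbd)
        · rw [hi]
          simp only [ne_eq, Prod.mk.injEq]
          rintro ⟨ha, hb⟩
          rw [mem_bd_vert] at hbd
          subst ha hb
          rcases hx with ⟨rfl, rfl, rfl, rfl⟩ | ⟨rfl, rfl, rfl, rfl⟩ <;>
          rcases hy with ⟨rfl, rfl, rfl, rfl⟩ | ⟨rfl, rfl, rfl, rfl⟩ <;>
          simp only [add_sub_cancel_right] at hbd hX <;> first | omega | tauto
        · rw [hi]
          simp only [ne_eq, Prod.mk.injEq]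
          rintro ⟨ha, hb⟩
          rw [mem_bd_vert] at hbd
          have hb' : Y = yv - 1 := by omega
          subst ha hb'
          rcases hx with ⟨rfl, rfl, rfl, rfl⟩ | ⟨rfl, rfl, rfl, rfl⟩ <;>
          rcases hy with ⟨rfl, rfl, rfl, rfl⟩ | ⟨rfl, rfl, rfl, rfl⟩ <;>
          simp only [add_sub_cancel_right] at hbd hX <;> first | omega | tauto
    · simp only [Set.mem_sdiff, Set.mem_singleton_iff, Prod.mk.injEq] at he
      by_cases hX : X = x ∧ (Y = yv ∨ Y = yw)
      · obtain ⟨rfl, hX⟩ := hX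
        rcases hX with rfl | rfl
        · exfalso
          rcases hy with ⟨rfl, rfl, rfl, rfl⟩ | ⟨rfl, rfl, rfl, rfl⟩
          · simp only [and_self, not_true_eq_false, and_false, h2, false_and] at he
          · simp only [and_self, not_true_eq_false, and_false, h2, false_and,
              add_sub_cancel_right] at he
        · have : s((X, Y), (X + 1, Y)) = s((xw, Y), (xv, Y)) := by
            rcases hx with ⟨rfl, rfl, -, -⟩ | ⟨rfl, rfl, -, -⟩
            · exact Sym2.eq_swap
            · rfl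
          rw [this]; exact g4
      · have hbd : s((X, Y), (X + 1, Y)) ∈ bd S := by
          rw [mem_bd_horiz]
          intro hcon
          apply he
          rw [hcon]
          have : ((X = x ∧ Y - 1 = y) ↔ False) := by
            constructor
            · rintro ⟨ha, hb⟩; apply hX; omega
            · exact False.elim
          rw [this]
          have : ((X = x ∧ Y = y) ↔ False) := by
            constructor
            · rintro ⟨ha, hb⟩; apply hX; omega
            · exact False.elim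
          rw [this]
        apply g2 _ _ (by rw [← hS]; exact hbd)
        · rw [hi]
          simp only [ne_eq, Prod.mk.injEq]
          rintro ⟨ha, hb⟩
          rw [mem_bd_horiz] at hbd
          subst ha hb
          rcases hx with ⟨rfl, rfl, rfl, rfl⟩ | ⟨rfl, rfl, rfl, rfl⟩ <;>
          rcases hy with ⟨rfl, rfl, rfl, rfl⟩ | ⟨rfl, rfl, rfl, rfl⟩ <;>
          simp only [add_sub_cancel_right] at hbd hX <;> first | omega | tauto
        · rw [hi]
          simp only [ne_eq, Prod.mk.injEq]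
          rintro ⟨ha, hb⟩
          rw [mem_bd_horiz] at hbd
          have ha' : X = xv - 1 := by omega
          subst ha' hb
          rcases hx with ⟨rfl, rfl, rfl, rfl⟩ | ⟨rfl, rfl, rfl, rfl⟩ <;>
          rcases hy with ⟨rfl, rfl, rfl, rfl⟩ | ⟨rfl, rfl, rfl, rfl⟩ <;>
          simp only [add_sub_cancel_right] at hbd hX <;> first | omega | tauto
  apply g1.toCyc.min hsub
  apply bd_nonempty (hfin.subset Set.sdiff_subset)
  refine ⟨(xi, y), h4, ?_⟩
  simp only [Set.mem_singleton_iff, Prod.mk.injEq]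
  omega

end Pool.Agent.Helper739
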