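import Pool.Agent.Helper739.SAPRegion

namespace Pool.Agent.Helper739

/-- `R` is a connected region with bounding box `[0,a) × [0,b)` -/
structure Box (R : Finset (ℤ × ℤ)) (a b : ℕ) : Prop where
  sub : ∀ c ∈ R, 0 ≤ c.1 ∧ c.1 < a ∧ 0 ≤ c.2 ∧ c.2 < b
  col : ∀ i : ℤ, 0 ≤ i → i < a → ∃ y, (i, y) ∈ R
  row : ∀ j : ℤ, 0 ≤ j → j < b → ∃ x, (x, j) ∈ R
  conn : Conn (R : Set (ℤ × ℤ))

lemma conn_col {R : Set (ℤ × ℤ)} (h : Conn R) {x1 y1 x2 y2 i : ℤ} (h1 : (x1, y1) ∈ R)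
    (h2 : (x2, y2) ∈ R) (hi1 : x1 ≤ i) (hi2 : i ≤ x2) : ∃ y, (i, y) ∈ R := by
  by_contra hcon
  push Not at hcon
  have hx1 : x1 ≠ i := by rintro rfl; exact hcon _ h1
  have key := h {c | c ∈ R ∧ c.1 < i} (fun c hc => hc.1) ⟨(x1, y1), h1, by simp only; omega⟩ (by
    rintro x y ⟨hR, hx⟩
    simp only at hx
    refine ⟨fun h3 => ⟨h3, ?_⟩, fun h3 => ⟨h3, ?_⟩, fun h3 => ⟨h3, hx⟩, fun h3 => ⟨h3, hx⟩⟩
    · simp only
      rcases lt_or_eq_of_le (show x + 1 ≤ i by omega) with h4 | h4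
      · exact h4
      · rw [h4] at h3; exact absurd h3 (hcon _)
    · simp only; omega)
  have : (x2, y2) ∈ {c | c ∈ R ∧ c.1 < i} := by rw [key]; exact h2
  have := this.2
  simp only at this
  omega

lemma conn_row {R : Set (ℤ × ℤ)} (h : Conn R) {x1 y1 x2 y2 j : ℤ} (h1 : (x1, y1) ∈ R)
    (h2 : (x2, y2) ∈ R) (hi1 : y1 ≤ j) (hi2 : j ≤ y2) : ∃ x, (x, j) ∈ R := by
  by_contra hcon
  push Not at hcon
  have hx1 : y1 ≠ j := by rintro rfl; exact hcon _ h1
  have key := h {c | c ∈ R ∧ c.2 < j} (fun c hc => hc.1) ⟨(x1, y1), h1, by simp only; omega⟩ (by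
    rintro x y ⟨hR, hx⟩
    simp only at hx
    refine ⟨fun h3 => ⟨h3, hx⟩, fun h3 => ⟨h3, hx⟩, fun h3 => ⟨h3, ?_⟩, fun h3 => ⟨h3, ?_⟩⟩
    · simp only
      rcases lt_or_eq_of_le (show y + 1 ≤ j by omega) with h4 | h4
      · exact h4
      · rw [h4] at h3; exact absurd h3 (hcon _)
    · simp only; omega)
  have : (x2, y2) ∈ {c | c ∈ R ∧ c.2 < j} := by rw [key]; exact h2
  have := this.2
  simp only at this
  omega

/-- If all cells of column `i` lie on one side of row `j`, then row `j` contains a cell on the given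
side of column `i`. -/
lemma gap_aux {R : Set (ℤ × ℤ)} (h : Conn R) {i j : ℤ} (e1 e2 : ℤ) (he1 : e1 = 1 ∨ e1 = -1)
    (he2 : e2 = 1 ∨ e2 = -1) (hcol : ∃ y, (i, y) ∈ R) (hall : ∀ y, (i, y) ∈ R → e2 * j < e2 * y)
    (hd : ∃ d ∈ R, e1 * d.1 ≤ e1 * i ∧ e2 * d.2 ≤ e2 * j) :
    ∃ x, e1 * x < e1 * i ∧ (x, j) ∈ R := by
  by_contra hcon
  push Not at hcon
  obtain ⟨⟨dx, dy⟩, hd, hd1, hd2⟩ := hd
  simp only at hd1 hd2
  obtain ⟨yc, hyc⟩ := hcol
  have hyc2 := hall yc hyc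
  have hdx : dx ≠ i := by
    rintro rfl
    have := hall _ hd
    omega
  have hlt : e1 * dx < e1 * i := by
    rcases he1 with rfl | rfl <;> omega
  have key := h {c | c ∈ R ∧ e1 * c.1 < e1 * i ∧ e2 * c.2 ≤ e2 * j} (fun c hc => hc.1)
    ⟨(dx, dy), hd, hlt, hd2⟩ (by
    rintro x y ⟨hR, hx, hy⟩
    simp only at hx hy
    have hy' : y ≠ j := by
      rintro rfl
      exact hcon x hx hR
    have hy2 : e2 * y < e2 * j := by
      rcases he2 with rfl | rfl <;> omega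
    refine ⟨fun h3 => ⟨h3, ?_, hy⟩, fun h3 => ⟨h3, ?_, hy⟩, fun h3 => ⟨h3, hx, ?_⟩,
      fun h3 => ⟨h3, hx, ?_⟩⟩
    · simp only
      by_contra h4
      have h5 : x + 1 = i := by rcases he1 with rfl | rfl <;> omega
      rw [h5] at h3
      have := hall _ h3
      omega
    · simp only
      by_contra h4
      have h5 : x - 1 = i := by rcases he1 with rfl | rfl <;> omega
      rw [h5] at h3
      have := hall _ h3
      omega
    · simp only
      rcases he2 with rfl | rfl <;> omega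
    · simp only
      rcases he2 with rfl | rfl <;> omega)
  have : (i, yc) ∈ {c | c ∈ R ∧ e1 * c.1 < e1 * i ∧ e2 * c.2 ≤ e2 * j} := by rw [key]; exact hyc
  have := this.2.1
  simp only at this
  omega

lemma gap_main {R : Finset (ℤ × ℤ)} {a b : ℕ} (h : Box R a b) {i j : ℤ} (hi0 : 0 ≤ i) (hia : i < a)
    (hc : (i, j) ∉ R)
    (h1 : ∃ d ∈ R, d.1 ≤ i ∧ d.2 ≤ j) (h2 : ∃ d ∈ R, i ≤ d.1 ∧ d.2 ≤ j)
    (h3 : ∃ d ∈ R, d.1 ≤ i ∧ j ≤ d.2) (h4 : ∃ d ∈ R, i ≤ d.1 ∧ j ≤ d.2) :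
    (∃ y1 y2, y1 < j ∧ j < y2 ∧ (i, y1) ∈ R ∧ (i, y2) ∈ R) ∨
    (∃ x1 x2, x1 < i ∧ i < x2 ∧ (x1, j) ∈ R ∧ (x2, j) ∈ R) := by
  by_contra hcon
  push Not at hcon
  obtain ⟨hv, hh⟩ := hcon
  have hcol := h.col i hi0 hia
  obtain ⟨y0, hy0⟩ := hcol
  have hne : y0 ≠ j := by rintro rfl; exact hc hy0
  rcases lt_or_gt_of_ne hne with hlt | hgt
  · -- all below
    have hall : ∀ y, (i, y) ∈ (R : Set (ℤ × ℤ)) → (-1) * j < (-1) * y := by
      intro y hy
      have hy' : (i, y) ∈ R := hy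
      by_contra h5
      have h6 : y ≠ j := by rintro rfl; exact hc hy'
      exact hv y0 y hlt (by omega) hy0 hy'
    obtain ⟨x1, hx1, hx1'⟩ := gap_aux h.conn 1 (-1) (Or.inl rfl) (Or.inr rfl) ⟨y0, hy0⟩ hall (by
      obtain ⟨d, hd, hd1, hd2⟩ := h3
      exact ⟨d, hd, by omega, by omega⟩)
    obtain ⟨x2, hx2, hx2'⟩ := gap_aux h.conn (-1) (-1) (Or.inr rfl) (Or.inr rfl) ⟨y0, hy0⟩ hall (by
      obtain ⟨d, hd, hd1, hd2⟩ := h4
      exact ⟨d, hd, by omega, by omega⟩)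
    exact hh x1 x2 (by omega) (by omega) hx1' hx2'
  · have hall : ∀ y, (i, y) ∈ (R : Set (ℤ × ℤ)) → 1 * j < 1 * y := by
      intro y hy
      have hy' : (i, y) ∈ R := hy
      by_contra h5
      have h6 : y ≠ j := by rintro rfl; exact hc hy'
      exact hv y y0 (by omega) (by omega) hy' hy0
    obtain ⟨x1, hx1, hx1'⟩ := gap_aux h.conn 1 1 (Or.inl rfl) (Or.inl rfl) ⟨y0, hy0⟩ hall (by
      obtain ⟨d, hd, hd1, hd2⟩ := h1
      exact ⟨d, hd, by omega, by omega⟩)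
    obtain ⟨x2, hx2, hx2'⟩ := gap_aux h.conn (-1) 1 (Or.inr rfl) (Or.inl rfl) ⟨y0, hy0⟩ hall (by
      obtain ⟨d, hd, hd1, hd2⟩ := h2
      exact ⟨d, hd, by omega, by omega⟩)
    exact hh x1 x2 (by omega) (by omega) hx1' hx2'

/-- left ends -/
def LE (R : Finset (ℤ × ℤ)) : Finset (ℤ × ℤ) := R.filter (fun c => (c.1 - 1, c.2) ∉ R)
def RE (R : Finset (ℤ × ℤ)) : Finset (ℤ × ℤ) := R.filter (fun c => (c.1 + 1, c.2) ∉ R)
def BE (R : Finset (ℤ × ℤ)) : Finset (ℤ × ℤ) := R.filter (fun c => (c.1, c.2 - 1) ∉ R)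
def TE (R : Finset (ℤ × ℤ)) : Finset (ℤ × ℤ) := R.filter (fun c => (c.1, c.2 + 1) ∉ R)

lemma card_RE (R : Finset (ℤ × ℤ)) : (RE R).card = (LE R).card := by
  have h1 := Finset.card_filter_add_card_filter_not (s := R) (fun c => (c.1 - 1, c.2) ∉ R)
  have h2 := Finset.card_filter_add_card_filter_not (s := R) (fun c => (c.1 + 1, c.2) ∉ R)
  have h3 : (R.filter (fun c => ¬ (c.1 - 1, c.2) ∉ R)).card =
      (R.filter (fun c => ¬ (c.1 + 1, c.2) ∉ R)).card := by
    apply Finset.card_nbij' (fun c => (c.1 - 1, c.2)) (fun c => (c.1 + 1, c.2))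
    · intro c hc
      simp only [not_not, Finset.coe_filter, Set.mem_ofPred_eq] at hc ⊢
      refine ⟨hc.2, ?_⟩
      rw [sub_add_cancel]; exact hc.1
    · intro c hc
      simp only [not_not, Finset.coe_filter, Set.mem_ofPred_eq] at hc ⊢
      refine ⟨hc.2, ?_⟩
      rw [add_sub_cancel_right]; exact hc.1
    · intro c hc; simp
    · intro c hc; simp
  unfold RE LE
  omega

lemma card_TE (R : Finset (ℤ × ℤ)) : (TE R).card = (BE R).card := by
  have h1 := Finset.card_filter_add_card_filter_not (s := R) (fun c => (c.1, c.2 - 1) ∉ R)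
  have h2 := Finset.card_filter_add_card_filter_not (s := R) (fun c => (c.1, c.2 + 1) ∉ R)
  have h3 : (R.filter (fun c => ¬ (c.1, c.2 - 1) ∉ R)).card =
      (R.filter (fun c => ¬ (c.1, c.2 + 1) ∉ R)).card := by
    apply Finset.card_nbij' (fun c => (c.1, c.2 - 1)) (fun c => (c.1, c.2 + 1))
    · intro c hc
      simp only [not_not, Finset.coe_filter, Set.mem_ofPred_eq] at hc ⊢
      refine ⟨hc.2, ?_⟩
      rw [sub_add_cancel]; exact hc.1
    · intro c hc
      simp only [not_not, Finset.coe_filter, Set.mem_ofPred_eq] at hc ⊢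
      refine ⟨hc.2, ?_⟩
      rw [add_sub_cancel_right]; exact hc.1
    · intro c hc; simp
    · intro c hc; simp
  unfold TE BE
  omega

def vE (c : ℤ × ℤ) : Sym2 (ℤ × ℤ) := s(c, (c.1, c.2 + 1))
def hE (c : ℤ × ℤ) : Sym2 (ℤ × ℤ) := s(c, (c.1 + 1, c.2))

lemma vE_inj : Function.Injective vE := by
  rintro ⟨x, y⟩ ⟨x', y'⟩ h
  simp only [vE, Sym2.eq_iff, Prod.mk.injEq] at h ⊢
  omega

lemma hE_inj : Function.Injective hE := by
  rintro ⟨x, y⟩ ⟨x', y'⟩ h
  simp only [hE, Sym2.eq_iff, Prod.mk.injEq] at h ⊢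
  omega

lemma vE_ne_hE (c d : ℤ × ℤ) : vE c ≠ hE d := by
  obtain ⟨x, y⟩ := c
  obtain ⟨x', y'⟩ := d
  intro h
  simp only [hE, vE, Sym2.eq_iff, Prod.mk.injEq] at h
  omega

lemma bd_eq (R : Finset (ℤ × ℤ)) : bd (R : Set (ℤ × ℤ)) =
    ((((LE R).image vE) ∪ ((RE R).image (fun c => vE (c.1 + 1, c.2)))) ∪
    (((BE R).image hE) ∪ ((TE R).image (fun c => hE (c.1, c.2 + 1)))) : Finset _) := by
  ext e
  simp only [Finset.coe_union, Finset.coe_image, Set.mem_union, Set.mem_image, Finset.mem_coe]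
  constructor
  · rintro ⟨x, y, ⟨rfl, h1⟩ | ⟨rfl, h1⟩⟩
    · left
      simp only [Finset.mem_coe] at h1
      by_cases h2 : (x, y) ∈ R
      · left
        refine ⟨(x, y), ?_, rfl⟩
        simp only [LE, Finset.mem_filter]
        tauto
      · right
        refine ⟨(x - 1, y), ?_, ?_⟩
        · simp only [RE, Finset.mem_filter, sub_add_cancel]
          tauto
        · simp [vE]
    · right
      simp only [Finset.mem_coe] at h1
      by_cases h2 : (x, y) ∈ R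
      · left
        refine ⟨(x, y), ?_, rfl⟩
        simp only [BE, Finset.mem_filter]
        tauto
      · right
        refine ⟨(x, y - 1), ?_, ?_⟩
        · simp only [TE, Finset.mem_filter, sub_add_cancel]
          tauto
        · simp [hE]
  · rintro ((⟨⟨x, y⟩, h1, rfl⟩ | ⟨⟨x, y⟩, h1, rfl⟩) | (⟨⟨x, y⟩, h1, rfl⟩ | ⟨⟨x, y⟩, h1, rfl⟩))
    · simp only [LE, Finset.mem_filter] at h1
      show s((x, y), (x, y + 1)) ∈ _
      rw [mem_bd_vert]
      simp only [Finset.mem_coe]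
      tauto
    · simp only [RE, Finset.mem_filter] at h1
      show s((x + 1, y), (x + 1, y + 1)) ∈ _
      rw [mem_bd_vert]
      simp only [Finset.mem_coe, add_sub_cancel_right]
      tauto
    · simp only [BE, Finset.mem_filter] at h1
      show s((x, y), (x + 1, y)) ∈ _
      rw [mem_bd_horiz]
      simp only [Finset.mem_coe]
      tauto
    · simp only [TE, Finset.mem_filter] at h1
      show s((x, y + 1), (x + 1, y + 1)) ∈ _
      rw [mem_bd_horiz]
      simp only [Finset.mem_coe, add_sub_cancel_right]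
      tauto

lemma ncard_bd (R : Finset (ℤ × ℤ)) : (bd (R : Set (ℤ × ℤ))).ncard = 2 * ((LE R).card + (BE R).card) := by
  rw [bd_eq, Set.ncard_coe_finset, Finset.card_union_of_disjoint, Finset.card_union_of_disjoint,
    Finset.card_union_of_disjoint, Finset.card_image_of_injective _ vE_inj,
    Finset.card_image_of_injective _ hE_inj, Finset.card_image_of_injective,
    Finset.card_image_of_injective, card_RE, card_TE]
  · ring
  · rintro ⟨x, y⟩ ⟨x', y'⟩ h
    have := hE_inj h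
    simp only [Prod.mk.injEq] at this ⊢
    omega
  · rintro ⟨x, y⟩ ⟨x', y'⟩ h
    have := vE_inj h
    simp only [Prod.mk.injEq] at this ⊢
    omega
  · rw [Finset.disjoint_left]
    intro e he1 he2
    simp only [Finset.mem_image] at he1 he2
    obtain ⟨⟨x, y⟩, h1, rfl⟩ := he1
    obtain ⟨⟨x', y'⟩, h2, h3⟩ := he2
    have := hE_inj h3
    simp only [Prod.mk.injEq] at this
    obtain ⟨rfl, rfl⟩ := this
    simp only [BE, TE, Finset.mem_filter, add_sub_cancel_right] at h1 h2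
    tauto
  · rw [Finset.disjoint_left]
    intro e he1 he2
    simp only [Finset.mem_image] at he1 he2
    obtain ⟨⟨x, y⟩, h1, rfl⟩ := he1
    obtain ⟨⟨x', y'⟩, h2, h3⟩ := he2
    have := vE_inj h3
    simp only [Prod.mk.injEq] at this
    obtain ⟨rfl, rfl⟩ := this
    simp only [LE, RE, Finset.mem_filter, add_sub_cancel_right] at h1 h2
    tauto
  · rw [Finset.disjoint_left]
    intro e he1 he2
    simp only [Finset.mem_union, Finset.mem_image] at he1 he2
    rcases he1 with ⟨c, -, rfl⟩ | ⟨c, -, rfl⟩ <;> rcases he2 with ⟨d, -, hd⟩ | ⟨d, -, hd⟩ <;>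
      exact vE_ne_hE _ _ hd.symm

lemma Cyc.ncard_edges {n : ℕ} {f : ZMod n → ℤ × ℤ} (h : Cyc n f) : (edges f).ncard = n := by
  have hn : NeZero n := ⟨by have := h.len; omega⟩
  unfold edges
  rw [← Set.image_univ, Set.ncard_image_of_injective, Set.ncard_univ, Nat.card_eq_fintype_card,
    ZMod.card]
  intro i j hij
  simp only [Sym2.eq_iff] at hij
  rcases hij with ⟨h1, -⟩ | ⟨h1, h2⟩
  · exact h.inj h1
  · exfalso
    have h3 := h.inj h1
    have h4 := h.inj h2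
    apply h.two_ne i
    rw [h4, h3]; ring

end Pool.Agent.Helper739
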