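import Pool.Agent.Helper739.SAPDefs

namespace Pool.Agent.Helper739

/-- boundary edges of a set of unit squares -/
def bd (S : Set (ℤ × ℤ)) : Set (Sym2 (ℤ × ℤ)) :=
  {e | ∃ x y : ℤ, (e = s((x, y), (x, y + 1)) ∧ ¬ ((x - 1, y) ∈ S ↔ (x, y) ∈ S)) ∨
      (e = s((x, y), (x + 1, y)) ∧ ¬ ((x, y - 1) ∈ S ↔ (x, y) ∈ S))}

lemma mem_bd_vert {S : Set (ℤ × ℤ)} {x y : ℤ} :
    s((x, y), (x, y + 1)) ∈ bd S ↔ ¬ ((x - 1, y) ∈ S ↔ (x, y) ∈ S) := by
  constructor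
  · rintro ⟨x', y', ⟨h1, h2⟩ | ⟨h1, h2⟩⟩
    · rw [Sym2.eq_iff] at h1
      simp only [Prod.mk.injEq] at h1
      rcases h1 with ⟨⟨rfl, rfl⟩, -⟩ | ⟨⟨h, h'⟩, ⟨-, h''⟩⟩
      · exact h2
      · omega
    · rw [Sym2.eq_iff] at h1
      simp only [Prod.mk.injEq] at h1
      omega
  · intro h
    exact ⟨x, y, Or.inl ⟨rfl, h⟩⟩

lemma mem_bd_horiz {S : Set (ℤ × ℤ)} {x y : ℤ} :
    s((x, y), (x + 1, y)) ∈ bd S ↔ ¬ ((x, y - 1) ∈ S ↔ (x, y) ∈ S) := by
  constructor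
  · rintro ⟨x', y', ⟨h1, h2⟩ | ⟨h1, h2⟩⟩
    · rw [Sym2.eq_iff] at h1
      simp only [Prod.mk.injEq] at h1
      omega
    · rw [Sym2.eq_iff] at h1
      simp only [Prod.mk.injEq] at h1
      rcases h1 with ⟨⟨rfl, rfl⟩, -⟩ | ⟨⟨h, h'⟩, ⟨h'', -⟩⟩
      · exact h2
      · omega
  · intro h
    exact ⟨x, y, Or.inr ⟨rfl, h⟩⟩

lemma mem_bd_vert' {S : Set (ℤ × ℤ)} {x y : ℤ} :
    s((x, y), (x, y - 1)) ∈ bd S ↔ ¬ ((x - 1, y - 1) ∈ S ↔ (x, y - 1) ∈ S) := by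
  rw [Sym2.eq_swap]
  have := @mem_bd_vert S x (y - 1)
  simpa using this

lemma mem_bd_horiz' {S : Set (ℤ × ℤ)} {x y : ℤ} :
    s((x, y), (x - 1, y)) ∈ bd S ↔ ¬ ((x - 1, y - 1) ∈ S ↔ (x - 1, y) ∈ S) := by
  rw [Sym2.eq_swap]
  have := @mem_bd_horiz S (x - 1) y
  simpa using this

/-- parity at a vertex -/
def EvenAt (P : Set (Sym2 (ℤ × ℤ))) (x y : ℤ) : Prop :=
  (s((x, y), (x, y + 1)) ∈ P ↔ s((x, y), (x, y - 1)) ∈ P) ↔
    (s((x, y), (x + 1, y)) ∈ P ↔ s((x, y), (x - 1, y)) ∈ P)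

lemma bd_even (S : Set (ℤ × ℤ)) (x y : ℤ) : EvenAt (bd S) x y := by
  unfold EvenAt
  rw [mem_bd_vert, mem_bd_vert', mem_bd_horiz, mem_bd_horiz']
  tauto

/-- closed self-avoiding walk -/
structure Cyc (n : ℕ) (f : ZMod n → ℤ × ℤ) : Prop where
  len : 3 ≤ n
  inj : Function.Injective f
  adj : ∀ i, |(f (i + 1)).1 - (f i).1| + |(f (i + 1)).2 - (f i).2| = 1

/-- the edge set of the walk -/
def edges {n : ℕ} (f : ZMod n → ℤ × ℤ) : Set (Sym2 (ℤ × ℤ)) :=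
  Set.range (fun i => s(f i, f (i + 1)))

lemma adj_cases {u v : ℤ × ℤ} (h : |v.1 - u.1| + |v.2 - u.2| = 1) :
    v = (u.1, u.2 + 1) ∨ v = (u.1, u.2 - 1) ∨ v = (u.1 + 1, u.2) ∨ v = (u.1 - 1, u.2) := by
  obtain ⟨a, b⟩ := u
  obtain ⟨c, d⟩ := v
  simp only [Prod.mk.injEq] at *
  have h1 := abs_nonneg (c - a)
  have h2 := abs_nonneg (d - b)
  rcases abs_cases (c - a) with ⟨h3, h4⟩ | ⟨h3, h4⟩ <;>
  rcases abs_cases (d - b) with ⟨h5, h6⟩ | ⟨h5, h6⟩ <;> omega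

lemma Cyc.two_ne {n : ℕ} {f : ZMod n → ℤ × ℤ} (h : Cyc n f) (i : ZMod n) : i + 1 ≠ i - 1 := by
  intro h1
  have h2 : ((2 : ℕ) : ZMod n) = 0 := by
    have : (1 : ZMod n) = -1 := by
      have := congrArg (fun t => t - i) h1
      simpa using this
    push_cast
    calc (2 : ZMod n) = 1 + 1 := by norm_num
      _ = 1 + -1 := by rw [← this]
      _ = 0 := by ring
  rw [ZMod.natCast_eq_zero_iff] at h2
  have := Nat.le_of_dvd (by norm_num) h2
  have := h.len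
  omega

lemma Cyc.adj' {n : ℕ} {f : ZMod n → ℤ × ℤ} (h : Cyc n f) (i : ZMod n) :
    |(f (i - 1)).1 - (f i).1| + |(f (i - 1)).2 - (f i).2| = 1 := by
  have := h.adj (i - 1)
  rw [sub_add_cancel] at this
  rw [abs_sub_comm, abs_sub_comm (f (i-1)).2]
  exact this

lemma Cyc.mem_edges {n : ℕ} {f : ZMod n → ℤ × ℤ} (h : Cyc n f) (j : ZMod n) (w : ℤ × ℤ) :
    s(f j, w) ∈ edges f ↔ w = f (j + 1) ∨ w = f (j - 1) := by
  constructor
  · rintro ⟨i, hi⟩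
    simp only [Sym2.eq_iff] at hi
    rcases hi with ⟨h1, h2⟩ | ⟨h1, h2⟩
    · left
      rw [← h2, h.inj h1]
    · right
      rw [← h1]
      congr 1
      rw [← h.inj h2]
      ring
  · rintro (rfl | rfl)
    · exact ⟨j, rfl⟩
    · refine ⟨j - 1, ?_⟩
      simp only [sub_add_cancel]
      exact Sym2.eq_swap

lemma Cyc.not_mem_edges {n : ℕ} {f : ZMod n → ℤ × ℤ} {u : ℤ × ℤ}
    (hu : u ∉ Set.range f) (w : ℤ × ℤ) : s(u, w) ∉ edges f := by
  rintro ⟨i, hi⟩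
  simp only [Sym2.eq_iff] at hi
  rcases hi with ⟨h1, h2⟩ | ⟨h1, h2⟩
  · exact hu ⟨_, h1⟩
  · exact hu ⟨_, h2⟩

lemma Cyc.even {n : ℕ} {f : ZMod n → ℤ × ℤ} (h : Cyc n f) (x y : ℤ) : EvenAt (edges f) x y := by
  unfold EvenAt
  by_cases hu : (x, y) ∈ Set.range f
  · obtain ⟨j, hj⟩ := hu
    rw [← hj, h.mem_edges, h.mem_edges, h.mem_edges, h.mem_edges]
    have h1 := adj_cases (h.adj j)
    have h2 := adj_cases (h.adj' j)
    have h3 : f (j + 1) ≠ f (j - 1) := fun e => h.two_ne j (h.inj e)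
    rw [hj] at h1 h2
    simp only at h1 h2
    have e1 : ¬ (y + 1 = y - 1) := by omega
    have e2 : ¬ (y - 1 = y + 1) := by omega
    have e3 : ¬ (x + 1 = x - 1) := by omega
    have e4 : ¬ (x - 1 = x + 1) := by omega
    rcases h1 with h1 | h1 | h1 | h1 <;> rcases h2 with h2 | h2 | h2 | h2 <;>
      rw [h1, h2] at h3 ⊢ <;> simp [e1, e2, e3, e4] at h3 ⊢
  · simp only [Cyc.not_mem_edges hu]

/-- propagation along the cycle -/
lemma Cyc.min {n : ℕ} {f : ZMod n → ℤ × ℤ} (h : Cyc n f) {S : Set (ℤ × ℤ)}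
    (hsub : bd S ⊆ edges f) (hne : (bd S).Nonempty) : bd S = edges f := by
  have hn : NeZero n := ⟨by have := h.len; omega⟩
  apply Set.Subset.antisymm hsub
  have step : ∀ i : ZMod n, s(f i, f (i + 1)) ∈ bd S → s(f (i + 1), f (i + 1 + 1)) ∈ bd S := by
    intro i hi
    by_contra hcon
    have hev := bd_even S (f (i + 1)).1 (f (i + 1)).2
    unfold EvenAt at hev
    have key : ∀ w, s(f (i + 1), w) ∈ bd S ↔ w = f i := by
      intro w
      constructor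
      · intro hw
        have := (h.mem_edges (i + 1) w).1 (hsub hw)
        rcases this with rfl | rfl
        · exact absurd hw hcon
        · simp
      · rintro rfl
        rw [Sym2.eq_swap]
        exact hi
    have e1 : ((f (i + 1)).1, (f (i + 1)).2) = f (i + 1) := rfl
    rw [e1, key, key, key, key] at hev
    have h1 := adj_cases (h.adj' (i + 1))
    rw [add_sub_cancel_right] at h1
    generalize (f (i + 1)).1 = x at h1 hev
    generalize (f (i + 1)).2 = y at h1 hev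
    have e1 : ¬ (y + 1 = y - 1) := by omega
    have e2 : ¬ (y - 1 = y + 1) := by omega
    have e3 : ¬ (x + 1 = x - 1) := by omega
    have e4 : ¬ (x - 1 = x + 1) := by omega
    rcases h1 with h1 | h1 | h1 | h1 <;> rw [h1] at hev <;>
      simp [e1, e2, e3, e4] at hev
  obtain ⟨e, he⟩ := hne
  obtain ⟨i₀, hi₀⟩ := hsub he
  have base : s(f i₀, f (i₀ + 1)) ∈ bd S := by
    have : s(f i₀, f (i₀ + 1)) = e := hi₀
    rw [this]; exact he
  have all : ∀ k : ℕ, s(f (i₀ + k), f (i₀ + k + 1)) ∈ bd S := by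
    intro k
    induction k with
    | zero => simpa using base
    | succ k ih =>
      have := step _ ih
      push_cast
      rw [← add_assoc]
      exact this
  rintro _ ⟨j, rfl⟩
  have := all (j - i₀).val
  rw [ZMod.natCast_zmod_val] at this
  simpa using this

end Pool.Agent.Helper739
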