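import Pool.Agent.Helper739.SAPCount

namespace Pool.Agent.Helper739

open Filter

/-- number of polygons of half-perimeter `m` with `k` missing cells -/
noncomputable def Nm (m k : ℕ) : ℕ := by
  classical exact ((saps m).filter (fun P => m ^ 2 / 4 - area P = k)).card

lemma sum_Nm (m : ℕ) (h : ℕ → ℝ) :
    ∑ P ∈ saps m, h (m ^ 2 / 4 - area P) = ∑' k : ℕ, (Nm m k : ℝ) * h k := by
  classical
  rw [Finset.sum_comp h (fun P => m ^ 2 / 4 - area P),
    tsum_eq_sum (s := (saps m).image (fun P => m ^ 2 / 4 - area P))]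
  · apply Finset.sum_congr rfl
    intro n _
    unfold Nm
    rw [nsmul_eq_mul]
  · intro n hn
    have : Nm m n = 0 := by
      unfold Nm
      rw [Finset.card_eq_zero, Finset.filter_eq_empty_iff]
      intro P hP hcon
      exact hn (Finset.mem_image.2 ⟨P, hP, hcon⟩)
    rw [this]; simp

lemma Nm_eq {m k : ℕ} (hk : k ≤ m ^ 2 / 4) : Nm m k = p m (m ^ 2 / 4 - k) := by
  classical
  rw [p_eq]
  unfold Nm
  congr 1
  apply Finset.filter_congr
  intro P hP
  have := area_le (mem_saps.1 hP)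
  constructor <;> intro h <;> omega

lemma Nm_eventually {ε : ℕ} (hε : ε ≤ 1) (k : ℕ) :
    ∀ᶠ n in atTop, Nm (2 * n + ε) k = conf ε k := by
  filter_upwards [eventually_ge_atTop (10 * k + 10)] with n hn
  rw [Nm_eq, m_sq hε]
  · exact count_eq hε hn
  · rw [m_sq hε]; nlinarith

/-- the uniform domination -/
lemma Nm_bound {s : ℝ} (h0 : 0 < s) (h1 : s < 1) :
    ∃ B : ℝ, 0 < B ∧ ∀ m, 1 ≤ m → ∀ k, (Nm m k : ℝ) * s ^ k ≤ B := by
  classical
  obtain ⟨B, hB, hb⟩ := unif_bound h0 h1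
  refine ⟨B, hB, fun m hm k => ?_⟩
  have h2 := hb m hm (saps m) (fun P hP => mem_saps.1 hP)
  refine le_trans ?_ h2
  unfold Nm
  rw [← nsmul_eq_mul, ← Finset.sum_const]
  calc ∑ _P ∈ (saps m).filter (fun P => m ^ 2 / 4 - area P = k), s ^ k
      = ∑ P ∈ (saps m).filter (fun P => m ^ 2 / 4 - area P = k), s ^ (m ^ 2 / 4 - area P) := by
        apply Finset.sum_congr rfl
        intro P hP
        rw [(Finset.mem_filter.1 hP).2]
    _ ≤ ∑ P ∈ saps m, s ^ (m ^ 2 / 4 - area P) := by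
        apply Finset.sum_le_sum_of_subset_of_nonneg (Finset.filter_subset _ _)
        intro P _ _
        positivity

lemma conf_bound {ε : ℕ} (hε : ε ≤ 1) {s : ℝ} (h0 : 0 < s) (h1 : s < 1) :
    ∃ B : ℝ, 0 < B ∧ ∀ k, (conf ε k : ℝ) * s ^ k ≤ B := by
  obtain ⟨B, hB, hb⟩ := Nm_bound h0 h1
  refine ⟨B, hB, fun k => ?_⟩
  obtain ⟨n, hn, hn1⟩ := ((Nm_eventually hε k).and (eventually_ge_atTop 1)).exists
  rw [← hn]
  exact hb _ (by omega) k

lemma conf_zero_pos {ε : ℕ} (hε : ε ≤ 1) : 1 ≤ conf ε 0 := by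
  classical
  have h1 := count_eq (n := 10) (k := 0) hε (by omega)
  rw [← h1, Nat.sub_zero, p_eq, Nat.succ_le_iff, Finset.card_pos]
  obtain ⟨P, hP, hPa⟩ := exists_max (m := 2 * 10 + ε) (by omega)
  refine ⟨P, Finset.mem_filter.2 ⟨mem_saps.2 hP, ?_⟩⟩
  rw [hPa, m_sq hε]

lemma summable_aux {ε : ℕ} (hε : ε ≤ 1) {r ρ C : ℝ} (hr0 : 0 < r) (hr1 : r < 1) (hρ0 : 0 ≤ ρ)
    (hρ : ρ * r < 1) {g : ℕ → ℝ} (hg : ∀ k, |g k| ≤ C * ρ ^ k) :
    Summable (fun k => (conf ε k : ℝ) * (r ^ k * g k)) ∧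
    Tendsto (fun n => ∑' k, (Nm (2 * n + ε) k : ℝ) * (r ^ k * g k)) atTop
      (nhds (∑' k, (conf ε k : ℝ) * (r ^ k * g k))) := by
  -- pick `s` with `ρ * r < s < 1`
  obtain ⟨s, hs1, hs2⟩ := exists_between hρ
  have hs0 : 0 < s := lt_of_le_of_lt (mul_nonneg hρ0 hr0.le) hs1
  obtain ⟨B, hB, hb⟩ := Nm_bound hs0 hs2
  obtain ⟨B', hB', hb'⟩ := conf_bound hε hs0 hs2
  have hC : 0 ≤ C := by
    have := hg 0
    simp only [pow_zero, mul_one] at this
    exact le_trans (abs_nonneg _) this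
  have hx0 : 0 ≤ ρ * r / s := by positivity
  have hx1 : ρ * r / s < 1 := by rw [div_lt_one hs0]; exact hs1
  have key : ∀ (N : ℕ) (D : ℝ) (k : ℕ), (N : ℝ) * s ^ k ≤ D →
      ‖(N : ℝ) * (r ^ k * g k)‖ ≤ D * C * (ρ * r / s) ^ k := by
    intro N D k h
    have hsk : 0 < s ^ k := by positivity
    rw [Real.norm_eq_abs, abs_mul, abs_mul, abs_of_nonneg (by positivity : (0 : ℝ) ≤ N),
      abs_of_nonneg (by positivity : (0 : ℝ) ≤ r ^ k), div_pow, mul_pow]
    have h2 : (N : ℝ) ≤ D / s ^ k := by rw [le_div_iff₀ hsk]; exact h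
    have hD : 0 ≤ D := le_trans (by positivity) h
    calc (N : ℝ) * (r ^ k * |g k|) ≤ (D / s ^ k) * (r ^ k * (C * ρ ^ k)) := by
          apply mul_le_mul h2 _ (by positivity) (by positivity)
          exact mul_le_mul_of_nonneg_left (hg k) (by positivity)
      _ = D * C * (ρ ^ k * r ^ k / s ^ k) := by ring
  have hsum : ∀ D : ℝ, Summable (fun k : ℕ => D * C * (ρ * r / s) ^ k) := fun D =>
    (summable_geometric_of_lt_one hx0 hx1).mul_left _
  constructor
  · exact Summable.of_norm_bounded (hsum B') (fun k => key _ _ _ (hb' k))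
  · apply tendsto_tsum_of_dominated_convergence (hsum B)
    · intro k
      apply tendsto_const_nhds.congr'
      filter_upwards [Nm_eventually hε k] with n hn
      rw [hn]
    · filter_upwards [eventually_ge_atTop 1] with n hn k
      exact key _ _ _ (hb _ (by omega) k)

/-- **Limit law of the area in the inflated regime.** -/
theorem limit_law {ε : ℕ} (hε : ε ≤ 1) {q : ℝ} (hq : 1 < q) {ρ C : ℝ} (hρ0 : 0 ≤ ρ) (hρ : ρ < q)
    {g : ℕ → ℝ} (hg : ∀ k, |g k| ≤ C * ρ ^ k) :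
    Tendsto (fun n : ℕ => ∑' j : ℕ, prob q (2 * n + ε) j * g (n * (n + ε) - j)) atTop
      (nhds (∑' k : ℕ, law ε q k * g k)) := by
  have hq0 : 0 < q := by linarith
  set r := q⁻¹ with hr
  have hr0 : 0 < r := inv_pos.2 hq0
  have hr1 : r < 1 := inv_lt_one_of_one_lt₀ hq
  have hρr : ρ * r < 1 := by
    rw [hr, ← div_eq_mul_inv, div_lt_one hq0]; exact hρ
  obtain ⟨-, h1⟩ := summable_aux hε hr0 hr1 hρ0 hρr hg
  obtain ⟨hs2, h2⟩ := summable_aux (C := 1) (ρ := 1) hε hr0 hr1 (by norm_num) (by linarith)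
    (g := fun _ => 1) (by intro k; simp)
  simp only [mul_one] at hs2 h2
  have hS : 0 < ∑' k, (conf ε k : ℝ) * r ^ k := by
    have h3 : (conf ε 0 : ℝ) * r ^ 0 ≤ ∑' k, (conf ε k : ℝ) * r ^ k :=
      hs2.le_tsum 0 (fun k _ => by positivity)
    have h4 : (1 : ℝ) ≤ conf ε 0 := by exact_mod_cast conf_zero_pos hε
    simp only [pow_zero, mul_one] at h3
    linarith
  have h5 : ∑' k : ℕ, law ε q k * g k =
      (∑' k, (conf ε k : ℝ) * (r ^ k * g k)) / ∑' k, (conf ε k : ℝ) * r ^ k := by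
    rw [← tsum_div_const]
    apply tsum_congr
    intro k
    unfold law
    ring
  rw [h5]
  have h6 : ∀ᶠ n : ℕ in atTop, (∑' k, (Nm (2 * n + ε) k : ℝ) * (r ^ k * g k)) /
      (∑' k, (Nm (2 * n + ε) k : ℝ) * r ^ k) =
      ∑' j : ℕ, prob q (2 * n + ε) j * g (n * (n + ε) - j) := by
    filter_upwards [eventually_ge_atTop 1] with n hn
    set m := 2 * n + ε with hm
    have hM : m ^ 2 / 4 = n * (n + ε) := m_sq hε
    have hZ := Z_pos hq0 (m := m) (by omega)
    have conv : ∀ h : ℕ → ℝ, ∑ P ∈ saps m, q ^ area P * h (m ^ 2 / 4 - area P) =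
        q ^ (m ^ 2 / 4) * ∑' k, (Nm m k : ℝ) * (r ^ k * h k) := by
      intro h
      rw [← sum_Nm m (fun k => r ^ k * h k), Finset.mul_sum]
      apply Finset.sum_congr rfl
      intro P hP
      have h3 := area_le (mem_saps.1 hP)
      have h4 : q ^ (m ^ 2 / 4) = q ^ area P * q ^ (m ^ 2 / 4 - area P) := by
        rw [← pow_add]; congr 1; omega
      rw [h4, ← mul_assoc, mul_assoc (q ^ area P), ← mul_pow, hr, mul_inv_cancel₀ hq0.ne', one_pow,
        mul_one]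
    have e1 : ∑' j : ℕ, prob q m j * g (n * (n + ε) - j) =
        (∑ P ∈ saps m, q ^ area P * g (m ^ 2 / 4 - area P)) / Z q m := by
      rw [← tsum_p m (fun j => q ^ j * g (m ^ 2 / 4 - j)), ← tsum_div_const]
      apply tsum_congr
      intro j
      rw [prob_eq, hM]
      ring
    have e2 : Z q m = q ^ (m ^ 2 / 4) * ∑' k, (Nm m k : ℝ) * r ^ k := by
      have := conv (fun _ => 1)
      simp only [mul_one] at this
      exact this
    rw [e1, conv g, e2, mul_div_mul_left]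
    positivity
  exact (h1.div h2 hS.ne').congr' h6

lemma law_hasSum {ε : ℕ} (hε : ε ≤ 1) {q : ℝ} (hq : 1 < q) : HasSum (law ε q) 1 := by
  have hq0 : 0 < q := by linarith
  obtain ⟨hs2, -⟩ := summable_aux (C := 1) (ρ := 1) (r := q⁻¹) hε (inv_pos.2 hq0)
    (inv_lt_one_of_one_lt₀ hq) (by norm_num) (by linarith [inv_lt_one_of_one_lt₀ hq])
    (g := fun _ => 1) (by intro k; simp)
  simp only [mul_one] at hs2
  have hS : 0 < ∑' k, (conf ε k : ℝ) * q⁻¹ ^ k := by
    have h3 : (conf ε 0 : ℝ) * q⁻¹ ^ 0 ≤ ∑' k, (conf ε k : ℝ) * q⁻¹ ^ k :=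
      hs2.le_tsum 0 (fun k _ => by positivity)
    have h4 : (1 : ℝ) ≤ conf ε 0 := by exact_mod_cast conf_zero_pos hε
    simp only [pow_zero, mul_one] at h3
    linarith
  have := hs2.hasSum.div_const (∑' k, (conf ε k : ℝ) * q⁻¹ ^ k)
  rw [div_self hS.ne'] at this
  exact this

end Pool.Agent.Helper739
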