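import Pool.Agent.Helper739.SAPLimit

namespace Pool.Agent.Helper739

open Filter

lemma prob_eq_zero {q : ℝ} {m n : ℕ} (h : m ^ 2 / 4 < n) : prob q m n = 0 := by
  classical
  have : p m n = 0 := by
    rw [p_eq, Finset.card_eq_zero, Finset.filter_eq_empty_iff]
    intro P hP hcon
    have := area_le (mem_saps.1 hP)
    omega
  rw [prob_eq, this]
  simp

/-- pointwise convergence of the probabilities -/
theorem limit_point {ε : ℕ} (hε : ε ≤ 1) {q : ℝ} (hq : 1 < q) (k : ℕ) :
    Tendsto (fun n : ℕ => prob q (2 * n + ε) (n * (n + ε) - k)) atTop (nhds (law ε q k)) := by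
  classical
  have h1 := limit_law hε hq (ρ := 1) (C := 1) (g := fun i => if i = k then 1 else 0) (by norm_num) hq
    (by intro i; split_ifs <;> simp)
  have h2 : ∑' i : ℕ, law ε q i * (if i = k then 1 else 0) = law ε q k := by
    rw [tsum_eq_single k]
    · simp
    · intro i hi; simp [hi]
  rw [h2] at h1
  refine h1.congr' ?_
  filter_upwards [eventually_ge_atTop (k + 1)] with n hn
  have hkn : k ≤ n * (n + ε) := by nlinarith
  rw [tsum_eq_single (n * (n + ε) - k)]
  · have : n * (n + ε) - (n * (n + ε) - k) = k := by omega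
    simp [this]
  · intro j hj
    split_ifs with h3
    · have h4 : n * (n + ε) < j := by omega
      rw [prob_eq_zero (by rw [m_sq hε]; exact h4)]
      simp
    · simp

end Pool.Agent.Helper739
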