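import Pool.Agent.Helper739.SAPJordan

namespace Pool.Agent.Helper739

open Classical in
/-- parity region of an edge set -/
noncomputable def cnt (P : Set (Sym2 (ℤ × ℤ))) (i j : ℤ) : ℕ :=
  ((Finset.Icc 0 i).filter (fun x => s((x, j), (x, j + 1)) ∈ P)).card

/-- cells of odd parity -/
def parReg (P : Set (Sym2 (ℤ × ℤ))) : Set (ℤ × ℤ) := {c | Odd (cnt P c.1 c.2)}

structure Good {n : ℕ} (f : ZMod n → ℤ × ℤ) : Prop extends Cyc n f where
  nonneg : ∀ i, 0 ≤ (f i).1 ∧ 0 ≤ (f i).2

lemma Good.edge_nonneg {n : ℕ} {f : ZMod n → ℤ × ℤ} (h : Good f) {u w : ℤ × ℤ}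
    (hP : s(u, w) ∈ edges f) : 0 ≤ u.1 ∧ 0 ≤ u.2 ∧ 0 ≤ w.1 ∧ 0 ≤ w.2 := by
  obtain ⟨i, hi⟩ := hP
  simp only [Sym2.eq_iff] at hi
  have h1 := h.nonneg i
  have h2 := h.nonneg (i + 1)
  rcases hi with ⟨rfl, rfl⟩ | ⟨rfl, rfl⟩
  · exact ⟨h1.1, h1.2, h2.1, h2.2⟩
  · exact ⟨h2.1, h2.2, h1.1, h1.2⟩

lemma cnt_neg (P : Set (Sym2 (ℤ × ℤ))) {i j : ℤ} (hi : i < 0) : cnt P i j = 0 := by
  unfold cnt
  rw [Finset.Icc_eq_empty (by omega)]
  simp

lemma cnt_succ (P : Set (Sym2 (ℤ × ℤ))) {i j : ℤ} (hi : 0 ≤ i) :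
    (s((i, j), (i, j + 1)) ∈ P → cnt P i j = cnt P (i - 1) j + 1) ∧
    (s((i, j), (i, j + 1)) ∉ P → cnt P i j = cnt P (i - 1) j) := by
  have h : Finset.Icc 0 i = insert i (Finset.Icc 0 (i - 1)) := by
    ext x
    simp only [Finset.mem_Icc, Finset.mem_insert]
    omega
  unfold cnt
  rw [h, Finset.filter_insert]
  constructor
  · intro h1
    rw [if_pos h1, Finset.card_insert_of_notMem]
    simp
  · intro h1
    rw [if_neg h1]

lemma Good.vert {n : ℕ} {f : ZMod n → ℤ × ℤ} (h : Good f) (x y : ℤ) :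
    ¬ ((x - 1, y) ∈ parReg (edges f) ↔ (x, y) ∈ parReg (edges f)) ↔
      s((x, y), (x, y + 1)) ∈ edges f := by
  simp only [parReg, Set.mem_ofPred_eq]
  by_cases hx : 0 ≤ x
  · obtain ⟨h1, h2⟩ := cnt_succ (edges f) (i := x) (j := y) hx
    by_cases hP : s((x, y), (x, y + 1)) ∈ edges f
    · rw [h1 hP, Nat.odd_add_one]
      tauto
    · rw [h2 hP]
      tauto
  · rw [cnt_neg _ (by omega), cnt_neg _ (by omega)]
    simp only [Nat.not_odd_zero, not_true_eq_false, false_iff]
    intro hP
    have := h.edge_nonneg hP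
    simp only at this
    omega

lemma Good.horiz {n : ℕ} {f : ZMod n → ℤ × ℤ} (h : Good f) (x y : ℤ) :
    ¬ ((x, y - 1) ∈ parReg (edges f) ↔ (x, y) ∈ parReg (edges f)) ↔
      s((x, y), (x + 1, y)) ∈ edges f := by
  by_cases hx : -1 ≤ x
  · revert y
    induction x, hx using Int.leInduction with
    | base =>
      intro y
      simp only [parReg, Set.mem_ofPred_eq]
      rw [cnt_neg _ (by omega), cnt_neg _ (by omega)]
      simp only [Nat.not_odd_zero, not_true_eq_false, false_iff]
      intro hP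
      have := h.edge_nonneg hP
      simp only at this
      omega
    | succ x hx ih =>
      intro y
      have e0 := h.even (x + 1) y
      unfold EvenAt at e0
      have e1 := h.vert (x + 1) y
      have e2 := h.vert (x + 1) (y - 1)
      have e3 := ih y
      have e4 : (x + 1 - 1 : ℤ) = x := by ring
      have e5 : (y - 1 + 1 : ℤ) = y := by ring
      rw [e4] at e0 e1 e2
      rw [e5] at e2
      have e6 : s((x + 1, y), (x + 1, y - 1)) = s((x + 1, y - 1), (x + 1, y)) := Sym2.eq_swap
      have e7 : s((x + 1, y), (x, y)) = s((x, y), (x + 1, y)) := Sym2.eq_swap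
      rw [e6, e7, ← e1, ← e2, ← e3] at e0
      clear e1 e2 e3 ih
      generalize (s((x + 1, y), (x + 1 + 1, y)) ∈ edges f) = E at e0 ⊢
      generalize ((x, y) ∈ parReg (edges f)) = a at e0 ⊢
      generalize ((x + 1, y) ∈ parReg (edges f)) = b at e0 ⊢
      generalize ((x, y - 1) ∈ parReg (edges f)) = c at e0 ⊢
      generalize ((x + 1, y - 1) ∈ parReg (edges f)) = d at e0 ⊢
      by_cases ha : a <;> by_cases hb : b <;> by_cases hc : c <;> by_cases hd : d <;>
        simp [ha, hb, hc, hd] at e0 ⊢ <;> exact e0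
  · simp only [parReg, Set.mem_ofPred_eq]
    rw [cnt_neg _ (by omega), cnt_neg _ (by omega)]
    simp only [Nat.not_odd_zero, not_true_eq_false, false_iff]
    intro hP
    have := h.edge_nonneg hP
    simp only at this
    omega

lemma Good.bd_parReg {n : ℕ} {f : ZMod n → ℤ × ℤ} (h : Good f) : bd (parReg (edges f)) = edges f := by
  ext e
  constructor
  · rintro ⟨x, y, ⟨rfl, h1⟩ | ⟨rfl, h1⟩⟩
    · exact (h.vert x y).1 h1
    · exact (h.horiz x y).1 h1
  · rintro ⟨i, rfl⟩
    have h1 := adj_cases (h.adj i)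
    have hP : s(f i, f (i + 1)) ∈ edges f := ⟨i, rfl⟩
    simp only
    generalize f (i + 1) = w at h1 hP
    generalize f i = u at h1 hP
    obtain ⟨x, y⟩ := u
    simp only at h1
    rcases h1 with rfl | rfl | rfl | rfl
    · rw [mem_bd_vert]; exact (h.vert x y).2 hP
    · rw [Sym2.eq_swap] at hP ⊢
      have := (h.vert x (y - 1))
      rw [sub_add_cancel] at this
      have h2 := @mem_bd_vert (parReg (edges f)) x (y - 1)
      rw [sub_add_cancel] at h2
      rw [h2]; exact this.2 hP
    · rw [mem_bd_horiz]; exact (h.horiz x y).2 hP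
    · rw [Sym2.eq_swap] at hP ⊢
      have := (h.horiz (x - 1) y)
      rw [sub_add_cancel] at this
      have h2 := @mem_bd_horiz (parReg (edges f)) (x - 1) y
      rw [sub_add_cancel] at h2
      rw [h2]; exact this.2 hP

lemma Good.exists_bound {n : ℕ} {f : ZMod n → ℤ × ℤ} (h : Good f) :
    ∃ X : ℤ, ∀ u w, s(u, w) ∈ edges f → u.1 < X ∧ u.2 < X := by
  have hn : NeZero n := ⟨by have := h.len; omega⟩
  obtain ⟨X, hX⟩ : ∃ X : ℤ, ∀ i, (f i).1 < X ∧ (f i).2 < X := by
    have hfin : (Set.range (fun i => max (f i).1 (f i).2)).Finite := Set.finite_range _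
    obtain ⟨X, hX⟩ := hfin.bddAbove
    refine ⟨X + 1, fun i => ?_⟩
    have := hX ⟨i, rfl⟩
    simp only at this
    constructor <;> omega
  refine ⟨X, ?_⟩
  rintro u w ⟨i, hi⟩
  simp only [Sym2.eq_iff] at hi
  rcases hi with ⟨rfl, rfl⟩ | ⟨rfl, rfl⟩
  · exact hX i
  · exact hX (i + 1)

open Classical in
lemma Good.parReg_finite {n : ℕ} {f : ZMod n → ℤ × ℤ} (h : Good f) : (parReg (edges f)).Finite := by
  obtain ⟨X, hX⟩ := h.exists_bound
  have hneg : ∀ j : ℤ, j < 0 → ∀ i, (i, j) ∉ parReg (edges f) := by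
    intro j hj i hi
    simp only [parReg, Set.mem_ofPred_eq, cnt] at hi
    have : (Finset.Icc 0 i).filter (fun x => s((x, j), (x, j + 1)) ∈ edges f) = ∅ := by
      rw [Finset.filter_eq_empty_iff]
      intro x _ hP
      have := h.edge_nonneg hP
      simp only at this
      omega
    rw [Finset.card_eq_zero.2 this] at hi
    simp at hi
  have hbig : ∀ i : ℤ, X ≤ i → ∀ j : ℤ, (i, j) ∉ parReg (edges f) := by
    intro i hi j
    by_cases hj : -1 ≤ j
    · induction j, hj using Int.leInduction with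
      | base => exact hneg _ (by omega) _
      | succ j hj ih =>
        have := h.horiz i (j + 1)
        rw [show (j + 1 - 1 : ℤ) = j by ring] at this
        intro hcon
        have h3 := this.1 (by tauto)
        have := hX _ _ h3
        simp only at this
        omega
    · exact hneg _ (by omega) _
  have htop : ∀ j : ℤ, X ≤ j → ∀ i, (i, j) ∉ parReg (edges f) := by
    intro j hj i hi
    simp only [parReg, Set.mem_ofPred_eq, cnt] at hi
    have : (Finset.Icc 0 i).filter (fun x => s((x, j), (x, j + 1)) ∈ edges f) = ∅ := by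
      rw [Finset.filter_eq_empty_iff]
      intro x _ hP
      have := hX _ _ hP
      simp only at this
      omega
    rw [Finset.card_eq_zero.2 this] at hi
    simp at hi
  apply Set.Finite.subset (Set.Finite.prod (Set.finite_Icc (0 : ℤ) X) (Set.finite_Icc (0 : ℤ) X))
  rintro ⟨i, j⟩ hij
  simp only [Set.mem_prod, Set.mem_Icc]
  refine ⟨⟨?_, ?_⟩, ⟨?_, ?_⟩⟩
  · by_contra hc
    simp only [parReg, Set.mem_ofPred_eq] at hij
    rw [cnt_neg _ (by omega)] at hij
    simp at hij
  · by_contra hc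
    exact hbig i (by omega) j hij
  · by_contra hc
    exact hneg j (by omega) i hij
  · by_contra hc
    exact htop j (by omega) i hij

lemma bd_inj {S T : Set (ℤ × ℤ)} (hS : S.Finite) (hT : T.Finite) (h : bd S = bd T) : S = T := by
  by_contra hne
  have h1 : (symmDiff S T).Nonempty := by
    rw [Set.nonempty_iff_ne_empty]
    intro h2
    apply hne
    have : symmDiff S T = ⊥ := h2
    exact symmDiff_eq_bot.1 this
  have hfin : (symmDiff S T).Finite := (hS.union hT).subset (by
    intro x hx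
    rcases hx with hx | hx
    · exact Or.inl hx.1
    · exact Or.inr hx.1)
  obtain ⟨c, hc, hmax⟩ := hfin.exists_maximalFor (fun c => c.1) _ h1
  obtain ⟨x, y⟩ := c
  have h2 : (x + 1, y) ∉ symmDiff S T := by
    intro h3
    have := hmax h3 (by simp)
    simp at this
  have h3 : s((x + 1, y), (x + 1, y + 1)) ∈ bd S ↔ s((x + 1, y), (x + 1, y + 1)) ∈ bd T := by rw [h]
  rw [mem_bd_vert, mem_bd_vert, show (x + 1 - 1 : ℤ) = x by ring] at h3
  simp only [Set.mem_symmDiff] at h2 hc
  tauto

lemma bd_nonempty {S : Set (ℤ × ℤ)} (hS : S.Finite) (h : S.Nonempty) : (bd S).Nonempty := by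
  rw [Set.nonempty_iff_ne_empty]
  intro he
  have : bd (∅ : Set (ℤ × ℤ)) = ∅ := by
    ext e
    simp [bd]
  have h2 := bd_inj hS Set.finite_empty (he.trans this.symm)
  rw [h2] at h
  exact Set.not_nonempty_empty h

lemma pass_bd {S : Set (ℤ × ℤ)} {c d : ℤ × ℤ} (h : Pass (bd S) c d) : c ∈ S ↔ d ∈ S := by
  obtain ⟨x, y⟩ := c
  rcases h with ⟨rfl, h⟩ | ⟨rfl, h⟩ | ⟨rfl, h⟩ | ⟨rfl, h⟩ <;>
    simp only [mem_bd_vert, mem_bd_horiz, add_sub_cancel_right] at h <;> tauto

lemma reach_bd {S : Set (ℤ × ℤ)} {c d : ℤ × ℤ} (h : Relation.ReflTransGen (Pass (bd S)) c d) :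
    c ∈ S ↔ d ∈ S := by
  induction h with
  | refl => rfl
  | tail _ h1 ih => exact ih.trans (pass_bd h1)

lemma Good.enclosed_eq {n : ℕ} {f : ZMod n → ℤ × ℤ} (h : Good f) :
    enclosed (edges f) = parReg (edges f) := by
  set R := parReg (edges f) with hR
  have hbd : bd R = edges f := h.bd_parReg
  have hfin : R.Finite := h.parReg_finite
  ext c
  constructor
  · intro hc
    set S := {d | Relation.ReflTransGen (Pass (edges f)) c d} with hSdef
    have hSfin : S.Finite := hc
    have hcS : c ∈ S := Relation.ReflTransGen.refl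
    have hsub : bd S ⊆ edges f := by
      rintro e ⟨x, y, ⟨rfl, h1⟩ | ⟨rfl, h1⟩⟩
      · by_contra hP
        apply h1
        constructor
        · intro h2
          refine Relation.ReflTransGen.tail h2 (Or.inl ⟨by simp, ?_⟩)
          simpa using hP
        · intro h2
          refine Relation.ReflTransGen.tail h2 (Or.inr (Or.inl ⟨by simp, ?_⟩))
          simpa using hP
      · by_contra hP
        apply h1
        constructor
        · intro h2
          refine Relation.ReflTransGen.tail h2 (Or.inr (Or.inr (Or.inl ⟨by simp, ?_⟩)))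
          simpa using hP
        · intro h2
          refine Relation.ReflTransGen.tail h2 (Or.inr (Or.inr (Or.inr ⟨by simp, ?_⟩)))
          simpa using hP
    have h4 := h.min hsub (bd_nonempty hSfin ⟨c, hcS⟩)
    have h5 : S = R := bd_inj hSfin hfin (h4.trans hbd.symm)
    rw [← h5]; exact hcS
  · intro hc
    show {d | Relation.ReflTransGen (Pass (edges f)) c d}.Finite
    refine hfin.subset ?_
    intro d hd
    rw [← hbd] at hd
    exact (reach_bd hd).1 hc

/-- Edge-connectedness of a set of cells, in cut form. -/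
def Conn (R : Set (ℤ × ℤ)) : Prop :=
  ∀ S ⊆ R, S.Nonempty →
    (∀ x y, (x, y) ∈ S → ((x + 1, y) ∈ R → (x + 1, y) ∈ S) ∧ ((x - 1, y) ∈ R → (x - 1, y) ∈ S) ∧
      ((x, y + 1) ∈ R → (x, y + 1) ∈ S) ∧ ((x, y - 1) ∈ R → (x, y - 1) ∈ S)) → S = R

lemma Good.conn {n : ℕ} {f : ZMod n → ℤ × ℤ} (h : Good f) : Conn (parReg (edges f)) := by
  set R := parReg (edges f) with hR
  have hbd : bd R = edges f := h.bd_parReg
  have hfin : R.Finite := h.parReg_finite
  intro S hSR hne hcl
  have hSfin : S.Finite := hfin.subset hSR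
  have hsub : bd S ⊆ edges f := by
    rw [← hbd]
    rintro e ⟨x, y, ⟨rfl, h1⟩ | ⟨rfl, h1⟩⟩
    · rw [mem_bd_vert]
      have h2 := hcl x y
      have h3 := hcl (x - 1) y
      rw [sub_add_cancel] at h3
      have h4 := @hSR (x, y)
      have h5 := @hSR (x - 1, y)
      by_cases ha : (x, y) ∈ S
      · have hb := h4 ha
        have hc := (h2 ha).2.1
        by_cases hd : (x - 1, y) ∈ S
        · exact absurd ⟨fun _ => ha, fun _ => hd⟩ h1
        · have he : (x - 1, y) ∉ R := fun hr => hd (hc hr)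
          simp [he, hb]
      · by_cases hd : (x - 1, y) ∈ S
        · have hb := h5 hd
          have hc := (h3 hd).1
          have he : (x, y) ∉ R := fun hr => ha (hc hr)
          simp [he, hb]
        · exact absurd ⟨fun h => absurd h hd, fun h => absurd h ha⟩ h1
    · rw [mem_bd_horiz]
      have h2 := hcl x y
      have h3 := hcl x (y - 1)
      rw [sub_add_cancel] at h3
      have h4 := @hSR (x, y)
      have h5 := @hSR (x, y - 1)
      by_cases ha : (x, y) ∈ S
      · have hb := h4 ha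
        have hc := (h2 ha).2.2.2
        by_cases hd : (x, y - 1) ∈ S
        · exact absurd ⟨fun _ => ha, fun _ => hd⟩ h1
        · have he : (x, y - 1) ∉ R := fun hr => hd (hc hr)
          simp [he, hb]
      · by_cases hd : (x, y - 1) ∈ S
        · have hb := h5 hd
          have hc := (h3 hd).2.2.1
          have he : (x, y) ∉ R := fun hr => ha (hc hr)
          simp [he, hb]
        · exact absurd ⟨fun h => absurd h hd, fun h => absurd h ha⟩ h1
  have h4 := h.min hsub (bd_nonempty hSfin hne)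
  exact bd_inj hSfin hfin (h4.trans hbd.symm)

end Pool.Agent.Helper739
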