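import Pool.Agent.Helper739.SAPBound

namespace Pool.Agent.Helper739

open scoped ENNReal
open Filter

lemma W_sum {m : ℕ} (hm : 1 ≤ m) {τ : ℝ≥0∞} (hτ : τ ≤ 1) :
    ∑' x : Code, W m τ x ≤ ((1 - τ)⁻¹ * (2 * (1 - τ)⁻¹)) *
      ((∑' μ : YoungDiagram, (τ ^ 8) ^ μ.card) ^ 4 *
        ((1 + τ ^ m) ^ (m ^ 4) * (1 + τ ^ m) ^ (m ^ 4))) := by
  unfold W
  rw [ENNReal.tsum_prod']
  simp_rw [ENNReal.tsum_mul_left, ENNReal.tsum_mul_right]
  refine mul_le_mul' (W1_sum hm hτ) ?_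
  rw [ENNReal.tsum_prod']
  simp_rw [ENNReal.tsum_mul_left, ENNReal.tsum_mul_right]
  refine mul_le_mul' ?_ ?_
  · have := tsum_pi_le (ι := Bool × Bool) (fun μ : YoungDiagram => (τ ^ 8) ^ μ.card)
    simpa [W2] using this
  · rw [ENNReal.tsum_prod']
    simp_rw [ENNReal.tsum_mul_left, ENNReal.tsum_mul_right]
    rw [W3_sum]

lemma pow_bounded {r : ℝ} (h0 : 0 < r) (h1 : r < 1) :
    ∃ B : ℝ, ∀ m : ℕ, (1 + r ^ m) ^ (m ^ 4) ≤ B := by
  have h2 : Tendsto (fun m : ℕ => (m : ℝ) ^ 4 * r ^ m) atTop (nhds 0) :=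
    tendsto_pow_const_mul_const_pow_of_abs_lt_one 4 (by rw [abs_of_pos h0]; exact h1)
  obtain ⟨B, hB⟩ := h2.bddAbove_range
  refine ⟨Real.exp B, fun m => ?_⟩
  have h3 : (m : ℝ) ^ 4 * r ^ m ≤ B := hB ⟨m, rfl⟩
  calc (1 + r ^ m) ^ (m ^ 4) ≤ (Real.exp (r ^ m)) ^ (m ^ 4) := by
        apply pow_le_pow_left₀ (by positivity)
        have := Real.add_one_le_exp (r ^ m)
        linarith
    _ = Real.exp ((m : ℝ) ^ 4 * r ^ m) := by
        rw [← Real.exp_nat_mul]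
        push_cast
        ring_nf
    _ ≤ Real.exp B := Real.exp_le_exp.2 h3

/-- Uniform bound on the weighted number of self-avoiding polygons of half-perimeter `m`,
the weight being `s ^ (maximal area - area)`. -/
lemma unif_bound {s : ℝ} (h0 : 0 < s) (h1 : s < 1) :
    ∃ C : ℝ, 0 < C ∧ ∀ m : ℕ, 1 ≤ m → ∀ F : Finset (Set (Sym2 (ℤ × ℤ))), (∀ P ∈ F, IsSAP m P) →
      ∑ P ∈ F, s ^ (m ^ 2 / 4 - area P) ≤ C := by
  -- choose `r` with `r ^ 8 = s`
  obtain ⟨r, hr0, hr1, hrs⟩ : ∃ r : ℝ, 0 < r ∧ r < 1 ∧ r ^ 8 = s := by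
    refine ⟨s ^ ((1 : ℝ) / 8), Real.rpow_pos_of_pos h0 _, Real.rpow_lt_one h0.le h1 (by norm_num), ?_⟩
    rw [← Real.rpow_natCast, ← Real.rpow_mul h0.le]
    norm_num
  obtain ⟨B, hB⟩ := pow_bounded hr0 hr1
  have hB1 : 1 ≤ B := by
    have := hB 0
    simpa using this
  set τ := ENNReal.ofReal r with hτ
  have hτ1 : τ ≤ 1 := by
    rw [hτ, ← ENNReal.ofReal_one]
    exact ENNReal.ofReal_le_ofReal hr1.le
  have hY := YD_sum_le h0.le h1
  set Y : ℝ := Real.exp (s / (1 - s) ^ 2) with hYdef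
  set C0 : ℝ := ((1 - r)⁻¹ * (2 * (1 - r)⁻¹)) * (Y ^ 4 * (B * B)) with hC0
  have hC0pos : 0 < C0 := by
    have : 0 < 1 - r := by linarith
    have : 0 < Y := Real.exp_pos _
    have : 0 < B := by linarith
    positivity
  have hW : ∀ m : ℕ, 1 ≤ m → ∑' x : Code, W m τ x ≤ ENNReal.ofReal C0 := by
    intro m hm
    refine (W_sum hm hτ1).trans ?_
    have e1 : (1 - τ)⁻¹ = ENNReal.ofReal ((1 - r)⁻¹) := by
      rw [hτ, ENNReal.ofReal_inv_of_pos (by linarith), ENNReal.ofReal_sub _ hr0.le, ENNReal.ofReal_one]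
    have e2 : (2 : ℝ≥0∞) = ENNReal.ofReal 2 := by simp
    have hr' : 0 ≤ (1 - r)⁻¹ := by
      apply inv_nonneg.2; linarith
    have e3 : τ ^ 8 = ENNReal.ofReal s := by
      rw [hτ, ← ENNReal.ofReal_pow hr0.le, hrs]
    have e4 : (1 + τ ^ m) ^ (m ^ 4) ≤ ENNReal.ofReal B := by
      rw [hτ, ← ENNReal.ofReal_one, ← ENNReal.ofReal_pow hr0.le, ← ENNReal.ofReal_add (by norm_num) (by positivity),
        ← ENNReal.ofReal_pow (by positivity)]
      exact ENNReal.ofReal_le_ofReal (hB m)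
    have e5 : (1 - τ)⁻¹ * (2 * (1 - τ)⁻¹) = ENNReal.ofReal ((1 - r)⁻¹ * (2 * (1 - r)⁻¹)) := by
      rw [e1, e2, ← ENNReal.ofReal_mul (by norm_num), ← ENNReal.ofReal_mul hr']
    have e6 : ENNReal.ofReal C0 = ENNReal.ofReal ((1 - r)⁻¹ * (2 * (1 - r)⁻¹)) *
        (ENNReal.ofReal Y ^ 4 * (ENNReal.ofReal B * ENNReal.ofReal B)) := by
      rw [hC0, ENNReal.ofReal_mul (p := ((1 - r)⁻¹ * (2 * (1 - r)⁻¹))) (by positivity),
        ENNReal.ofReal_mul (p := Y ^ 4) (by positivity), ENNReal.ofReal_mul (p := B) (by positivity),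
        ENNReal.ofReal_pow (by positivity)]
    rw [e5, e6, e3]
    apply mul_le_mul' le_rfl
    apply mul_le_mul'
    · gcongr
    · exact mul_le_mul' e4 e4
  refine ⟨C0 / r ^ 2, by positivity, ?_⟩
  intro m hm F hF
  have hex : ∀ P : {P // P ∈ F}, ∃ x : Code, bd (decode x.1.1 x.1.2 x.2.1 x.2.2.1 x.2.2.2) = P.1 ∧
      τ ^ 2 * τ ^ (8 * (m ^ 2 / 4 - area P.1)) ≤ W m τ x := fun P => (sap_code (hF P.1 P.2) hτ1).2
  choose c hc1 hc2 using hex
  have hcinj : Function.Injective c := by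
    intro P Q h
    apply Subtype.ext
    rw [← hc1 P, ← hc1 Q, h]
  have key : ENNReal.ofReal (r ^ 2 * ∑ P ∈ F, s ^ (m ^ 2 / 4 - area P)) ≤ ENNReal.ofReal C0 := by
    calc ENNReal.ofReal (r ^ 2 * ∑ P ∈ F, s ^ (m ^ 2 / 4 - area P))
        = ∑' P : {P // P ∈ F}, τ ^ 2 * τ ^ (8 * (m ^ 2 / 4 - area P.1)) := by
          rw [ENNReal.tsum_mul_left, Finset.tsum_subtype (s := F)
            (f := fun P => τ ^ (8 * (m ^ 2 / 4 - area P))), ENNReal.ofReal_mul (by positivity),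
            ENNReal.ofReal_sum_of_nonneg (fun i _ => by positivity), hτ, ← ENNReal.ofReal_pow hr0.le]
          congr 1
          apply Finset.sum_congr rfl
          intro P _
          rw [pow_mul, ← ENNReal.ofReal_pow hr0.le, hrs, ENNReal.ofReal_pow h0.le]
      _ ≤ ∑' P : {P // P ∈ F}, W m τ (c P) := ENNReal.tsum_le_tsum hc2
      _ ≤ ∑' x : Code, W m τ x := ENNReal.tsum_comp_le_tsum_of_injective hcinj _
      _ ≤ ENNReal.ofReal C0 := hW m hm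
  rw [ENNReal.ofReal_le_ofReal_iff hC0pos.le] at key
  rw [le_div_iff₀ (by positivity), mul_comm]
  exact key

/-- There are finitely many self-avoiding polygons of given half-perimeter. -/
lemma sap_finite (m : ℕ) : {P | IsSAP m P}.Finite := by
  by_contra hinf
  have hinf' : {P | IsSAP m P}.Infinite := hinf
  obtain ⟨C, hC, hb⟩ := unif_bound (s := 1 / 2) (by norm_num) (by norm_num)
  obtain ⟨n, hn⟩ := exists_nat_gt (C / (1 / 2) ^ (m ^ 2 / 4))
  obtain ⟨F, hF, hcard⟩ := hinf'.exists_subset_card_eq n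
  have hm : 1 ≤ m := by
    obtain ⟨P, hP⟩ := hinf'.nonempty
    have := hP.1
    omega
  have h1 := hb m hm F (fun P hP => hF hP)
  have h2 : (n : ℝ) * (1 / 2) ^ (m ^ 2 / 4) ≤ ∑ P ∈ F, ((1 : ℝ) / 2) ^ (m ^ 2 / 4 - area P) := by
    rw [← hcard, ← nsmul_eq_mul]
    apply Finset.card_nsmul_le_sum
    intro P _
    apply pow_le_pow_of_le_one (by norm_num) (by norm_num)
    omega
  rw [div_lt_iff₀ (by positivity)] at hn
  linarith

end Pool.Agent.Helper739
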